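import Pool.Agent.P.MP_84b56d_ag.PC.St

/-! A criterion for the affine surface to be arithmetically special. -/

open Polynomial AlgebraicGeometry CategoryTheory CategoryTheory.Limits

noncomputable section

namespace Pool.Agent.P.MP_84b56d_ag.PC

lemma aff_pt {R E : Type} [CommRing R] [CommRing E] (d : R[X]) (ι : R →+* E) (v : Fin 4 → E)
    (h1 : v 0 ^ 2 - eval₂ ι (v 2) d * v 1 ^ 2 = 1) (h2 : v 2 * v 3 = 1) :
    ∃ φ : Bq d →+* E, (∀ r, φ (algebraMap R _ r) = ι r) ∧ ∀ i, φ (co d i) = v i := by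
  letI := ι.toAlgebra
  obtain ⟨φ, hφ⟩ := exists_pt d v h1 h2
  exact ⟨φ.toRingHom, φ.commutes, hφ⟩

lemma aff_pell {R E : Type} [CommRing R] [CommRing E] (d : R[X]) (φ : Bq d →+* E) :
    φ (co d 0) ^ 2 - eval₂ (φ.comp (algebraMap R _)) (φ (co d 2)) d * φ (co d 1) ^ 2 = 1 := by
  have := congrArg φ (co_pell d)
  rwa [map_sub, map_mul, map_pow, map_pow, map_one, aeval_def, hom_eval₂] at this

lemma aff_inv {R E : Type} [CommRing R] [CommRing E] (d : R[X]) (φ : Bq d →+* E) :
    φ (co d 2) * φ (co d 3) = 1 := by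
  rw [← map_mul, co_inv, map_one]

lemma aff_push {R S : Type} [CommRing R] [CommRing S] (σ : R →+* S) (d : R[X]) :
    ∃ G : Bq d →+* Bq (d.map σ), (∀ r, G (algebraMap R _ r) = algebraMap S _ (σ r)) ∧
      (∀ i, G (co d i) = co _ i) ∧
      IsPushout (CommRingCat.ofHom (algebraMap R (Bq d))) (CommRingCat.ofHom σ)
        (CommRingCat.ofHom G) (CommRingCat.ofHom (algebraMap S (Bq (d.map σ)))) := by
  obtain ⟨G, G1, G2⟩ := aff_pt d ((algebraMap S (Bq (d.map σ))).comp σ) (co (d.map σ))
    (by rw [← eval₂_map]; exact co_pell _) (co_inv _)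
  have w : CommRingCat.ofHom (algebraMap R (Bq d)) ≫ CommRingCat.ofHom G =
      CommRingCat.ofHom σ ≫ CommRingCat.ofHom (algebraMap S (Bq (d.map σ))) :=
    CommRingCat.hom_ext (RingHom.ext G1)
  refine ⟨G, G1, G2, ⟨w⟩, ⟨PushoutCocone.isColimitAux' _ fun s => ?_⟩⟩
  have c : s.inl.hom.comp (algebraMap R (Bq d)) = s.inr.hom.comp σ :=
    congrArg CommRingCat.Hom.hom s.condition
  have ex := aff_pt (d.map σ) s.inr.hom (fun i => s.inl.hom (co d i))
    (by rw [eval₂_map, ← c]; exact aff_pell d _) (aff_inv d _)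
  refine ⟨CommRingCat.ofHom ex.choose, CommRingCat.hom_ext (pt_ext d (fun r => ?_) fun i => ?_),
    CommRingCat.hom_ext (RingHom.ext ex.choose_spec.1), fun {m} m1 m2 =>
    CommRingCat.hom_ext (pt_ext _ (fun r => ?_) fun i => ?_)⟩
  · show ex.choose (G _) = _
    rw [G1, RingHom.comp_apply, ex.choose_spec.1]
    exact (RingHom.congr_fun c r).symm
  · show ex.choose (G _) = _
    rw [G2, ex.choose_spec.2]
  · show _ = ex.choose _
    rw [ex.choose_spec.1]
    exact RingHom.congr_fun (congrArg CommRingCat.Hom.hom m2) r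
  · show _ = ex.choose _
    rw [ex.choose_spec.2, ← G2]
    exact RingHom.congr_fun (congrArg CommRingCat.Hom.hom m1) _

lemma aff_near {A B : Type} [CommRing A] [IsDomain A] [CommRing B] [Algebra A B] (ψ : B →+* A)
    (h : ∀ a, ψ (algebraMap A B a) = a) :
    NearIntegral (Spec.map (CommRingCat.ofHom (algebraMap A B)))
      (Spec.map (CommRingCat.ofHom ((algebraMap A (FractionRing A)).comp ψ))) := by
  refine ⟨?_, fun p _ _ => ?_⟩
  · rw [← Spec.map_comp]
    exact congrArg Spec.map (CommRingCat.hom_ext (RingHom.ext fun a =>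
      congrArg (algebraMap A (FractionRing A)) (h a)))
  have j : Localization.AtPrime p →ₐ[A] FractionRing A :=
    IsLocalization.liftAlgHom (M := p.primeCompl) (f := Algebra.ofId A (FractionRing A))
      fun y => IsUnit.mk0 _ fun e => y.2 (by
        have : y.1 = 0 := IsFractionRing.injective A (FractionRing A) (by rw [map_zero]; exact e)
        rw [this]
        exact p.zero_mem)
  refine ⟨Spec.map (CommRingCat.ofHom ((algebraMap A (Localization.AtPrime p)).comp ψ)), j, ?_, ?_⟩
  · rw [← Spec.map_comp]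
    exact congrArg Spec.map (CommRingCat.hom_ext (RingHom.ext fun a =>
      congrArg (algebraMap A (Localization.AtPrime p)) (h a)))
  · rw [← Spec.map_comp]
    exact congrArg Spec.map (CommRingCat.hom_ext (RingHom.ext fun a => j.commutes (ψ a)))

theorem pAff : S_Aff := by
  rintro k _ A d₀ _ hA rfl h
  obtain ⟨G, G1, G2, hG⟩ := aff_push A.subtype d₀
  have h1 : Algebra.FiniteType A (Bq d₀) := inferInstance
  refine ⟨A, Spec (.of (Bq d₀)), Spec.map (CommRingCat.ofHom (algebraMap A (Bq d₀))),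
    Spec.map (CommRingCat.ofHom G), hA, inferInstance,
    (HasRingHomProperty.Spec_iff (P := @LocallyOfFiniteType)).2
      (RingHom.finiteType_algebraMap.2 h1), inferInstance,
    isPullback_SpecMap_of_isPushout _ _ _ _ hG, ?_⟩
  refine (PrimeSpectrum.isTopologicalBasis_basic_opens
    (R := Bq (d₀.map A.subtype))).dense_iff.2 ?_
  rintro _ ⟨f, rfl⟩ ⟨z, hz⟩
  obtain ⟨φ, hf, hφ⟩ := h f (by
    rintro rfl
    exact hz z.asIdeal.zero_mem)
  have c : (φ.toRingHom.comp G).comp (algebraMap A (Bq d₀)) = A.subtype :=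
    RingHom.ext fun a => by
      show φ (G _) = _
      rw [G1, AlgHom.commutes]
      rfl
  obtain ⟨ψ, ψ1, ψ2⟩ := aff_pt d₀ (RingHom.id A) (fun i => ⟨_, hφ i⟩)
    (A.subtype_injective (by
      have := aff_pell d₀ (φ.toRingHom.comp G)
      rw [c] at this
      simp only [RingHom.comp_apply, G2] at this
      rw [map_sub, map_mul, map_pow, map_pow, map_one, hom_eval₂]
      exact this))
    (Subtype.ext (aff_inv _ φ.toRingHom))
  have ι : FractionRing A →ₐ[A] k :=
    IsFractionRing.liftAlgHom (g := Algebra.ofId A k) A.subtype_injective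
  refine ⟨Spec.map (CommRingCat.ofHom φ.toRingHom) ⟨⊥, Ideal.isPrime_bot⟩, hf,
    Spec.map (CommRingCat.ofHom φ.toRingHom), _, ι, aff_near ψ ψ1, ?_, ?_, _, rfl⟩
  · rw [← Spec.map_comp, ← Spec.map_id]
    exact congrArg Spec.map (CommRingCat.hom_ext (RingHom.ext fun a => φ.commutes a))
  · rw [← Spec.map_comp, ← Spec.map_comp]
    refine congrArg Spec.map (CommRingCat.hom_ext (pt_ext d₀ (fun a => ?_) fun i => ?_))
    · refine (RingHom.congr_fun c a).trans (Eq.symm ?_)
      refine (ι.commutes (ψ _)).trans ?_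
      rw [ψ1]
      rfl
    · refine Eq.trans ?_ (ι.commutes (ψ _)).symm
      show φ (G _) = _
      rw [G2, ψ2]
      rfl

end Pool.Agent.P.MP_84b56d_ag.PC
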