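import Pool.Agent.P.MP_84b56d_ag.PC.St

/-! Part B1: bounded units, the two units are independent. -/

open Polynomial

noncomputable section

namespace Pool.Agent.P.MP_84b56d_ag.PC

lemma b1_half {K : Type} [Field K] [CharZero K] {s : Set K} {P P' w : K} (h : P * P' = 1)
    (hw : P + P' = 2 * w) (hP : P ∈ acl s) : w ∈ acl s := by
  have h1 : P' = P⁻¹ := eq_inv_of_mul_eq_one_right h
  have h2 : w = (P + P⁻¹) / 2 := by rw [← h1, hw]; field_simp
  rw [h2]
  exact div_mem (add_mem hP (inv_mem hP)) (ofNat_mem _ 2)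

lemma b1_root {K : Type} [Field K] [CharZero K] {P P' w : K} (h : P * P' = 1)
    (hw : P + P' = 2 * w) : P ∈ acl {w} := by
  have hm : w ∈ acl ({w} : Set K) := subset_acl _ rfl
  have h1 : (P - w) ^ 2 ∈ acl ({w} : Set K) := by
    rw [show (P - w) ^ 2 = w ^ 2 - 1 by linear_combination P * hw - h]
    exact sub_mem (pow_mem hm _) (one_mem _)
  simpa using add_mem (mem_acl_of_sq h1) hm

theorem pB1 (hM : S_Map) (hTr : S_Tr) (hS : S_Step) (hF : S_FD) : S_B1 := by
  classical
  intro K L ι τ _ _ _ _ _ _ _ c u hu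
  let Ω := AlgebraicClosure K
  let φ : K →+* Ω := algebraMap K Ω
  have hI : Ind (φ c.e) fun i => φ (c.q i) := by
    have h := AlgebraicIndependent.map' (f := φ.toRatAlgHom) c.ind φ.injective
    have e : (φ.toRatAlgHom ∘ fun o : Option (Fin 18) => o.elim c.e c.q) =
        fun o : Option (Fin 18) => o.elim (φ c.e) fun i => φ (c.q i) :=
      funext fun o => by cases o <;> rfl
    rw [e] at h
    exact h
  set W := wu (φ c.e) (fun i => φ (c.q i)) (φ u) with hW
  choose Z hZ using fun j : ℕ => hS Ω _ (derivative^[j] W) (hF K L ι τ c Ω)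
  have X1 := (hTr K c.e c.q u {u, c.e} c.ind hu.1 (subset_acl _ (by simp)) (subset_acl _ (by simp))
    (Finset.card_le_two.trans (by norm_num))).1
  have X2 : (φ ⁻¹' ((Finset.range (W.natDegree + 1)).biUnion Z : Finset Ω)).Finite :=
    (Finset.finite_toSet _).preimage φ.injective.injOn
  refine (X1.union X2).subset ?_
  rintro a ⟨ha, hb, hg, x, y, hs, hx⟩
  by_contra hcon
  simp only [Set.mem_union, Set.mem_ofPred_eq, Set.mem_preimage, Finset.mem_coe, Finset.mem_biUnion,
    not_or, not_exists, not_and] at hcon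
  obtain ⟨c1, c2⟩ := hcon
  replace c1 : c.w (u * a) ∉ acl (({u, c.e} : Finset K) : Set K) := c1 ha
  obtain ⟨r, hr⟩ := IsAlgClosed.exists_pow_nat_eq (φ (c.d (u * a))) two_pos
  have ha' : φ a ∈ acl (∅ : Set Ω) := by simpa using (hM K Ω φ ∅ a).2 ha
  set ε := φ x + φ y * r with hε
  set P := φ (c.w (u * a)) + φ (c.Y (u * a)) * r with hP
  have e1 : ε * (φ x - φ y * r) = 1 := by
    have := congrArg φ hs.2.2.2
    simp only [map_sub, map_mul, map_pow, map_one] at this
    linear_combination this - φ y ^ 2 * hr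
  have e2 : P * (φ (c.w (u * a)) - φ (c.Y (u * a)) * r) = 1 := by
    have := congrArg φ (c.pell (u * a))
    simp only [map_sub, map_mul, map_pow, map_one] at this
    linear_combination this - φ (c.Y (u * a)) ^ 2 * hr
  have f1 : ε + (φ x - φ y * r) = 2 * φ x := by ring
  have f2 : P + (φ (c.w (u * a)) - φ (c.Y (u * a)) * r) = 2 * φ (c.w (u * a)) := by ring
  have n1 : P ∉ acl (∅ : Set Ω) := fun h => c1 (acl_mono (Set.empty_subset _)
    ((hM K Ω φ ∅ _).1 (by simpa using b1_half e2 f2 h)))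
  have n2 : ε ∉ acl {P} := fun h => hx ((hM K Ω φ {c.w (u * a)} x).1 (by
    rw [Set.image_singleton]
    exact acl_le (Set.singleton_subset_iff.2 (b1_root e2 f2)) (b1_half e1 f1 h)))
  have W0 : W.eval (φ a) = φ (c.w (u * a)) := by
    rw [hW, wu, eval_comp, ← map_pw, Ctx.w]
    simp [← map_mul, eval_map_apply]
  have key : ∀ j, (derivative^[j] W).eval (φ a) ∈ acl ({P, ε} : Set Ω) := by
    intro j
    induction j with
    | zero => exact W0 ▸ b1_half e2 f2 (subset_acl _ (by simp))
    | succ j ih =>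
      by_cases hj : j < W.natDegree + 1
      · rw [Function.iterate_succ_apply']
        exact hZ j _ ha' (c2 j (Finset.mem_range.2 hj)) ε P
          ⟨u * a, x, y, r, hb, hg, hs, hr, rfl, rfl⟩ n1 n2 ih
      · rw [iterate_derivative_eq_zero (by omega), eval_zero]
        exact zero_mem _
  obtain ⟨j, hj⟩ := (hTr Ω _ _ (φ u) {P, ε, φ u, φ c.e} hI ((_root_.map_ne_zero φ).2 hu.1)
    (subset_acl _ (by simp)) (subset_acl _ (by simp))
    (Finset.card_le_four.trans (by norm_num))).2 _ ha'
  exact hj (acl_mono (by intro z hz; simp at hz ⊢; tauto) (key j))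

end Pool.Agent.P.MP_84b56d_ag.PC
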