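import Pool.Agent.P.MP_84b56d_ag.PC.St

/-! Part B2: bounded units, the factor is constant. -/

open Polynomial Ivrii.PX Ivrii.TA

noncomputable section

namespace Pool.Agent.P.MP_84b56d_ag.PC

lemma b2_der (hDep : S_Dep) {K : Type} [Field K] [CharZero K] {a : K} (ha : a ∈ acl (∅ : Set K))
    (D : Der K) : D a = 0 := by
  obtain ⟨α, -, h⟩ := hDep K Empty (fun x => x.elim) a (by rwa [Set.range_eq_empty])
  simpa using h D

lemma b2_dep (hDep : S_Dep) {K : Type} [Field K] [CharZero K] {w x : K} (hx : x ∈ acl {w}) :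
    ∃ α ∈ acl {w}, ∀ D : Der K, D x = α * D w := by
  obtain ⟨α, h1, h⟩ := hDep K Unit (fun _ => w) x (by rwa [Set.range_const])
  exact ⟨α (), by simpa [Set.range_const] using h1 (), fun D => by simpa using h D⟩

lemma b2_order_zero {L : Type} [Field L] {f : LaurentSeries L} (hf : f ≠ 0) (h : Ge 0 f)
    (h' : Ge 0 f⁻¹) : f.order = 0 := by
  have h1 := le_order h hf
  have h2 := le_order h' (inv_ne_zero hf)
  rw [order_inv'] at h2
  omega

lemma b2_order_sq {L : Type} [Field L] {f : LaurentSeries L} (h : f.order < 0) :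
    (f ^ 2 - 1).order = 2 * f.order := by
  have hf : f ≠ 0 := by
    rintro rfl
    simp at h
  have h1 : Ge ((f ^ 2).order + 1) (-1 : LaurentSeries L) :=
    Lead.one.1.neg.mono (by rw [order_pow']; push_cast; omega)
  rw [sub_eq_add_neg, (order_add_of_ge (pow_ne_zero 2 hf) h1).2, order_pow']
  rfl

/-- The factor has no pole where `w` has one. -/
lemma b2_pole (hA : S_A) {K L : Type} [Field K] [CharZero K] [Field L] [CharZero L]
    (ψ : K →+* LaurentSeries L) {δ : Der K} (he : ∀ f, euler L L (ψ f) = ψ (δ f))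
    {d x y w Y φ : K} (hd : d ≠ 0) (hy : y ≠ 0) (hY : Y ≠ 0) (h1 : x ^ 2 - d * y ^ 2 = 1)
    (h2 : w ^ 2 - d * Y ^ 2 = 1) (h : eta δ d x y = φ * eta δ d w Y) (hw : (ψ w).order < 0) :
    Ge 0 (ψ φ) := by
  have e1 : x ^ 2 - 1 = d * y ^ 2 := by linear_combination h1
  have e2 : w ^ 2 - 1 = d * Y ^ 2 := by linear_combination h2
  have n1 : (ψ x) ^ 2 ≠ 1 := fun h0 => mul_ne_zero hd (pow_ne_zero 2 hy)
    (e1 ▸ ψ.injective (by simp [h0]))
  have n2 : (ψ w) ^ 2 ≠ 1 := fun h0 => mul_ne_zero hd (pow_ne_zero 2 hY)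
    (e2 ▸ ψ.injective (by simp [h0]))
  have key : δ x ^ 2 / (x ^ 2 - 1) = δ w ^ 2 / (w ^ 2 - 1) * φ ^ 2 := by
    rw [e1, e2, ← mul_eta δ h1, ← mul_eta δ h2, h]
    field_simp
  have k2 := congrArg ψ key
  simp only [map_div₀, map_mul, map_pow, map_sub, map_one, ← he] at k2
  have a1 := (hA L _ n1).1
  have a2 := hA L _ n2
  have c2 : (((min (ψ w).order 0 : ℤ) : L) ^ 2) ≠ 0 :=
    pow_ne_zero 2 (Int.cast_ne_zero.2 (by omega))
  rw [k2] at a1
  refine ge_of_sq (n := 0) (ge_of_mul_left (a2.ne_zero c2) ?_)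
  rwa [order_of_lead a2 c2]

theorem pB2 (hP : S_Places) (hA : S_A) (hRes : S_Res) (hFin : S_Fin) (hDep : S_Dep)
    (hDeg : S_Deg) (hTr : S_Tr) (hK : S_Kill) : S_B2 := by
  classical
  intro K L ι τ _ _ _ _ _ _ _ c u hu
  obtain ⟨⟨C, -, -, -, -, hkill⟩, hform⟩ := hK K L ι τ c
  obtain ⟨l, l', hk⟩ := hkill u 0 1 hu
  let S : Finset K := {u, c.e, c.q 0, l, l', c.Δ}
  have hS : S.card ≤ 18 := Finset.card_le_six.trans (by norm_num)
  have mS : ∀ f ∈ S, f ∈ acl (S : Set K) := fun f hf => subset_acl _ hf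
  have mu : u ∈ acl (S : Set K) := mS _ (by simp [S])
  have me : c.e ∈ acl (S : Set K) := mS _ (by simp [S])
  let k0 := IntermediateField.adjoin ℚ (S : Set K)
  have hR : ∀ f ∈ c.R, f ∈ Algebra.adjoin k0 (c.s : Set K) := fun f hf =>
    (Algebra.adjoin_le (S := (Algebra.adjoin k0 (c.s : Set K)).restrictScalars ℚ)
      Algebra.subset_adjoin) hf
  have hI : ∀ f ∈ c.R, IsIntegral (Algebra.adjoin k0 (c.s : Set K)) f := fun f hf =>
    isIntegral_algebraMap (x := (⟨f, hR f hf⟩ : Algebra.adjoin k0 (c.s : Set K)))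
  obtain ⟨L', ι', _, _, _, ψ, δ, pl⟩ := hP k0 K c.s fun f => by
    obtain ⟨a, ha, b, hb, h⟩ := c.frac f
    exact ⟨a, hR a ha, b, hR b hb, h⟩
  have g0 : ∀ i, ∀ f ∈ acl (S : Set K), Ge 0 (ψ i f) := fun i f hf => pl.alg i f (mem_acl.1 hf)
  obtain ⟨-, -, -, -, d0, d1, -⟩ := hDeg K c.e c.q c.ind
  have W0 : (wu c.e c.q u).coeff 0 = 1 + c.q 0 := by
    rw [← d0, coeff_zero_eq_eval_zero, coeff_zero_eq_eval_zero, wu, eval_comp]
    simp
  have We : ∀ a, (wu c.e c.q u).eval a = c.w (u * a) := fun a => by simp [wu, eval_comp, Ctx.w]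
  have X1 := (hTr K c.e c.q u S c.ind hu.1 mu me hS).1
  have X2 : ∀ i, {a | a ∈ acl (∅ : Set K) ∧ Ge 0 (ψ i ((wu c.e c.q u).eval a)) ∧
      ¬ Triv (ψ i) ((wu c.e c.q u).eval a)}.Finite := fun i =>
    (hRes K L' (ψ i)).2.2.2 _ (W0 ▸ (hRes K L' (ψ i)).1 _ d1 fun g hg => g0 i g
      (acl_le (Set.singleton_subset_iff.2 (add_mem (one_mem _) (mS _ (by simp [S])))) hg))
  have X3 : {a : K | l - l' * (u * a) = 0}.Finite := by
    refine (Set.finite_singleton (l / (l' * u))).subset fun a ha => ?_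
    have ha' : l - l' * (u * a) = 0 := ha
    have hl : l' ≠ 0 := fun h0 => hk.ne.elim (fun h => h (by simpa [h0] using ha')) fun h => h h0
    have := hu.1
    rw [Set.mem_singleton_iff, eq_div_iff (mul_ne_zero hl this)]
    linear_combination -ha'
  refine ((X1.union (Set.finite_iUnion X2)).union X3).subset ?_
  rintro a ⟨ha, hb, ⟨hY, hd⟩, x, y, ⟨hx, hy, hy0, hs⟩, hxw, hn⟩
  by_contra hcon
  simp only [Set.mem_union, Set.mem_iUnion, Set.mem_ofPred_eq, not_or, not_exists, not_and,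
    not_not, We] at hcon
  obtain ⟨⟨c1, c2⟩, c3⟩ := hcon
  replace c1 : c.w (u * a) ∉ acl (S : Set K) := c1 ha
  replace c2 : ∀ i, Ge 0 (ψ i (c.w (u * a))) → Triv (ψ i) (c.w (u * a)) := fun i => c2 i ha
  set b := u * a with hbdef
  have mb : b ∈ acl (S : Set K) := mul_mem mu (acl_mono (Set.empty_subset _) ha)
  have mY : c.Y b ∈ acl (S : Set K) := by
    rw [Ctx.Y, eval_pY]
    exact add_mem (add_mem (one_mem _) mb) (mul_mem me (pow_mem mb _))
  obtain ⟨α, mα, hα⟩ := b2_dep hDep hxw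
  have hp := c.pell b
  have he : ∀ D : Der K, eta D (c.d b) x y = α * c.Y b / y * eta D (c.d b) (c.w b) (c.Y b) :=
    fun D => by
      have h1 := mul_eta D hs
      have h2 := mul_eta D hp
      field_simp
      linear_combination h1 + hα D - α * h2
  have mw : c.w b ∈ acl {c.w b} := subset_acl _ rfl
  have mφ : α * c.Y b / y ∈ acl {c.w b} := by
    have h1 : (c.Y b / y) ^ 2 = (c.w b ^ 2 - 1) / (x ^ 2 - 1) := by
      rw [show c.w b ^ 2 - 1 = c.d b * c.Y b ^ 2 by linear_combination hp,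
        show x ^ 2 - 1 = c.d b * y ^ 2 by linear_combination hs]
      field_simp
    rw [mul_div_assoc]
    exact mul_mem mα (mem_acl_of_sq (h1 ▸ div_mem (sub_mem (pow_mem mw _) (one_mem _))
      (sub_mem (pow_mem hxw _) (one_mem _))))
  have kb : c.E 0 1 l l' b = 0 := by
    rw [hbdef, Derivation.leibniz, hk.kill, b2_der hDep ha, smul_zero, smul_zero, add_zero]
  obtain ⟨-, f1, -, -, f2⟩ := hform 0 1 l l' b kb
  rw [f1] at f2
  have f3 : eta (c.E 0 1 l l') (c.d b) (c.w b) (c.Y b) = c.Y b * (c.Δ * (l - l' * b)) := by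
    simpa using f2
  have nG : c.Y b * (c.Δ * (l - l' * b)) ≠ 0 := mul_ne_zero hY (mul_ne_zero c.fr.ne c3)
  have mG : c.Y b * (c.Δ * (l - l' * b)) ∈ acl (S : Set K) :=
    mul_mem mY (mul_mem (mS _ (by simp [S])) (sub_mem (mS _ (by simp [S]))
      (mul_mem (mS _ (by simp [S])) mb)))
  have iφ : IsIntegral (Algebra.adjoin k0 (c.s : Set K)) (α * c.Y b / y) := by
    have h1 : α * c.Y b / y = eta (c.E 0 1 l l') (c.d b) x y * (c.Y b * (c.Δ * (l - l' * b)))⁻¹ := by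
      rw [he, f3, mul_inv_cancel_right₀ nG]
    rw [h1]
    exact (hI _ (eta_mem hk.good.1 (c.d_mem hb) hx hy)).mul
      (mem_acl.1 (inv_mem mG)).isIntegral.tower_top
  have aφ := pl.const _ iφ fun i => by
    by_cases hw : (ψ i (c.w b)).order < 0
    · exact b2_pole hA (ψ i) (pl.eul i) hd hy0 hY hs hp (he δ) hw
    · exact (hRes K L' (ψ i)).2.1 _ (c2 i (ge_iff.2 (Or.inr (not_lt.1 hw)))) _ mφ
  have pole : ∃ i, (ψ i (c.w b)).order < 0 := by
    by_contra h0
    push Not at h0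
    exact c1 (mem_acl.2 (pl.const _ (hI _ (c.w_mem hb)) fun i => ge_iff.2 (Or.inr (h0 i))))
  have od : ∀ i, (ψ i (c.d b)).order = -(2 * max 0 (-(ψ i (c.w b)).order)) := fun i => by
    have nY : ψ i (c.Y b) ≠ 0 := (_root_.map_ne_zero _).2 hY
    have o1 := b2_order_zero nY (g0 i _ mY) (map_inv₀ (ψ i) _ ▸ g0 i _ (inv_mem mY))
    have o2 : (ψ i (c.w b ^ 2 - 1)).order = (ψ i (c.d b)).order := by
      rw [show c.w b ^ 2 - 1 = c.d b * c.Y b ^ 2 by linear_combination hp, map_mul, map_pow,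
        order_mul' ((_root_.map_ne_zero _).2 hd) (pow_ne_zero 2 nY), order_pow', o1]
      simp
    rw [← o2]
    by_cases hw : (ψ i (c.w b)).order < 0
    · rw [map_sub, map_pow, map_one, b2_order_sq hw]
      omega
    · rw [((hRes K L' (ψ i)).2.2.1 _ (c2 i (ge_iff.2 (Or.inr (not_lt.1 hw))))).2]
      omega
  refine hn (hFin k0 K L' ι' c.s ψ δ c.R _ x y _ _ _ pl hR (c.d_mem hb) hx hy (c.w_mem hb)
    (c.Y_mem hb) hd hy0 hY hs hp (he δ) (pl.dk _ aφ) pole ?_)
  obtain ⟨i, hi⟩ := pole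
  have h1 : max 0 (-(ψ i (c.w b)).order) ≤ hgt ψ (c.w b) :=
    Finset.single_le_sum (f := fun i => max 0 (-(ψ i (c.w b)).order))
      (fun j _ => le_max_left _ _) (Finset.mem_univ i)
  simp only [od, Finset.sum_neg_distrib, neg_neg, ← Finset.mul_sum]
  have h2 : hgt ψ (c.w b) = ∑ i, max 0 (-(ψ i (c.w b)).order) := rfl
  omega

end Pool.Agent.P.MP_84b56d_ag.PC
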