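import Pool.Agent.P.MP_84b56d_ag.PC.St

/-! Finitely many algebraic multiples of a unit have a unit as value of `Y`. -/

open Polynomial Ivrii.PX Ivrii.TA

namespace Pool.Agent.P.MP_84b56d_ag.PC

lemma bc_three {K : Type} [Field K] (F : Subfield K) {e u v : K} (hu : u ≠ 0) (hv : v ≠ 0)
    (he : e ∉ F) : {a | a ∈ F ∧ (1 + u * a + e * (u * a) ^ 2) / v ∈ F}.Finite := by
  by_contra hinf
  let a := Set.Infinite.natEmbedding _ hinf
  have hne : ∀ i j, i ≠ j → (a i).1 - (a j).1 ≠ 0 := fun i j h =>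
    sub_ne_zero.2 fun e => h (a.injective (Subtype.ext e))
  have hxy := hne 0 1 (by norm_num)
  have hxz := hne 0 2 (by norm_num)
  have hyz := hne 1 2 (by norm_num)
  obtain ⟨x1, x2⟩ := (a 0).2
  obtain ⟨y1, y2⟩ := (a 1).2
  obtain ⟨z1, z2⟩ := (a 2).2
  generalize (a 0).1 = x at *
  generalize (a 1).1 = y at *
  generalize (a 2).1 = z at *
  have d1 : (u + e * u ^ 2 * (x + y)) / v ∈ F := by
    convert div_mem (sub_mem x2 y2) (sub_mem x1 y1) using 1
    field_simp
    ring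
  have d2 : (u + e * u ^ 2 * (x + z)) / v ∈ F := by
    convert div_mem (sub_mem x2 z2) (sub_mem x1 z1) using 1
    field_simp
    ring
  have hs : e * u ^ 2 / v ∈ F := by
    convert div_mem (sub_mem d1 d2) (sub_mem y1 z1) using 1
    field_simp
    ring
  have hr : u / v ∈ F := by
    convert sub_mem d1 (mul_mem hs (add_mem x1 y1)) using 1
    field_simp
    ring
  have hp : 1 / v ∈ F := by
    convert sub_mem (sub_mem x2 (mul_mem hr x1)) (mul_mem hs (pow_mem x1 2)) using 1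
    field_simp
    ring
  refine he ?_
  convert div_mem (mul_mem hs hp) (pow_mem hr 2) using 1
  field_simp

theorem pBC (_hdom : S_Dom) (hdeg : S_Deg) (hpig : S_Pig) : S_BC := by
  intro K L ι τ _ _ _ _ _ _ _ c u hu
  have he := (hdeg K c.e c.q c.ind).2.2.2.2.2.2
  obtain ⟨m, hm⟩ := Finite.bddBelow_range fun i =>
    min 0 (min (c.ψ i u).order (c.ψ i (c.e * u ^ 2)).order)
  obtain ⟨U, hU, hP⟩ := hpig K L ι τ c (-m)
  refine (U.finite_toSet.biUnion fun v hv => bc_three (acl ∅) hu.1 (hU v hv).1 he).subset ?_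
  rintro a ⟨ha, hY⟩
  have hb : ∀ i, - -m ≤ c.o i (c.Y (u * a)) := fun i => by
    have h0 := hm ⟨i, rfl⟩
    simp only [le_min_iff] at h0
    have ha0 := (c.pl.alg i a (mem_acl_empty.1 ha)).lead
    have h1 := ((ge_order (c.ψ i u)).lead.mul ha0).1
    have h2 := ((ge_order (c.ψ i (c.e * u ^ 2))).lead.mul (ha0.mul ha0)).1
    have h3 := ((Lead.one.1.mono h0.1).add (h1.mono (n' := m) (by omega))).add
      (h2.mono (n' := m) (by omega))
    rw [neg_neg]
    refine le_order ?_ ((_root_.map_ne_zero _).2 hY.1)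
    convert h3 using 1
    simp only [Ctx.Y, eval_pY, map_add, map_mul, map_pow, map_one]
    ring
  obtain ⟨v, hv, b, hb', e⟩ := hP _ hY hb
  refine Set.mem_biUnion (Finset.mem_coe.2 hv) ⟨ha, ?_⟩
  rw [Ctx.Y, eval_pY] at e
  rwa [e, mul_div_cancel_left₀ _ (hU v hv).1]

end Pool.Agent.P.MP_84b56d_ag.PC
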