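import Pool.Agent.P.MP_84b56d_ag.PC.St

/-! Finiteness of the bad values, first in a context and then in general. -/

open Polynomial Ivrii.PX Ivrii.TA

noncomputable section

namespace Pool.Agent.P.MP_84b56d_ag.PC

lemma ctx_big {K L ι τ : Type} [Field K] [CharZero K] [Field L] [CharZero L] [Fintype ι]
    [Fintype τ] [DecidableEq τ] (c : Ctx K L ι τ) {H H' : ℤ} {b : K} (h : H' ≤ H)
    (hb : c.Big H b) : c.Big H' b := hb.imp fun _ hi => h.trans_lt hi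

theorem pCtx (hD : S_Deg) (hF : S_Fin) (h1 : S_U1) (h2 : S_U2) (h3 : S_U3) (hC : S_UC)
    (hP : S_Pig) (hBC : S_BC) (hB1 : S_B1) (hB2 : S_B2) : S_Ctx := by
  intro K L ι τ _ _ _ _ _ _ _ c
  obtain ⟨H1, k1⟩ := h1 K L ι τ c
  obtain ⟨H2, k2⟩ := h2 K L ι τ c
  obtain ⟨H3, k3⟩ := h3 K L ι τ c
  obtain ⟨H4, k4⟩ := hC K L ι τ c
  obtain ⟨U, hU, kU⟩ := hP K L ι τ c (max (max H1 H2) (max H3 H4))
  obtain ⟨dY, -, -, dd, -⟩ := hD K c.e c.q c.ind
  have nY : pY c.e ≠ 0 := fun h => by simp [h] at dY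
  have nd : pd c.e c.q ≠ 0 := fun h => by simp [h] at dd
  have fG := (finite_setOfPred_isRoot nY).union (finite_setOfPred_isRoot nd)
  have fU := U.finite_toSet.biUnion fun u hu =>
    (((hBC K L ι τ c u (hU u hu)).union (hB1 K L ι τ c u (hU u hu))).union
      (hB2 K L ι τ c u (hU u hu))).image (u * ·)
  refine (fG.union fU).subset ?_
  rintro b ⟨b0, bR, bi, x, xR, y, yR, y0, hxy, hY⟩
  by_cases hG : c.Gen b
  swap
  · left
    by_contra hn
    exact hG ⟨fun h => hn (Or.inl h), fun h => hn (Or.inr h)⟩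
  right
  have hu : c.Unit b := ⟨b0, bR, bi⟩
  have hs : c.Sol b x y := ⟨xR, yR, y0, hxy⟩
  have hY' : y / c.Y b ∈ c.R → c.Unit (c.Y b) := fun h => ⟨hG.1, c.Y_mem bR, hY h⟩
  by_cases hb : c.Big (max (max H1 H2) (max H3 H4)) b
  · exfalso
    obtain ⟨α, hα⟩ := k1 b x y hu (ctx_big c (by simp) hb) hG hs
    have hφ := k2 b x y α hu (ctx_big c (by simp) hb) hG hs hα c.δ
    obtain ⟨p1, p2⟩ := k3 b hu (ctx_big c (by simp) hb) hG
    refine k4 b hu (ctx_big c (by simp) hb) (hY' (hF ℚ K L ι c.s c.ψ c.δ c.R (c.d b) x y (c.w b)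
      (c.Y b) (α * c.Y b / y) c.pl (fun _ h => h) (c.d_mem bR) xR yR (c.w_mem bR) (c.Y_mem bR)
      hG.2 y0 hG.1 hxy (c.pell b) ?_ hφ p1 p2))
    apply mul_left_cancel₀ y0
    rw [mul_eta c.δ hs.2.2.2, hα, ← mul_eta c.δ (c.pell b), ← mul_assoc y, mul_div_cancel₀ _ y0,
      mul_assoc]
  · obtain ⟨u, hu', a, ha, rfl⟩ := kU b hu fun i =>
      (abs_le.1 (not_lt.1 fun h => hb ⟨i, h⟩)).1
    refine Set.mem_biUnion hu' ⟨a, ?_, rfl⟩
    by_cases hx : x ∈ acl {c.w (u * a)}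
    · by_cases hy : y / c.Y (u * a) ∈ c.R
      · exact Or.inl (Or.inl ⟨ha, hY' hy⟩)
      · exact Or.inr ⟨ha, bR, hG, x, y, hs, hx, hy⟩
    · exact Or.inl (Or.inr ⟨ha, bR, hG, x, y, hs, hx⟩)

theorem pCore (hP : S_Places) (hF : S_Frame) (hC : S_Ctx) : S_Core := by
  classical
  rintro k _ _ R e q ⟨s0, rfl⟩ he hq hI
  set R : Subalgebra ℚ k := Algebra.adjoin ℚ (s0 : Set k) with hR
  let K : Subfield k := Subfield.closure (R : Set k)
  have hK : ∀ f ∈ R, f ∈ K := fun f hf => Subfield.subset_closure hf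
  let φ : K →ₐ[ℚ] k := K.subtype.toRatAlgHom
  let s : Finset K := s0.subtype (· ∈ K)
  have hs : φ '' (s : Set K) = s0 := by
    ext f
    constructor
    · rintro ⟨g, hg, rfl⟩
      exact Finset.mem_subtype.1 hg
    · intro hf
      exact ⟨⟨f, hK f (Algebra.subset_adjoin hf)⟩, Finset.mem_subtype.2 hf, rfl⟩
  have hm : ∀ f : K, f ∈ Algebra.adjoin ℚ (s : Set K) ↔ (f : k) ∈ R := fun f => by
    rw [hR, ← hs, ← AlgHom.map_adjoin, Subalgebra.mem_map]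
    exact ⟨fun h => ⟨f, h, rfl⟩, fun ⟨g, hg, h⟩ => Subtype.ext h ▸ hg⟩
  have hfr : Frac ℚ s := fun f => by
    obtain ⟨a, ha, b, hb, h⟩ := Subfield.mem_closure_iff.1 f.2
    have e1 : Subring.closure (R : Set k) = R.toSubring := Subring.closure_eq R.toSubring
    rw [e1] at ha hb
    by_cases b0 : b = 0
    · refine ⟨0, zero_mem _, 1, one_mem _, one_ne_zero, Subtype.ext ?_⟩
      simp [← h, b0]
    · exact ⟨⟨a, hK a ha⟩, (hm _).2 ha, ⟨b, hK b hb⟩, (hm _).2 hb,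
        fun h0 => b0 (congrArg Subtype.val h0), Subtype.ext h.symm⟩
  let e' : K := ⟨e, hK e he⟩
  let q' : Fin 18 → K := fun j => ⟨q j, hK _ (hq j)⟩
  have hI' : Ind e' q' := by
    refine AlgebraicIndependent.of_comp φ ?_
    have h : (φ ∘ fun o : Option (Fin 18) => o.elim e' q') = fun o => o.elim e q :=
      funext fun o => by cases o <;> rfl
    rw [h]
    exact hI
  obtain ⟨L, ι, _, _, _, ψ, δ, pl⟩ := hP ℚ K s hfr
  obtain ⟨τ, _, _, D, Δ, t, em, fr⟩ := hF K s e' q' hfr hI'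
  have fin := hC K L ι τ ⟨s, e', q', ψ, δ, D, Δ, t, em, hfr, (hm _).2 he, fun j => (hm _).2 (hq j),
    hI', pl, fr⟩
  refine (fin.image Subtype.val).subset ?_
  rintro b ⟨b0, bR, bi, x, xR, y, yR, y0, hxy, hY⟩
  have eY : (((pY e').eval ⟨b, hK b bR⟩ : K) : k) = (pY e).eval b := by
    rw [eval_pY, eval_pY]; rfl
  have eq : (((pq q').eval ⟨b, hK b bR⟩ : K) : k) = (pq q).eval b := by
    rw [eval_pq, eval_pq]
    push_cast
    rfl
  have ed : (((pd e' q').eval ⟨b, hK b bR⟩ : K) : k) = (pd e q).eval b := by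
    rw [eval_pd, eval_pd, ← eY, ← eq]; rfl
  refine ⟨⟨b, hK b bR⟩, ⟨fun h => b0 (congrArg Subtype.val h), (hm _).2 bR, (hm _).2 bi,
    ⟨x, hK x xR⟩, (hm _).2 xR, ⟨y, hK y yR⟩, (hm _).2 yR, fun h => y0 (congrArg Subtype.val h),
    Subtype.ext ?_, fun h => (hm _).2 ?_⟩, rfl⟩
  · rw [← ed] at hxy
    exact hxy
  · rw [← eY] at hY
    exact hY ((hm _).1 h)

end Pool.Agent.P.MP_84b56d_ag.PC
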