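import Pool.Agent.P.MP_84b56d_ag.PC.St

/-! Degrees of the polynomials and transcendence of their values. -/

open Polynomial

noncomputable section

namespace Pool.Agent.P.MP_84b56d_ag.PC

section deg

variable {K : Type} [Field K]

lemma deg_coeff_pq (q : Fin 18 → K) (i : Fin 18) : (pq q).coeff i = q i := by
  simp only [pq, finsetSum_coeff, coeff_C_mul, coeff_X_pow]
  rw [Finset.sum_eq_single i]
  · simp
  · intro j _ hj
    rw [if_neg (fun h => hj (Fin.ext h.symm)), mul_zero]
  · simp

lemma deg_pY {e : K} (he : e ≠ 0) : (pY e).natDegree = 2 := by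
  unfold pY
  compute_degree!

lemma deg_pq {q : Fin 18 → K} (hq : q 17 ≠ 0) : (pq q).natDegree = 17 := by
  refine natDegree_eq_of_le_of_coeff_ne_zero ?_ ?_
  · refine natDegree_sum_le_of_forall_le _ _ fun i _ => ?_
    exact (natDegree_C_mul_X_pow_le _ _).trans (by omega)
  · have := deg_coeff_pq q 17
    exact this ▸ hq

lemma deg_pY_ne (e : K) : pY e ≠ 0 := fun h => by
  have := eval_pY e 0
  rw [h] at this
  simp at this

lemma deg_comp_lifts {F : Subfield K} {p r : K[X]} (hp : p ∈ lifts F.subtype)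
    (hr : r ∈ lifts F.subtype) : p.comp r ∈ lifts F.subtype := by
  obtain ⟨p, rfl⟩ := (mem_lifts _).1 hp
  obtain ⟨r, rfl⟩ := (mem_lifts _).1 hr
  exact (mem_lifts _).2 ⟨p.comp r, map_comp _ _ _⟩

lemma deg_C_lifts {F : Subfield K} {a : K} (ha : a ∈ F) : C a ∈ lifts F.subtype :=
  C'_mem_lifts ⟨⟨a, ha⟩, rfl⟩

lemma deg_sub_lifts {F : Subfield K} {p r : K[X]} (hp : p ∈ lifts F.subtype)
    (hr : r ∈ lifts F.subtype) : p - r ∈ lifts F.subtype := by
  obtain ⟨p, rfl⟩ := (mem_lifts _).1 hp
  obtain ⟨r, rfl⟩ := (mem_lifts _).1 hr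
  exact (mem_lifts _).2 ⟨p - r, Polynomial.map_sub _⟩

lemma deg_div_lifts {F : Subfield K} {p r : K[X]} (hp : p ∈ lifts F.subtype)
    (hr : r ∈ lifts F.subtype) : p / r ∈ lifts F.subtype := by
  obtain ⟨p, rfl⟩ := (mem_lifts _).1 hp
  obtain ⟨r, rfl⟩ := (mem_lifts _).1 hr
  exact (mem_lifts _).2 ⟨p / r, Polynomial.map_div _⟩

/-- A polynomial with infinitely many values in `F` at points of `F` is defined over `F`. -/
lemma deg_lifts_of_infinite {F : Subfield K} {p : K[X]}
    (h : {b | b ∈ F ∧ p.eval b ∈ F}.Infinite) : p ∈ lifts F.subtype := by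
  classical
  obtain ⟨T, hT, hc⟩ := h.exists_subset_card_eq (p.natDegree + 1)
  have hd : p.degree < T.card := by
    rw [hc]
    exact (degree_le_natDegree).trans_lt (by exact_mod_cast Nat.lt_succ_self _)
  rw [Lagrange.eq_interpolate (v := id) (s := T) (Set.injOn_id _) hd, Lagrange.interpolate_apply]
  refine sum_mem fun i hi => mul_mem (deg_C_lifts (hT hi).2) ?_
  refine prod_mem fun j hj => mul_mem (deg_C_lifts ?_) ?_
  · exact inv_mem (sub_mem (hT hi).1 (hT (Finset.mem_of_mem_erase hj)).1)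
  · exact deg_sub_lifts (X_mem_lifts _) (deg_C_lifts (hT (Finset.mem_of_mem_erase hj)).1)

/-- A polynomial with all derivatives at a point of `F` in `F` is defined over `F`. -/
lemma deg_lifts_of_der [CharZero K] {F : Subfield K} {p : K[X]} {a : K} (ha : a ∈ F)
    (h : ∀ j, (derivative^[j] p).eval a ∈ F) : p ∈ lifts F.subtype := by
  have h1 : taylor a p ∈ lifts F.subtype := by
    refine (lifts_iff_coeff_lifts _).2 fun j => ⟨⟨_, ?_⟩, rfl⟩
    have h2 : (j.factorial : K) * (hasseDeriv j p).eval a = (derivative^[j] p).eval a := by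
      rw [← factorial_smul_hasseDeriv]
      simp
    have h3 : (j.factorial : K) ≠ 0 := by exact_mod_cast j.factorial_ne_zero
    show (taylor a p).coeff j ∈ F
    rw [taylor_coeff, (eq_div_iff h3).2 ((mul_comm _ _).trans h2)]
    exact div_mem (h j) (natCast_mem _ _)
  have h4 : p = (taylor a p).comp (X + C (-a)) := by
    rw [← taylor_apply, taylor_taylor]
    simp
  rw [h4]
  exact deg_comp_lifts h1 (add_mem (X_mem_lifts _) (deg_C_lifts (neg_mem ha)))

end deg

theorem pDeg : S_Deg := by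
  intro K _ _ e q h
  have te : Transcendental ℚ e := h.transcendental none
  have tq : ∀ j, Transcendental ℚ (q j) := fun j => h.transcendental (some j)
  have he : e ≠ 0 := fun h0 => te (h0 ▸ isAlgebraic_zero)
  have hq : q 17 ≠ 0 := fun h0 => tq 17 (h0 ▸ isAlgebraic_zero)
  have h1 := deg_pY he
  have h2 := deg_pq hq
  have q0 : pq q ≠ 0 := fun h0 => by simp [h0] at h2
  have h3 : (pY e ^ 2 * pq q).natDegree = 21 := by
    rw [natDegree_mul (pow_ne_zero _ (deg_pY_ne e)) q0, natDegree_pow, h1, h2]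
  have h4 : (2 + pY e ^ 2 * pq q).natDegree = 21 := by
    rw [natDegree_add_eq_right_of_natDegree_lt, h3]
    rw [h3]
    simp
  refine ⟨h1, h2, ?_, ?_, ?_, fun h0 => ?_, fun h0 => te (mem_acl_empty.1 h0)⟩
  · rw [pw, natDegree_add_eq_right_of_natDegree_lt, h3]
    rw [h3]
    simp
  · rw [pd, natDegree_mul q0 (fun h0 => by simp [h0] at h4), h2, h4]
  · have := deg_coeff_pq q 0
    rw [coeff_zero_eq_eval_zero, eval_pw, eval_pY, ← coeff_zero_eq_eval_zero]
    simpa using this
  · refine tq 0 (mem_acl_empty.1 ?_)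
    simpa using sub_mem h0 (one_mem _)

lemma deg_not_lifts (hC : S_Cnt) {K : Type} [Field K] [CharZero K] {e : K} {q : Fin 18 → K}
    {s : Finset K} (h : Ind e q) (he : e ∈ acl (s : Set K)) (hs : s.card ≤ 18) :
    pw e q ∉ lifts (acl (s : Set K)).subtype := fun hw => by
  have hY : pY e ∈ lifts (acl (s : Set K)).subtype :=
    add_mem (add_mem (one_mem _) (X_mem_lifts _))
      (mul_mem (deg_C_lifts he) (pow_mem (X_mem_lifts _) _))
  have hq : pq q ∈ lifts (acl (s : Set K)).subtype := by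
    have : pq q = (pw e q - 1) / pY e ^ 2 := by
      rw [pw, add_sub_cancel_left, mul_div_cancel_left₀ _ (pow_ne_zero _ (deg_pY_ne e))]
    rw [this]
    exact deg_div_lifts (deg_sub_lifts hw (one_mem _)) (pow_mem hY _)
  have := hC K (Option (Fin 18)) _ s h fun o => by
    rcases o with _ | i
    · exact he
    · obtain ⟨a, ha⟩ := (lifts_iff_coeff_lifts _).1 hq i
      rw [deg_coeff_pq] at ha
      show q i ∈ _
      exact (show (a : K) = q i from ha) ▸ a.2
  simp at this
  omega

theorem pTr (hC : S_Cnt) : S_Tr := by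
  intro K _ _ e q u s h hu hus he hs
  have h0 : acl (∅ : Set K) ≤ acl (s : Set K) := acl_mono (Set.empty_subset _)
  refine ⟨?_, fun a ha => ?_⟩
  · by_contra hi
    refine deg_not_lifts hC h he hs (deg_lifts_of_infinite ?_)
    refine (Set.Infinite.image (f := fun a => u * a) (mul_right_injective₀ hu).injOn hi).mono ?_
    rintro _ ⟨a, ha, rfl⟩
    exact ⟨mul_mem hus (h0 ha.1), ha.2⟩
  · by_contra hn
    push Not at hn
    refine deg_not_lifts hC h he hs ?_
    have h1 : pw e q = (wu e q u).comp (C u⁻¹ * X) := by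
      rw [wu, comp_assoc, mul_comp, C_comp, X_comp, ← mul_assoc, ← C_mul, mul_inv_cancel₀ hu,
        C_1, one_mul, comp_X]
    rw [h1]
    exact deg_comp_lifts (deg_lifts_of_der (h0 ha) hn)
      (mul_mem (deg_C_lifts (inv_mem hus)) (X_mem_lifts _))

end Pool.Agent.P.MP_84b56d_ag.PC
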