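import Pool.Agent.P.MP_84b56d_ag.PC.St

/-! Algebraic dependence: derivations, counting, independence, change of field. -/

open Polynomial

noncomputable section

namespace Pool.Agent.P.MP_84b56d_ag.PC

section dep

variable {K τ : Type} [Field K] [CharZero K]

/-- The span of the differentials of the `a i`. -/
def depN (a : τ → K) : Submodule (acl (Set.range a)) (Der K → K) :=
  Submodule.span _ (Set.range fun i (D : Der K) => D (a i))

lemma dep_mul {a : τ → K} {c : K} (hc : c ∈ acl (Set.range a)) {g : Der K → K} (hg : g ∈ depN a) :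
    (fun D => c * g D) ∈ depN a :=
  (depN a).smul_mem ⟨c, hc⟩ hg

lemma dep_acl {s : Set K} {f : K} (hf : f ∈ IntermediateField.adjoin ℚ s) : f ∈ acl s :=
  mem_acl.2 (isAlgebraic_algebraMap (⟨f, hf⟩ : IntermediateField.adjoin ℚ s))

lemma dep_adj {a : τ → K} {f : K} (hf : f ∈ IntermediateField.adjoin ℚ (Set.range a)) :
    (fun D : Der K => D f) ∈ depN a := by
  induction hf using IntermediateField.adjoin_induction with
  | mem x hx =>
    obtain ⟨i, rfl⟩ := hx
    exact Submodule.subset_span ⟨i, rfl⟩
  | algebraMap x =>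
    simp only [Derivation.map_algebraMap]
    exact zero_mem _
  | add x y _ _ hx hy =>
    simp only [map_add]
    exact add_mem hx hy
  | inv x h hx =>
    simp only [Derivation.leibniz_inv, smul_eq_mul]
    exact dep_mul (neg_mem (pow_mem (inv_mem (dep_acl h)) 2)) hx
  | mul x y h h' hx hy =>
    simp only [Derivation.leibniz, smul_eq_mul]
    exact add_mem (dep_mul (dep_acl h) hy) (dep_mul (dep_acl h') hx)

lemma dep_aeval {a : τ → K} {W : K} (hW : W ∈ acl (Set.range a))
    (p : (IntermediateField.adjoin ℚ (Set.range a))[X]) :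
    aeval W p ∈ acl (Set.range a) ∧
      (fun D : Der K => D (aeval W p) - aeval W (derivative p) * D W) ∈ depN a := by
  induction p using Polynomial.induction_on' with
  | add p q hp hq =>
    refine ⟨by rw [map_add]; exact add_mem hp.1 hq.1, ?_⟩
    convert add_mem hp.2 hq.2 using 1
    funext D
    simp only [map_add, Pi.add_apply]
    ring
  | monomial n c =>
    refine ⟨by rw [aeval_monomial]; exact mul_mem (dep_acl c.2) (pow_mem hW n), ?_⟩
    convert dep_mul (pow_mem hW n) (dep_adj c.2) using 1
    funext D
    simp only [derivative_monomial, aeval_monomial, Derivation.leibniz, Derivation.leibniz_pow,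
      smul_eq_mul, nsmul_eq_mul, map_mul, map_natCast, IntermediateField.algebraMap_apply]
    ring

end dep

theorem pDep : S_Dep := by
  intro K τ _ _ _ a W hW
  have hi := (mem_acl.1 hW).isIntegral
  have hs : (minpoly (IntermediateField.adjoin ℚ (Set.range a)) W).Separable :=
    (minpoly.irreducible hi).separable
  have h0 := hs.aeval_derivative_ne_zero (minpoly.aeval _ W)
  have h1 := dep_mul (neg_mem (inv_mem (dep_aeval hW (derivative (minpoly _ W))).1))
    (dep_aeval hW (minpoly _ W)).2
  obtain ⟨c, hc⟩ := (Submodule.mem_span_range_iff_exists_fun _).1 h1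
  refine ⟨fun i => c i, fun i => (c i).2, fun D => ?_⟩
  have := congrFun hc D
  rw [minpoly.aeval, map_zero, zero_sub, neg_mul_neg, inv_mul_cancel_left₀ h0,
    Finset.sum_apply] at this
  exact this.symm

theorem pCnt : S_Cnt := by
  intro K τ _ _ _ v s hv hs
  have h1 : (AlgebraicIndependent.matroid ℚ K).Indep (Set.range v) := hv.to_subtype_range
  have h2 : Set.range v ⊆ (AlgebraicIndependent.matroid ℚ K).closure s := by
    rintro _ ⟨i, rfl⟩
    rw [AlgebraicIndependent.matroid_closure_eq]
    exact IntermediateField.isAlgebraic_adjoin_iff.1 (mem_acl.1 (hs i))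
  have h3 := (h1.encard_le_eRk_of_subset h2).trans
    ((Matroid.eRk_closure_eq _ _).le.trans (Matroid.eRk_le_encard _ _))
  rw [Set.encard_coe_eq_coe_finsetCard, ← Set.image_univ, hv.injective.encard_image,
    Set.encard_univ, ENat.card_eq_coe_fintype_card] at h3
  exact_mod_cast h3

theorem pMap : S_Map := by
  intro K Ω _ _ _ _ φ s f
  have e : (IntermediateField.adjoin ℚ s).map φ.toRatAlgHom = IntermediateField.adjoin ℚ (φ '' s) :=
    IntermediateField.adjoin_map ℚ s φ.toRatAlgHom
  rw [mem_acl, mem_acl, ← e]
  exact isAlgebraic_ringHom_iff_of_comp_eq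
    ((IntermediateField.adjoin ℚ s).equivMap φ.toRatAlgHom) φ φ.injective (by ext x; rfl)

theorem pInd3 : S_Ind3 := by
  intro K _ _ a b h h1 h2 h3
  have k : ∀ {s : Set K} {f : K}, f ∉ acl s → Transcendental (Algebra.adjoin ℚ s) f :=
    fun hf e => hf (mem_acl.2 (IntermediateField.isAlgebraic_adjoin_iff.2 e))
  have e0 : AlgebraicIndepOn ℚ ![a, b, h] ∅ :=
    algebraicIndependent_empty_type_iff.2 (algebraMap ℚ K).injective
  have e1 := e0.insert (i := 0) (by rw [Set.image_empty]; exact k h1)
  have e2 := e1.insert (i := 1) (by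
    rw [Set.image_insert_eq, Set.image_empty, insert_empty_eq]; exact k h2)
  have e3 := e2.insert (i := 2) (by
    rw [Set.image_insert_eq, Set.image_insert_eq, Set.image_empty, insert_empty_eq, Set.pair_comm]
    exact k h3)
  refine AlgebraicIndepOn.univ.1 (e3.mono fun i _ => ?_)
  fin_cases i <;> simp

end Pool.Agent.P.MP_84b56d_ag.PC
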