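import Pool.Agent.P.MP_84b56d_ag.PC.St

/-! Orders of the forms `eta` and `Phi` at the places. -/

open Polynomial Ivrii.PX Ivrii.TA

namespace Pool.Agent.P.MP_84b56d_ag.PC

section

variable {L : Type} [Field L] [CharZero L] {x : LaurentSeries L}

omit [CharZero L] in
lemma eta_pole (h : x.order < 0) : Lead (x.order * 2) (x.coeff x.order ^ 2) (x ^ 2 - 1) := by
  have hx : x ≠ 0 := by rintro rfl; simp at h
  have h1 : Ge (x.order * 2 + 1) (1 : LaurentSeries L) := Lead.one.1.mono (by omega)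
  simpa using ((lead_order hx).2.pow 2).sub h1.lead0

lemma eta_near {m : ℤ} (hm : m ^ 2 = 1) (h : x ^ 2 ≠ 1) (h0 : Lead 0 (m : L) x) :
    ∃ n : ℤ, 1 ≤ n ∧ ∃ a, a ≠ 0 ∧ Ge n (x - (m : LaurentSeries L)) ∧ Lead n a (x ^ 2 - 1) := by
  have hm' : ((m : LaurentSeries L)) ^ 2 = 1 := by exact_mod_cast hm
  have hc : Lead 0 (m : L) (m : LaurentSeries L) := by simpa using Lead.const (m : L)
  have h1 : x - m ≠ 0 := fun e => h (by rw [sub_eq_zero.1 e, hm'])
  have h2 : Ge 1 (x - (m : LaurentSeries L)) := by simpa using ((h0.sub hc).cast rfl (sub_self _)).ge_succ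
  have h3 : (m : L) + m ≠ 0 := by
    have : m + m ≠ 0 := by rintro e; rw [show m = 0 by omega] at hm; simp at hm
    exact_mod_cast this
  refine ⟨_, le_order h2 h1, _, mul_ne_zero (lead_order h1).1 h3, ge_order _, ?_⟩
  have h4 := (lead_order h1).2.mul (h0.add hc)
  rwa [add_zero, show (x - m) * (x + m) = x ^ 2 - 1 by linear_combination -hm'] at h4

lemma eta_tri (h : x ^ 2 ≠ 1) (h0 : 0 ≤ x.order) : (∃ a, a ≠ 0 ∧ Lead 0 a (x ^ 2 - 1)) ∨
    ∃ m n : ℤ, 1 ≤ n ∧ ∃ a, a ≠ 0 ∧ Ge n (x - (m : LaurentSeries L)) ∧ Lead n a (x ^ 2 - 1) := by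
  have h1 := ((ge_order x).mono h0).lead
  by_cases hc : x.coeff 0 ^ 2 = 1
  · rcases sq_eq_one_iff.1 hc with e | e
    · exact Or.inr ⟨1, eta_near (by norm_num) h (h1.cast rfl (by simpa using e))⟩
    · exact Or.inr ⟨-1, eta_near (by norm_num) h (h1.cast rfl (by simpa using e))⟩
  · exact Or.inl ⟨_, sub_ne_zero.2 hc, by simpa using (h1.pow 2).sub Lead.one⟩

lemma eta_key (h : x ^ 2 ≠ 1) :
    ∃ m n n' : ℤ, ∃ a, a ≠ 0 ∧ Ge n (x - (m : LaurentSeries L)) ∧ Lead n' a (x ^ 2 - 1) ∧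
      n' ≤ 2 * n := by
  rcases lt_or_ge x.order 0 with h0 | h0
  · have hx : x ≠ 0 := by rintro rfl; simp at h0
    exact ⟨0, _, _, _, pow_ne_zero 2 (lead_order hx).1, by simpa using ge_order x, eta_pole h0,
      by omega⟩
  rcases eta_tri h h0 with ⟨a, ha, h1⟩ | ⟨m, n, hn, a, ha, h1, h2⟩
  · exact ⟨0, 0, 0, a, ha, by simpa using (ge_order x).mono h0, h1, le_rfl⟩
  · exact ⟨m, n, n, a, ha, h1, h2, by omega⟩

end

theorem pA : S_A := by
  intro L _ _ x h
  rcases lt_or_ge x.order 0 with h0 | h0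
  · have hx : x ≠ 0 := by rintro rfl; simp at h0
    have h1 := (lead_order hx).1
    refine (((lead_order hx).2.euler.pow 2).div (eta_pole h0) (pow_ne_zero 2 h1)).cast
      (by simp) ?_
    rw [min_eq_left h0.le]; field_simp
  rw [min_eq_right h0]
  rcases eta_tri h h0 with ⟨a, ha, h1⟩ | ⟨m, n, hn, a, ha, h1, h2⟩
  · exact ((((ge_order x).mono h0).lead.euler.pow 2).div h1 ha).cast (by simp) (by simp)
  · have h3 := ((h1.euler.lead.pow 2).div h2 ha).1.mono (n' := 0 + 1) (by push_cast; omega)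
    simpa using h3.lead0

lemma eta_sq {K L ι : Type} [Field K] [CharZero K] [Field L] [CharZero L]
    {ψ : ι → K →+* LaurentSeries L} {c : ℕ} {D : Der K} {d x y : K} (hD : Loss ψ c D) (hd : d ≠ 0)
    (hy : y ≠ 0) (h : x ^ 2 - d * y ^ 2 = 1) (i : ι) :
    Ge ((ψ i d).order - 2 * c) (ψ i (eta D d x y ^ 2)) := by
  have e1 : x ^ 2 - 1 = d * y ^ 2 := by linear_combination h
  have h1 : ψ i x ^ 2 ≠ 1 := fun e => by
    have : x ^ 2 = 1 := (ψ i).injective (by simpa using e)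
    rw [this, sub_self] at e1
    exact mul_ne_zero hd (pow_ne_zero 2 hy) e1.symm
  obtain ⟨m, n, n', a, ha, h2, h3, h4⟩ := eta_key h1
  have h5 := hD i (x - m) n (by simpa using h2)
  rw [map_sub, Derivation.map_intCast, sub_zero] at h5
  have e2 : eta D d x y ^ 2 = d * (D x ^ 2 / (x ^ 2 - 1)) := by
    rw [e1, ← mul_eta D h]; field_simp
  have h6 := (ge_order (ψ i d)).mul ((h5.lead.pow 2).div h3 ha).1
  rw [e2]
  simpa using h6.mono (n' := (ψ i d).order - 2 * c) (by push_cast; omega)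

theorem pEta : S_Eta := by
  intro K L ι _ _ _ _ _ ψ c D D' d x y w Y hD hD' hd hy hY h h' i
  refine ⟨eta_sq hD hd hy h i, ?_⟩
  have key : ∀ u v : K, Ge ((ψ i d).order - 2 * c) (ψ i (u ^ 2)) →
      Ge ((ψ i d).order - 2 * c) (ψ i (v ^ 2)) → Ge ((ψ i d).order - 2 * c) (ψ i (u * v)) :=
    fun u v hu hv => ge_of_sq (by simpa [two_mul, mul_pow] using hu.mul hv)
  refine ge_of_mul_left (f := ψ i d) ((_root_.map_ne_zero _).2 hd) ?_
  rw [← map_mul, mul_Phi, map_sub, ← sub_eq_add_neg]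
  exact (key _ _ (eta_sq hD hd hy h i) (eta_sq hD' hd hY h' i)).sub
    (key _ _ (eta_sq hD' hd hy h i) (eta_sq hD hd hY h' i))

end Pool.Agent.P.MP_84b56d_ag.PC
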