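import Pool.Agent.P.MP_84b56d_ag.PC.St

/-! The logarithmic forms of all solutions span a finite dimensional space. -/

open Polynomial Ivrii.PX Ivrii.TA

noncomputable section

namespace Pool.Agent.P.MP_84b56d_ag.PC

section

variable {Ω : Type} [Field Ω] [CharZero Ω]

lemma fd_log (E : Der Ω) {d x y r : Ω} (h : x ^ 2 - d * y ^ 2 = 1) (hr : r ^ 2 = d) :
    r * (E (x + y * r) / (x + y * r)) = eta E d x y := by
  have h1 : (x + y * r) * (x - y * r) = 1 := by linear_combination h - y ^ 2 * hr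
  have h2 : 2 * r * E r = E d := by
    have := congrArg E hr
    simp only [Derivation.leibniz_pow, smul_eq_mul, nsmul_eq_mul] at this
    push_cast at this
    linear_combination this
  rw [div_eq_mul_inv, ← eq_inv_of_mul_eq_one_right h1]
  simp only [map_add, Derivation.leibniz, smul_eq_mul, eta]
  linear_combination (r / 2) * der_pell E h + (y * (x - y * r) / 2) * h2 +
    (x * E y - y * E x - y * r * E y) * hr

lemma fd_dl (E E' : Der Ω) {d x y w Y r : Ω} (hd : d ≠ 0) (h : x ^ 2 - d * y ^ 2 = 1)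
    (h' : w ^ 2 - d * Y ^ 2 = 1) (hr : r ^ 2 = d) :
    dl (x + y * r) (w + Y * r) E E' = Phi E E' d x y w Y := by
  refine mul_left_cancel₀ hd ?_
  rw [mul_Phi, ← fd_log E h hr, ← fd_log E' h hr, ← fd_log E h' hr, ← fd_log E' h' hr, dl, ← hr]
  ring

lemma fd_map {K : Type} [Field K] [CharZero K] (φ : K →+* Ω) {D D' : Der K} {E E' : Der Ω}
    (h : ∀ f, E (φ f) = φ (D f)) (h' : ∀ f, E' (φ f) = φ (D' f)) (d x y w Y : K) :
    Phi E E' (φ d) (φ x) (φ y) (φ w) (φ Y) = φ (Phi D D' d x y w Y) := by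
  simp only [Phi, h, h', map_add, map_sub, map_mul, map_div₀, map_ofNat]

lemma fd_bil {τ : Type} [Fintype τ] {Δ : Ω} (hΔ : Δ ≠ 0) {t : τ → Ω} {D : τ → Der Ω}
    (h : ∀ (E : Der Ω) (f : Ω), Δ * E f = ∑ i, E (t i) * D i f) (f g : Ω) (E E' : Der Ω) :
    dl f g E E' = ∑ i, ∑ j, Δ⁻¹ ^ 2 * (E (t i) * E' (t j)) * dl f g (D i) (D j) := by
  have e : ∀ (E : Der Ω) (f : Ω), E f / f = ∑ i, Δ⁻¹ * E (t i) * (D i f / f) := fun E f => by
    have : E f = Δ⁻¹ * ∑ i, E (t i) * D i f := by rw [← h]; field_simp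
    rw [this, Finset.mul_sum, Finset.sum_div]
    exact Finset.sum_congr rfl fun i _ => by ring
  rw [dl, e E f, e E' g, e E' f, e E g, mul_comm (∑ i, Δ⁻¹ * E' (t i) * (D i f / f)),
    Finset.sum_mul_sum, Finset.sum_mul_sum, ← Finset.sum_sub_distrib]
  refine Finset.sum_congr rfl fun i _ => ?_
  rw [← Finset.sum_sub_distrib]
  exact Finset.sum_congr rfl fun j _ => by rw [dl]; ring

end

theorem pFD (hU : S_Uniq) (hL : S_Lift) (hM : S_Map) (hE : S_Eta) (hK : S_Kill) : S_FD := by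
  intro K L ι τ _ _ _ _ _ _ _ c Ω _ _ _ _
  obtain ⟨⟨C, hC, -⟩, -⟩ := hK K L ι τ c
  choose D hD using fun i => hL K Ω (c.D i)
  set φ := algebraMap K Ω with hφ
  have hΔ : φ c.Δ ≠ 0 := (map_ne_zero φ).2 c.fr.ne
  have hsp : ∀ (E : Der Ω) (f : Ω), φ c.Δ * E f = ∑ i, E (φ (c.t i)) * D i f := fun E f => by
    refine sub_eq_zero.1 (hU Ω Ω (RingHom.id Ω)
      { toFun := fun f => φ c.Δ * E f - ∑ i, E (φ (c.t i)) * D i f
        map_zero' := by simp
        map_add' := fun f g => by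
          simp only [map_add, mul_add, Finset.sum_add_distrib]; ring }
      (φ '' Set.range c.t) (fun f g => ?_) ?_ f ?_)
    · simp only [AddMonoidHom.coe_mk, ZeroHom.coe_mk, Derivation.leibniz, smul_eq_mul,
        RingHom.id_apply, mul_sub, Finset.mul_sum, mul_add, Finset.sum_add_distrib]
      have e1 : ∀ f g : Ω, ∑ i, E (φ (c.t i)) * (f * D i g) = ∑ i, f * (E (φ (c.t i)) * D i g) :=
        fun f g => Finset.sum_congr rfl fun i _ => by ring
      rw [e1, e1]; ring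
    · rintro _ ⟨_, ⟨j, rfl⟩, rfl⟩
      simp only [AddMonoidHom.coe_mk, ZeroHom.coe_mk, hD, c.fr.dual, apply_ite φ, map_zero, mul_ite,
        mul_zero, Finset.sum_ite_eq', Finset.mem_univ, if_true]
      ring
    · exact mem_acl_of_subring φ.injective (fun a => (hM K Ω φ _ a).2 (c.fr.alg a))
        (Algebra.IsAlgebraic.isAlgebraic f)
  obtain ⟨W, hW, hW'⟩ := c.pl.fd (-(2 * C))
  obtain ⟨S, hS⟩ := (Module.Finite.iff_fg (N := W)).1 hW
  let v : τ × τ → K → Der Ω → Der Ω → Ω := fun p f E E' =>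
    (φ c.Δ)⁻¹ ^ 2 * (E (φ (c.t p.1)) * E' (φ (c.t p.2))) * φ f
  let V : Submodule (acl (∅ : Set Ω)) (Der Ω → Der Ω → Ω) :=
    Submodule.span _ (Set.image2 v Set.univ (S : Set K))
  have : FiniteDimensional (acl (∅ : Set Ω)) V :=
    FiniteDimensional.span_of_finite _ (Set.finite_univ.image2 v S.finite_toSet)
  have hv : ∀ p, ∀ f ∈ W, v p f ∈ V := fun p f hf => by
    rw [← hS] at hf
    induction hf using Submodule.span_induction with
    | mem f hf => exact Submodule.subset_span ⟨p, trivial, f, hf, rfl⟩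
    | zero => convert V.zero_mem using 1; funext E E'; simp [v]
    | add f g _ _ h1 h2 => convert V.add_mem h1 h2 using 1; funext E E'; simp [v, mul_add]
    | smul a f _ h1 =>
      convert V.smul_mem ⟨(a : Ω), SubfieldClass.ratCast_mem _ a⟩ h1 using 1
      funext E E'
      simp only [v, Rat.smul_def, map_mul, map_ratCast, Pi.smul_apply, Subfield.smul_def,
        smul_eq_mul]
      ring
  refine Submodule.finiteDimensional_of_le (S₂ := V) (Submodule.span_le.2 ?_)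
  rintro _ ⟨⟨ε, P⟩, ⟨b, x, y, r, hb, hg, hs, hr, h1, h2⟩, rfl⟩
  dsimp only at h1 h2 ⊢
  have hx : φ x ^ 2 - φ (c.d b) * φ y ^ 2 = 1 := by simpa using congrArg φ hs.2.2.2
  have hw : φ (c.w b) ^ 2 - φ (c.d b) * φ (c.Y b) ^ 2 = 1 := by simpa using congrArg φ (c.pell b)
  have e : dl ε P = ∑ i, ∑ j, v (i, j) (Phi (c.D i) (c.D j) (c.d b) x y (c.w b) (c.Y b)) := by
    funext E E'
    rw [fd_bil hΔ hsp]
    simp only [Finset.sum_apply, v]
    refine Finset.sum_congr rfl fun i _ => Finset.sum_congr rfl fun j _ => ?_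
    rw [h1, h2, fd_dl _ _ ((map_ne_zero φ).2 hg.2) hx hw hr, fd_map φ (hD i) (hD j)]
  rw [e]
  refine sum_mem fun i _ => sum_mem fun j _ => hv _ _ (hW' _ (c.int ?_) fun l => ?_)
  · exact Phi_mem (hC i).1 (hC j).1 (c.d_mem hb) hs.1 hs.2.1 (c.w_mem hb) (c.Y_mem hb)
  · exact (hE K L ι c.ψ C _ _ _ x y _ _ (hC i).2 (hC j).2 hg.2 hs.2.2.1 hg.1 hs.2.2.2 (c.pell b) l).2

end Pool.Agent.P.MP_84b56d_ag.PC
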