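import Pool.Agent.P.MP_84b56d_ag.PC.St

/-! Descent along the powers of the known solution. -/

open Polynomial Ivrii.PX Ivrii.TA

noncomputable section

namespace Pool.Agent.P.MP_84b56d_ag.PC

variable {K L : Type} [Field K] [CharZero K] [Field L] [CharZero L]

lemma fin_sq (D : Der K) {d x y : K} (hd : d ≠ 0) (hy : y ≠ 0) (h : x ^ 2 - d * y ^ 2 = 1) :
    D x ^ 2 / (x ^ 2 - 1) = eta D d x y ^ 2 / d := by
  rw [← mul_eta D h, show x ^ 2 - 1 = d * y ^ 2 by linear_combination h]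
  field_simp

omit [CharZero K] [CharZero L] in
lemma fin_ne {d x y : K} (ψ : K →+* LaurentSeries L) (hd : d ≠ 0) (hy : y ≠ 0)
    (h : x ^ 2 - d * y ^ 2 = 1) : ψ x ^ 2 ≠ 1 := fun e => by
  have h1 : x ^ 2 = 1 := ψ.injective (by rw [map_pow, e, map_one])
  exact mul_ne_zero hd (pow_ne_zero 2 hy) (by linear_combination h1 - h)

/-- Comparison of the pole orders of two solutions with proportional forms. -/
lemma fin_key (hA : S_A) (ψ : K →+* LaurentSeries L) (δ : Der K)
    (hδ : ∀ f, euler L L (ψ f) = ψ (δ f)) {d x y w Y φ : K} {c : L} (hd : d ≠ 0) (hy : y ≠ 0)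
    (hY : Y ≠ 0) (h1 : x ^ 2 - d * y ^ 2 = 1) (h2 : w ^ 2 - d * Y ^ 2 = 1)
    (h : eta δ d x y = φ * eta δ d w Y) (hc : ψ φ = algebraMap L (LaurentSeries L) c) :
    ((min (ψ x).order 0 : ℤ) : L) ^ 2 = c ^ 2 * ((min (ψ w).order 0 : ℤ) : L) ^ 2 := by
  have e : δ x ^ 2 / (x ^ 2 - 1) = φ ^ 2 * (δ w ^ 2 / (w ^ 2 - 1)) := by
    rw [fin_sq δ hd hy h1, fin_sq δ hd hY h2, h]; ring
  have e' := congrArg ψ e
  simp only [map_mul, map_div₀, map_pow, map_sub, map_one, ← hδ, hc] at e'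
  have l1 := hA L (ψ x) (fin_ne ψ hd hy h1)
  have l2 := ((Lead.const c).pow 2).mul (hA L (ψ w) (fin_ne ψ hd hY h2))
  rw [← e'] at l2
  exact l1.eq (l2.cast (by simp) rfl)

lemma fin_ord {d x y : K} (ψ : K →+* LaurentSeries L) (hd : d ≠ 0) (hy : y ≠ 0)
    (h : x ^ 2 - d * y ^ 2 = 1) :
    2 * min (ψ x).order 0 ≤ (ψ d).order + 2 * (ψ y).order := by
  have h0 : ψ d ≠ 0 := (map_ne_zero ψ).2 hd
  have h1 : ψ y ^ 2 ≠ 0 := pow_ne_zero 2 ((map_ne_zero ψ).2 hy)
  have e : ψ x * ψ x - 1 = ψ d * ψ y ^ 2 := by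
    have := congrArg ψ h
    simp only [map_sub, map_mul, map_pow, map_one] at this
    linear_combination this
  have g : Ge (2 * min (ψ x).order 0) (ψ x * ψ x - 1) :=
    (((ge_order _).mul (ge_order _)).mono (by omega)).sub
      ((Lead.one (k := L)).1.mono (by omega))
  rw [e] at g
  have := le_order g (mul_ne_zero h0 h1)
  rw [order_mul' h0 h1, order_pow'] at this
  exact_mod_cast this

/-- The form is additive under the group law. -/
lemma fin_step (D : Der K) {d x y w Y : K} (ε : ℤ) (hε : (ε : K) ^ 2 = 1)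
    (h1 : x ^ 2 - d * y ^ 2 = 1) (h2 : w ^ 2 - d * Y ^ 2 = 1) (h0 : y * w - ε * x * Y ≠ 0) :
    eta D d (x * w - ε * d * y * Y) (y * w - ε * x * Y) = eta D d x y - ε * eta D d w Y := by
  have h3 : (x * w - ε * d * y * Y) ^ 2 - d * (y * w - ε * x * Y) ^ 2 = 1 := by
    linear_combination (w ^ 2 - d * Y ^ 2) * h1 + h2 - d * Y ^ 2 * (x ^ 2 - d * y ^ 2) * hε
  refine mul_left_cancel₀ h0 ?_
  rw [mul_eta D h3]
  have e1 := mul_eta D h1
  have e2 := mul_eta D h2
  have e3 := mul_eta' D h1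
  have e4 := mul_eta' D h2
  simp only [map_sub, Derivation.leibniz, smul_eq_mul, Derivation.map_intCast]
  linear_combination -w * e1 - x * e2 + (ε * Y / 2) * e3 + (ε * y / 2) * e4 -
    x * Y * eta D d w Y * hε

theorem pFin (hA : S_A) : S_Fin := by
  intro k0 K L ι _ _ _ _ _ _ _ s ψ δ R d x y w Y φ pl hR hd hx hy hw hY d0 y0 Y0 h1 h2 h hφ
    ⟨i₀, hi⟩ hH
  obtain ⟨a, ha, ea⟩ : ∃ a : ℤ, 0 < a ∧ min (ψ i₀ w).order 0 = -a :=
    ⟨-(ψ i₀ w).order, by omega, by omega⟩
  have aK : (a : K) ≠ 0 := by exact_mod_cast ha.ne'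
  have aL : (a : L) ≠ 0 := by exact_mod_cast ha.ne'
  have hq : ∀ (i : ι) (k : ℤ), ψ i ((k : K) / a) = algebraMap L (LaurentSeries L) ((k : L) / a) :=
    fun i k => by simp only [map_div₀, map_intCast]
  obtain ⟨k, hk⟩ : ∃ k : ℤ, φ = (k : K) / a := by
    have hc : ψ i₀ φ = algebraMap L (LaurentSeries L) ((ψ i₀ φ).coeff 0) :=
      eq_C_of_euler (k := L) (by rw [pl.eul, hφ, map_zero])
    have e := fin_key hA (ψ i₀) δ (pl.eul i₀) d0 y0 Y0 h1 h2 h hc
    rw [ea] at e
    generalize (ψ i₀ φ).coeff 0 = c at hc e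
    generalize min (ψ i₀ x).order 0 = m at e
    have e' : (m : L) ^ 2 = (c * a) ^ 2 := by rw [e]; push_cast; ring
    rcases sq_eq_sq_iff_eq_or_eq_neg.1 e' with e1 | e1
    · exact ⟨m, (ψ i₀).injective (by rw [hq, hc, e1, mul_div_cancel_right₀ _ aL])⟩
    · exact ⟨-m, (ψ i₀).injective (by
        rw [hq, hc, Int.cast_neg, e1, neg_neg, mul_div_cancel_right₀ _ aL])⟩
  subst hk
  clear hφ
  induction hn : k.natAbs using Nat.strong_induction_on generalizing k x y with
  | _ n ih =>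
    by_cases hs : 2 * |k| ≤ a
    · exfalso
      have hy' := pl.deg y (isIntegral_algebraMap
        (x := (⟨y, hR y hy⟩ : Algebra.adjoin k0 (s : Set K)))) y0
      have hle : ∀ i, -max 0 (-(ψ i w).order) ≤ (ψ i d).order + 2 * (ψ i y).order := fun i => by
        have e := fin_key hA (ψ i) δ (pl.eul i) d0 y0 Y0 h1 h2 h (hq i k)
        have e0 := fin_ord (ψ i) d0 y0 h1
        obtain ⟨u, hu, eu⟩ : ∃ u : ℤ, 0 ≤ u ∧ min (ψ i x).order 0 = -u :=
          ⟨-min (ψ i x).order 0, by omega, by omega⟩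
        obtain ⟨v, hv, ev⟩ : ∃ v : ℤ, 0 ≤ v ∧ min (ψ i w).order 0 = -v :=
          ⟨-min (ψ i w).order 0, by omega, by omega⟩
        rw [eu, ev] at e
        have e1 : (a * u) ^ 2 = (|k| * v) ^ 2 := by
          rw [mul_pow |k|, sq_abs]
          have : ((a : L) * u) ^ 2 = (k : L) ^ 2 * (v : L) ^ 2 := by
            push_cast at e
            field_simp at e
            linear_combination e
          exact_mod_cast this
        have e2 : a * u = |k| * v :=
          (pow_left_inj₀ (by positivity) (by positivity) two_ne_zero).1 e1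
        have e3 : 2 * u ≤ v := by
          refine le_of_mul_le_mul_left ?_ ha
          nlinarith
        omega
      have hsum := Finset.sum_le_sum fun i (_ : i ∈ Finset.univ) => hle i
      rw [Finset.sum_neg_distrib, Finset.sum_add_distrib, ← Finset.mul_sum] at hsum
      unfold hgt at hH
      omega
    · obtain ⟨ε, hε, hlt⟩ : ∃ ε : ℤ, ε ^ 2 = 1 ∧ (k - ε * a).natAbs < n := by
        rcases abs_cases k with e | e
        · exact ⟨1, by norm_num, by omega⟩
        · exact ⟨-1, by norm_num, by omega⟩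
      have hεK : (ε : K) ^ 2 = 1 := by exact_mod_cast hε
      have hε' : (ε : K) ∈ R := intCast_mem R ε
      have hx' : x * w - ε * d * y * Y ∈ R :=
        sub_mem (mul_mem hx hw) (mul_mem (mul_mem (mul_mem hε' hd) hy) hY)
      have hy' : y * w - ε * x * Y ∈ R := sub_mem (mul_mem hy hw) (mul_mem (mul_mem hε' hx) hY)
      have e : y / Y = (y * w - ε * x * Y) / Y * w + ε * (x * w - ε * d * y * Y) := by
        field_simp
        linear_combination -y * h2 + d * y * Y ^ 2 * hεK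
      rw [e]
      refine add_mem (mul_mem ?_ hw) (mul_mem hε' hx')
      by_cases h0 : y * w - ε * x * Y = 0
      · rw [h0, zero_div]; exact zero_mem R
      refine ih _ hlt _ _ hx' hy' h0 ?_ (k - ε * a) ?_ rfl
      · linear_combination (w ^ 2 - d * Y ^ 2) * h1 + h2 - d * Y ^ 2 * (x ^ 2 - d * y ^ 2) * hεK
      · rw [fin_step δ ε hεK h1 h2 h0, h]
        push_cast
        field_simp

end Pool.Agent.P.MP_84b56d_ag.PC
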