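import Pool.Agent.P.MP_84b56d_ag.PC.St

/-! A basis of the derivations that preserves a finitely generated algebra. -/

noncomputable section

namespace Pool.Agent.P.MP_84b56d_ag.PC

variable {K : Type} [Field K] [CharZero K]

/-- The field is algebraic over every subalgebra that contains `s`. -/
lemma frame_alg {s : Finset K} (h : Frac ℚ s) {T : Set K} (hT : (s : Set K) ⊆ T) :
    Algebra.IsAlgebraic (Algebra.adjoin ℚ T) K := ⟨fun f => by
  obtain ⟨a, ha, b, hb, h0, rfl⟩ := h f
  have ha' : a ∈ Algebra.adjoin ℚ T := Algebra.adjoin_mono hT ha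
  have hb' : b ∈ Algebra.adjoin ℚ T := Algebra.adjoin_mono hT hb
  rw [div_eq_mul_inv]
  exact (isAlgebraic_algebraMap (⟨a, ha'⟩ : Algebra.adjoin ℚ T)).mul
    (isAlgebraic_algebraMap (⟨b, hb'⟩ : Algebra.adjoin ℚ T)).inv⟩

/-- A common denominator. -/
lemma frame_den {s : Finset K} (h : Frac ℚ s) {σ : Type} [Fintype σ] (g : σ → K) :
    ∃ Δ ∈ Algebra.adjoin ℚ (s : Set K), Δ ≠ 0 ∧ ∀ i, Δ * g i ∈ Algebra.adjoin ℚ (s : Set K) := by
  classical
  choose a ha b hb h0 he using h
  refine ⟨∏ i, b (g i), prod_mem fun i _ => hb _, Finset.prod_ne_zero_iff.2 fun i _ => h0 _,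
    fun i => ?_⟩
  have e : (∏ j, b (g j)) * g i = (∏ j ∈ Finset.univ.erase i, b (g j)) * a (g i) := by
    rw [← Finset.prod_erase_mul _ _ (Finset.mem_univ i), mul_assoc]
    congr 1
    have := h0 (g i)
    conv_lhs => rw [he (g i)]
    rw [← he (g i)]
    exact (eq_div_iff this).1 (he (g i)) ▸ mul_comm _ _
  rw [e]
  exact mul_mem (prod_mem fun j _ => hb _) (ha _)

/-- A derivation that maps the generators into the algebra preserves it. -/
lemma frame_mem {s : Set K} (D : Der K) (h : ∀ x ∈ s, D x ∈ Algebra.adjoin ℚ s) :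
    ∀ f ∈ Algebra.adjoin ℚ s, D f ∈ Algebra.adjoin ℚ s := fun f hf => by
  induction hf using Algebra.adjoin_induction with
  | mem x hx => exact h x hx
  | algebraMap r => rw [D.map_algebraMap]; exact zero_mem _
  | add x y _ _ hx hy => rw [map_add]; exact add_mem hx hy
  | mul x y hx' hy' hx hy =>
    rw [D.leibniz, smul_eq_mul, smul_eq_mul]
    exact add_mem (mul_mem hx' hy) (mul_mem hy' hx)

theorem pFrame (hE : S_Ext) (hU : S_Uniq) : S_Frame := by
  classical
  intro K _ _ s e q hs hi
  let v : Option (Fin 18) → K := fun o => o.elim e q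
  have hv : AlgebraicIndependent ℚ v := hi
  have := frame_alg hs (T := Set.range v ∪ (s : Set K)) Set.subset_union_right
  obtain ⟨u, hu1, hu2, hu⟩ := exists_isTranscendenceBasis_between (R := ℚ) (Set.range v)
    (Set.range v ∪ (s : Set K)) Set.subset_union_left hv.to_subtype_range
  have hfin : u.Finite := ((Set.finite_range v).union s.finite_toSet).subset hu2
  have : Fintype u := hfin.fintype
  have hD : ∀ i : u, ∃ D : Der K, ∀ j : u, D j = if i = j then 1 else 0 := fun i => by
    obtain ⟨D, -, hD⟩ := hE ℚ K u (fun j => (j : K)) (fun j => if i = j then 1 else 0) hu.1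
    exact ⟨D, hD⟩
  choose D' hD' using hD
  obtain ⟨Δ, hΔ, h0, hm⟩ := frame_den hs (fun x : u × s => D' x.1 x.2)
  have halg : ∀ f : K, f ∈ acl (Set.range fun j : u => (j : K)) := fun f =>
    mem_acl.2 (hu.isAlgebraic_field.1 f)
  have hdual : ∀ i j : u, (Δ • D' i) (j : K) = if i = j then Δ else 0 := fun i j => by
    rw [Derivation.smul_apply, hD', smul_eq_mul]
    split_ifs <;> simp
  refine ⟨u, inferInstance, inferInstance, fun i => Δ • D' i, Δ, fun j => (j : K),
    fun o => ⟨v o, hu1 ⟨o, rfl⟩⟩, fun i => frame_mem _ fun x hx => hm (i, ⟨x, hx⟩), hΔ, h0, hdual,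
    halg, fun o o' h => hv.injective (congrArg Subtype.val h), rfl, fun j => rfl, fun E f => ?_⟩
  let Θ : K →+ K :=
    { toFun := fun f => Δ * E f - ∑ i : u, E (i : K) * (Δ • D' i) f
      map_zero' := by simp
      map_add' := fun f g => by
        simp only [map_add, mul_add, Finset.sum_add_distrib]
        ring }
  refine sub_eq_zero.1 (hU K K (RingHom.id K) Θ (Set.range fun j : u => (j : K))
    (fun f g => ?_) ?_ f (halg f))
  · change Δ * E (f * g) - ∑ i : u, E (i : K) * (Δ • D' i) (f * g) =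
      f * (Δ * E g - ∑ i : u, E (i : K) * (Δ • D' i) g) +
        g * (Δ * E f - ∑ i : u, E (i : K) * (Δ • D' i) f)
    simp only [Derivation.leibniz, smul_eq_mul, mul_add, Finset.sum_add_distrib, mul_sub,
      Finset.mul_sum, mul_left_comm]
    ring
  · rintro _ ⟨j, rfl⟩
    change Δ * E (j : K) - ∑ i : u, E (i : K) * (Δ • D' i) (j : K) = 0
    simp only [hdual, mul_ite, mul_zero, Finset.sum_ite_eq', Finset.mem_univ, if_true]
    ring

end Pool.Agent.P.MP_84b56d_ag.PC
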