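import Pool.Agent.P.MP_84b56d_ag.PC.St

/-! Derivations that kill a unit. -/

open Polynomial Ivrii.PX Ivrii.TA

noncomputable section

namespace Pool.Agent.P.MP_84b56d_ag.PC

variable {K L ι τ : Type} [Field K] [CharZero K] [Field L] [CharZero L] [Fintype ι] [Fintype τ]
  [DecidableEq τ] {c : Ctx K L ι τ} {C C' : ℕ}

lemma kill_bdd {f : K} (h : c.Bdd C f) (hC : C ≤ C') : c.Bdd C' f :=
  ⟨h.1, fun i => (h.2 i).mono (by omega)⟩

lemma kill_good {E : Der K} (h : c.Good C E) (hC : C ≤ C') : c.Good C' E :=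
  ⟨h.1, fun i f n hf => (h.2 i f n hf).mono (by omega)⟩

lemma kill_apply (i j : Fin 18) (l l' f : K) :
    c.E i j l l' f = l * c.D (c.em (some i)) f - l' * c.D (c.em (some j)) f := by
  simp [Ctx.E]

lemma kill_log {E : Der K} (h : c.Good C E) {u : K} (hu : c.Unit u) : c.Bdd C (E u / u) := by
  refine ⟨by rw [div_eq_mul_inv]; exact mul_mem (h.1 u hu.2.1) hu.2.2, fun i => ?_⟩
  obtain ⟨h1, h2⟩ := lead_order ((map_ne_zero (c.ψ i)).2 hu.1)
  rw [div_eq_mul_inv, map_mul, map_inv₀]
  exact ((h.2 i u _ h2.1).mul (h2.inv h1).1).mono (by omega)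

lemma kill_comb (hD : ∀ i, c.Good C (c.D i)) (i j : Fin 18) {l l' : K} (hl : c.Bdd C l)
    (hl' : c.Bdd C l') : c.Good (2 * C) (c.E i j l l') := by
  refine ⟨fun f hf => ?_, fun k f n hf => ?_⟩
  · rw [kill_apply]
    exact sub_mem (mul_mem hl.1 ((hD _).1 f hf)) (mul_mem hl'.1 ((hD _).1 f hf))
  · rw [kill_apply, map_sub, map_mul, map_mul]
    exact (((hl.2 k).mul ((hD _).2 k f n hf)).sub ((hl'.2 k).mul ((hD _).2 k f n hf))).mono
      (by push_cast; omega)

lemma kill_e (i : Fin 18) : c.D (c.em (some i)) c.e = 0 := by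
  rw [← c.fr.te, c.fr.dual, if_neg fun h => by simpa using c.fr.inj h]

lemma kill_q (i k : Fin 18) : c.D (c.em (some i)) (c.q k) = if i = k then c.Δ else 0 := by
  rw [← c.fr.tq, c.fr.dual]
  simp [c.fr.inj.eq_iff]

theorem pKill (hB : S_Bd) : S_Kill := by
  intro K L ι τ _ _ _ _ _ _ _ c
  refine ⟨?_, fun i j l l' b hb => ?_⟩
  · choose a ha using fun i => c.pl.der (c.D i) fun q => Derivation.map_algebraMap _ q
    obtain ⟨C₁, h₁⟩ := (hB K L ι τ c).1 _ c.fr.hΔ
    obtain ⟨C₂, h₂⟩ := (hB K L ι τ c).1 _ c.he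
    have hD : ∀ i, c.Good (Finset.univ.sup a) (c.D i) := fun i =>
      kill_good ⟨c.fr.mem i, ha i⟩ (Finset.le_sup (Finset.mem_univ i))
    set C := Finset.univ.sup a
    refine ⟨2 * C + C₁ + C₂, fun i => kill_good (hD i) (by omega), kill_bdd h₁ (by omega),
      kill_bdd h₂ (by omega), fun i u hu => kill_bdd (kill_log (hD i) hu) (by omega),
      fun u i j hu => ?_⟩
    by_cases h : c.D (c.em (some j)) u / u ≠ 0 ∨ c.D (c.em (some i)) u / u ≠ 0
    · refine ⟨_, _, kill_bdd (kill_log (hD _) hu) (by omega),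
        kill_bdd (kill_log (hD _) hu) (by omega), h,
        kill_good (kill_comb hD i j (kill_log (hD _) hu) (kill_log (hD _) hu)) (by omega), ?_⟩
      rw [kill_apply]; ring
    · have h1 : c.Bdd C 1 := ⟨one_mem _, fun k => by
        rw [map_one]; exact Lead.one.1.mono (by omega)⟩
      have h0 : c.Bdd C 0 := ⟨zero_mem _, fun k => by rw [map_zero]; exact Ge.zero _⟩
      refine ⟨1, 0, kill_bdd h1 (by omega), kill_bdd h0 (by omega), Or.inl one_ne_zero,
        kill_good (kill_comb hD i j h1 h0) (by omega), ?_⟩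
      have := not_not.1 (not_or.1 h).2
      rw [kill_apply, (div_eq_zero_iff.1 this).resolve_right hu.1]; ring
  · have he : c.E i j l l' c.e = 0 := by rw [kill_apply, kill_e, kill_e]; ring
    have hY : c.E i j l l' (c.Y b) = 0 := by
      rw [Ctx.Y, eval_pY]
      simp [Derivation.leibniz_pow, hb, he]
    have hQ : c.E i j l l' (c.Q b) = c.Δ * (l * b ^ (i : ℕ) - l' * b ^ (j : ℕ)) := by
      rw [Ctx.Q, eval_pq, map_sum]
      have : ∀ k : Fin 18, c.E i j l l' (c.q k * b ^ (k : ℕ)) =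
          (if i = k then l * c.Δ * b ^ (k : ℕ) else 0) -
            if j = k then l' * c.Δ * b ^ (k : ℕ) else 0 := fun k => by
        rw [Derivation.leibniz, Derivation.leibniz_pow, hb, kill_apply, kill_q, kill_q]
        split_ifs <;> simp <;> ring
      simp only [this, Finset.sum_sub_distrib, Finset.sum_ite_eq, Finset.mem_univ, if_true]
      ring
    have h2 : c.E i j l l' 2 = 0 := by simpa using (c.E i j l l').map_natCast 2
    have hw : c.E i j l l' (c.w b) = c.Y b ^ 2 * c.E i j l l' (c.Q b) := by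
      rw [c.w_eq]
      simp [Derivation.leibniz_pow, hY]
    have hd : c.E i j l l' (c.d b) = 2 * c.w b * c.E i j l l' (c.Q b) := by
      rw [c.d_eq, c.w_eq]
      simp only [Derivation.leibniz, Derivation.leibniz_pow, map_add, hY, h2, smul_eq_mul,
        smul_zero]
      ring
    refine ⟨hY, hQ, hw, hd, ?_⟩
    rw [eta, hY, hw, hd]
    linear_combination c.Y b * c.E i j l l' (c.Q b) * c.pell b

end Pool.Agent.P.MP_84b56d_ag.PC
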