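import Pool.Agent.P.MP_84b56d_ag.PC.St

/-! Kernel vectors of a polynomial family of linear maps extend to first order. -/

namespace Pool.Agent.P.MP_84b56d_ag.PC

open Polynomial Finset

theorem la {F V W : Type*} [Field F] [AddCommGroup V] [Module F V] [FiniteDimensional F V]
    [AddCommGroup W] [Module F W] (M : ℕ → V →ₗ[F] W) (n : ℕ) :
    ∃ S : Set F, S.Finite ∧ ∀ c ∉ S, ∀ v : V, ∑ i ∈ range n, c ^ i • M i v = 0 →
      ∃ v₁ : V, ∑ i ∈ range n, c ^ i • M i v₁ + ∑ i ∈ range n, ((i : F) * c ^ (i - 1)) • M i v = 0 := by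
  classical
  let s : W →ₗ[F] PolynomialModule F W := PolynomialModule.lsingle F 0
  have hs : ∀ (c : F) (w : W), PolynomialModule.eval c (s w) = w := fun c w => by
    simp [s]
  let 𝓜 : V → PolynomialModule F W := fun v => ∑ i ∈ range n, (X ^ i : F[X]) • s (M i v)
  let ev : F → V →ₗ[F] W := fun c => ∑ i ∈ range n, c ^ i • M i
  have hev : ∀ c v, ev c v = ∑ i ∈ range n, c ^ i • M i v := fun c v => by
    simp [ev, LinearMap.sum_apply]
  have hM : ∀ c v, PolynomialModule.eval c (𝓜 v) = ev c v := fun c v => by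
    simp only [𝓜, map_sum, PolynomialModule.eval_smul, hs, eval_pow, eval_X, hev]
  let I : Submodule F[X] (PolynomialModule F W) := Submodule.span F[X] (Set.range 𝓜)
  have hI : ∀ c, ∀ z ∈ I, PolynomialModule.eval c z ∈ LinearMap.range (ev c) := fun c z hz => by
    induction hz using Submodule.span_induction with
    | mem x h => obtain ⟨v, rfl⟩ := h; exact ⟨v, (hM c v).symm⟩
    | zero => simp
    | add x y _ _ h1 h2 => rw [map_add]; exact add_mem h1 h2
    | smul a x _ h => rw [PolynomialModule.eval_smul]; exact Submodule.smul_mem _ _ h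
  let b := Module.finBasis F V
  let N : Submodule F[X] (PolynomialModule F W) :=
    Submodule.span F[X] (Set.range fun x : range n × Fin (Module.finrank F V) => s (M x.1 (b x.2)))
  have hN : ∀ i ∈ range n, ∀ v, s (M i v) ∈ N := fun i hi v => by
    rw [← b.sum_repr v, map_sum, map_sum]
    refine Submodule.sum_mem _ fun j _ => ?_
    rw [map_smul, map_smul, ← algebraMap_smul F[X]]
    exact Submodule.smul_mem _ _ (Submodule.subset_span ⟨(⟨i, hi⟩, j), rfl⟩)
  let T : Submodule F[X] (PolynomialModule F W) :=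
    N ⊓ (Submodule.torsion F[X] (PolynomialModule F W ⧸ I)).comap I.mkQ
  have hT : T.FG := (Submodule.fg_span (Set.finite_range _) : N.FG).of_le inf_le_left
  obtain ⟨t, ht⟩ := hT
  have h1 : ∀ u ∈ t, ∃ g : F[X], g ≠ 0 ∧ g • u ∈ I := fun u hu => by
    have : u ∈ T := ht ▸ Submodule.subset_span hu
    obtain ⟨⟨g, hg⟩, e⟩ := (Submodule.mem_torsion_iff _).1 this.2
    refine ⟨g, nonZeroDivisors.ne_zero hg, ?_⟩
    rw [← Submodule.Quotient.mk_eq_zero, Submodule.Quotient.mk_smul]
    exact e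
  choose! g hg0 hg using h1
  let G : F[X] := ∏ u ∈ t, g u
  have hG0 : G ≠ 0 := prod_ne_zero_iff.2 hg0
  have hG : ∀ u ∈ T, G • u ∈ I := fun u hu => by
    rw [← ht] at hu
    induction hu using Submodule.span_induction with
    | mem x h =>
      obtain ⟨a, ha⟩ : g x ∣ G := dvd_prod_of_mem _ h
      rw [ha, mul_comm, mul_smul]
      exact I.smul_mem _ (hg x h)
    | zero => simp
    | add x y _ _ h1 h2 => rw [smul_add]; exact add_mem h1 h2
    | smul a x _ h => rw [smul_comm]; exact I.smul_mem _ h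
  refine ⟨{c | G.IsRoot c}, G.finite_setOfPred_isRoot hG0, fun c hc v hv => ?_⟩
  let a : ℕ → F[X] := fun i => ∑ k ∈ range i, X ^ k * C c ^ (i - 1 - k)
  have ha : ∀ i, (X - C c) * a i = X ^ i - C (c ^ i) := fun i => by
    rw [mul_comm, map_pow]; exact Commute.geom_sum₂_mul (Commute.all _ _) i
  have ha' : ∀ i, (a i).eval c = (i : F) * c ^ (i - 1) := fun i => by
    have := geom_sum₂_self c i
    simpa [a, eval_finsetSum] using this
  let u : PolynomialModule F W := ∑ i ∈ range n, a i • s (M i v)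
  have hu : (X - C c : F[X]) • u = 𝓜 v := by
    have e : ∑ i ∈ range n, (C (c ^ i) : F[X]) • s (M i v) = 0 := by
      have := congrArg s hv
      rw [map_sum, map_zero] at this
      rw [← this]
      exact sum_congr rfl fun i _ => by rw [map_smul, ← algebraMap_smul F[X] (c ^ _)]; rfl
    simp only [u, smul_sum, ← mul_smul, ha, sub_smul, sum_sub_distrib, e, sub_zero, 𝓜]
  have huT : u ∈ T := by
    refine ⟨Submodule.sum_mem _ fun i hi => N.smul_mem _ (hN i hi v), ?_⟩
    refine (Submodule.mem_torsion_iff _).2 ⟨⟨X - C c, mem_nonZeroDivisors_of_ne_zero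
      (X_sub_C_ne_zero c)⟩, ?_⟩
    change (X - C c : F[X]) • I.mkQ u = 0
    rw [← map_smul, hu, Submodule.mkQ_apply, Submodule.Quotient.mk_eq_zero]
    exact Submodule.subset_span ⟨v, rfl⟩
  obtain ⟨z, hz⟩ := hI c _ (hG u huT)
  have hc' : G.eval c ≠ 0 := hc
  refine ⟨-((G.eval c)⁻¹ • z), ?_⟩
  have e : PolynomialModule.eval c u = ∑ i ∈ range n, ((i : F) * c ^ (i - 1)) • M i v := by
    simp only [u, map_sum, PolynomialModule.eval_smul, hs, ha']
  rw [← hev, map_neg, map_smul, hz, PolynomialModule.eval_smul, e, smul_smul, inv_mul_cancel₀ hc',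
    one_smul, neg_add_cancel]

theorem pLA : S_LA := fun _ _ _ _ _ _ _ _ _ M n => by
  obtain ⟨S, hS, h⟩ := la M n
  exact ⟨hS.toFinset, fun c hc => h c fun e => hc (hS.mem_toFinset.2 e)⟩

end Pool.Agent.P.MP_84b56d_ag.PC
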