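import Pool.Agent.P.MP_84b56d_ag.PC.St

/-! Normal forms in the coordinate ring, which is a domain. -/

open Polynomial

noncomputable section

namespace Pool.Agent.P.MP_84b56d_ag.PC

section nf

variable {R : Type} [CommRing R] (d : R[X])

lemma nf_X : evB d X = co d 1 := by simp [evB]

lemma nf_C (p : R[X]) : evB d (C p) = aeval (co d 2) p := by simp [evB]

lemma nf_CX : evB d (C X) = co d 2 := by simp [nf_C]

lemma nf_sq : co d 0 * co d 0 = evB d (1 + C d * X ^ 2) := by
  rw [map_add, map_mul, map_pow, map_one, nf_X, nf_C]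
  linear_combination co_pell d

end nf

theorem pNF : S_NF := by
  intro R _ d f
  obtain ⟨p, rfl⟩ := Ideal.Quotient.mk_surjective f
  induction p using MvPolynomial.induction_on with
  | C a =>
    refine ⟨0, C (C a), 0, ?_⟩
    rw [nf_C, aeval_C, map_zero, zero_mul, add_zero, pow_zero, one_mul]
    rfl
  | add p q hp hq =>
    obtain ⟨r, f₀, f₁, h⟩ := hp
    obtain ⟨s, g₀, g₁, h'⟩ := hq
    refine ⟨r + s, C X ^ s * f₀ + C X ^ r * g₀, C X ^ s * f₁ + C X ^ r * g₁, ?_⟩
    simp only [map_add, map_mul, map_pow, nf_CX]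
    linear_combination co d 2 ^ s * h + co d 2 ^ r * h'
  | mul_X p i hp =>
    obtain ⟨r, f₀, f₁, h⟩ := hp
    rw [map_mul]
    change ∃ (r : ℕ) (f₀ f₁ : R[X][X]),
      co d 2 ^ r * (Ideal.Quotient.mk (Iq d) p * co d i) = evB d f₀ + evB d f₁ * co d 0
    fin_cases i
    · refine ⟨r, f₁ * (1 + C d * X ^ 2), f₀, ?_⟩
      rw [map_mul, ← nf_sq]
      change co d 2 ^ r * (_ * co d 0) = _
      linear_combination co d 0 * h
    · refine ⟨r, f₀ * X, f₁ * X, ?_⟩
      simp only [map_mul, nf_X]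
      change co d 2 ^ r * (_ * co d 1) = _
      linear_combination co d 1 * h
    · refine ⟨r, f₀ * C X, f₁ * C X, ?_⟩
      simp only [map_mul, nf_CX]
      change co d 2 ^ r * (_ * co d 2) = _
      linear_combination co d 2 * h
    · refine ⟨r + 1, f₀, f₁, ?_⟩
      change co d 2 ^ (r + 1) * (_ * co d 3) = _
      linear_combination h + co d 2 ^ r * Ideal.Quotient.mk (Iq d) p * co_inv d

/-- `1 + d y ^ 2` is not a square. -/
lemma nf_nsq {k : Type} [Field k] [CharZero k] {d : k[X]} (hd : d ≠ 0) {f₀ f₁ : k[X][X]}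
    (h : f₀ ^ 2 = (1 + C d * X ^ 2) * f₁ ^ 2) : f₁ = 0 := by
  by_contra h1
  have hdv : f₁ ^ 2 ∣ f₀ ^ 2 := ⟨1 + C d * X ^ 2, by rw [h, mul_comm]⟩
  obtain ⟨u, rfl⟩ := (IsIntegrallyClosed.pow_dvd_pow_iff two_ne_zero).1 hdv
  have hu : u ^ 2 = 1 + C d * X ^ 2 :=
    mul_left_cancel₀ (pow_ne_zero 2 h1) (by linear_combination h)
  have hd' := congrArg derivative hu
  simp only [derivative_add, derivative_one, derivative_mul, derivative_C,
    derivative_pow, derivative_X, Nat.cast_ofNat, map_ofNat] at hd'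
  have h2 : u * derivative u = C d * X :=
    mul_left_cancel₀ (two_ne_zero : (2 : k[X][X]) ≠ 0) (by linear_combination hd')
  have h3 : IsUnit u := IsUnit.of_mul_eq_one (u - X * derivative u) (by
    linear_combination hu - X * h2)
  have h4 : derivative u = 0 := derivative_of_natDegree_zero (natDegree_eq_zero_of_isUnit h3)
  rw [h4, mul_zero] at h2
  exact mul_ne_zero (C_ne_zero.2 hd) X_ne_zero h2.symm

theorem pDomain (hN : S_NF) : S_Domain := by
  intro k _ _ d hd
  let Ω := AlgebraicClosure (FractionRing k[X][X])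
  let j : k[X][X] →ₐ[k] Ω := IsScalarTower.toAlgHom k k[X][X] Ω
  have hj : Function.Injective j := by
    change Function.Injective (algebraMap k[X][X] Ω)
    rw [IsScalarTower.algebraMap_eq k[X][X] (FractionRing k[X][X]) Ω, RingHom.coe_comp]
    exact (algebraMap (FractionRing k[X][X]) Ω).injective.comp (IsFractionRing.injective _ _)
  obtain ⟨ρ, hρ⟩ := IsAlgClosed.exists_pow_nat_eq (j (1 + C d * X ^ 2)) two_pos
  have hb : j (C X) ≠ 0 := fun h => C_ne_zero.2 X_ne_zero (hj (h.trans (map_zero j).symm))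
  have hC : ∀ p : k[X], aeval (j (C X)) p = j (C p) := fun p => by
    have : (aeval (j (C X)) : k[X] →ₐ[k] Ω) = j.comp CAlgHom := by
      refine Polynomial.algHom_ext ?_
      simp
    rw [this]; rfl
  obtain ⟨φ, hφ⟩ := exists_pt d ![ρ, j X, j (C X), (j (C X))⁻¹]
    (by
      change ρ ^ 2 - aeval (j (C X)) d * j X ^ 2 = 1
      rw [hρ, hC, map_add, map_mul, map_pow, map_one]; ring)
    (mul_inv_cancel₀ hb)
  have hev : ∀ p, φ (evB d p) = j p := fun p => by
    have : (φ : Bq d →+* Ω).comp (evB d) = (j : k[X][X] →+* Ω) := by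
      refine Polynomial.ringHom_ext (fun p => ?_) ?_
      · change φ (evB d (C p)) = j (C p)
        rw [nf_C, ← aeval_algHom_apply, hφ 2]; exact hC p
      · change φ (evB d X) = j X
        rw [nf_X, hφ 1]; rfl
    exact RingHom.congr_fun this p
  refine Function.Injective.isDomain (φ : Bq d →+* Ω) ((injective_iff_map_eq_zero _).2 ?_)
  intro f hf
  obtain ⟨r, f₀, f₁, h⟩ := hN k d f
  have hf' : φ f = 0 := hf
  have h1 := congrArg φ h
  rw [map_mul, hf', mul_zero, map_add, map_mul, hev, hev, hφ 0] at h1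
  change 0 = j f₀ + j f₁ * ρ at h1
  have h2 : f₀ ^ 2 = (1 + C d * X ^ 2) * f₁ ^ 2 := hj (by
    rw [map_mul, ← hρ, map_pow, map_pow]
    linear_combination (j f₁ * ρ - j f₀) * h1)
  have h3 := nf_nsq hd h2
  rw [h3] at h2
  have h4 : f₀ = 0 := pow_eq_zero_iff (two_ne_zero) |>.1 (by simpa using h2)
  rw [h3, h4, map_zero, zero_mul, add_zero] at h
  have h5 : (co d 2 * co d 3) ^ r = 1 := by rw [co_inv, one_pow]
  linear_combination co d 3 ^ r * h - f * h5

end Pool.Agent.P.MP_84b56d_ag.PC
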