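import Pool.Agent.P.MP_84b56d_ag.PC.St

/-! The punctured surface is not arithmetically special; assembly. -/

open Polynomial AlgebraicGeometry CategoryTheory

noncomputable section

namespace Pool.Agent.P.MP_84b56d_ag.PC

lemma nb_point {k : Type} [Field k] [CharZero k] [IsAlgClosed k] (d : k[X]) {p : k[X]}
    (hp : p ≠ 0) : ∃ φ : Bq d →ₐ[k] k, φ (co d 1) ≠ 0 ∧ φ (aeval (co d 2) p) ≠ 0 := by
  classical
  obtain ⟨b, hb⟩ := Infinite.exists_notMem_finset (X * p).roots.toFinset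
  rw [Multiset.mem_toFinset, mem_roots (mul_ne_zero X_ne_zero hp), IsRoot, eval_mul, eval_X,
    mul_eq_zero, not_or] at hb
  obtain ⟨x, hx⟩ := IsAlgClosed.exists_pow_nat_eq (1 + d.eval b) two_pos
  obtain ⟨φ, h⟩ := exists_pt d (E := k) ![x, 1, b, b⁻¹] (by simp [hx]) (by simp [hb.1])
  refine ⟨φ, by simp [h], ?_⟩
  rw [← aeval_algHom_apply, h]
  simpa using hb.2

theorem pNotB (h1 : S_Red1) (h2 : S_Red2) (h3 : S_Core) : S_Not := by
  classical
  intro k _ _ _ e q U hI hU hs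
  obtain ⟨A, κ, hA, h⟩ := h1 k _ U (Finset.univ.image (co (pd e q))) (co _ 1)
    (aeval (co (pd e q) 2) (pY e)) (fun z hz => (hU z).1 hz) hs
  obtain ⟨R, hR, hκ, hO⟩ := h2 k A (κ ∪ insert e (Finset.univ.image q)) hA
  have he : e ∈ R := hκ _ (by simp)
  have hq : ∀ j, q j ∈ R := fun j => hκ _ (by simp)
  have hf := h3 k R e q hR he hq hI
  have hp : (∏ b ∈ hf.toFinset, (X - C b) : k[X]) ≠ 0 :=
    Finset.prod_ne_zero_iff.2 fun b _ => X_sub_C_ne_zero b
  obtain ⟨φ0, n1, n2⟩ := nb_point (pd e q) hp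
  obtain ⟨φ, hφ, hm⟩ := h (co _ 1 * aeval (co _ 2) (∏ b ∈ hf.toFinset, (X - C b) : k[X]))
    ⟨⟨RingHom.ker φ0, RingHom.ker_isPrime φ0⟩, (hU _).2 (Or.inl n1), fun h0 =>
      mul_ne_zero n1 n2 (by simpa using h0)⟩
  rw [map_mul, mul_ne_zero_iff, ← aeval_algHom_apply] at hφ
  let F := Subfield.closure ((A : Set k) ∪ ↑(κ ∪ insert e (Finset.univ.image q)))
  have hF : Adm A F.toSubring := ⟨fun a ha => Subfield.subset_closure (Or.inl ha),
    Or.inl fun a ha => F.inv_mem (Subfield.subset_closure (Or.inl ha))⟩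
  have mF : ∀ a ∈ κ ∪ insert e (Finset.univ.image q), a ∈ F := fun a ha =>
    Subfield.subset_closure (Or.inr ha)
  have cF : ∀ i, φ (co _ i) ∈ F := fun i =>
    (hm _ hF fun a ha => mF a (Finset.mem_union_left _ ha)).1 _ (by simp)
  have cR : ∀ i, φ (co _ i) ∈ R := fun i => hO _ (cF i) fun O h4 h5 =>
    (hm O h4 fun a ha => h5 a (hκ a (Finset.mem_union_left _ ha))).1 _ (by simp)
  have e1 := congrArg φ (co_inv (pd e q))
  have e2 := congrArg φ (co_pell (pd e q))
  rw [map_mul, map_one] at e1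
  rw [map_sub, map_mul, map_pow, map_pow, map_one, ← aeval_algHom_apply, coe_aeval_eq_eval] at e2
  have hb : Bad R e q (φ (co _ 2)) := by
    refine ⟨left_ne_zero_of_mul_eq_one e1, cR 2, (eq_inv_of_mul_eq_one_right e1) ▸ cR 3, _, cR 0, _,
      cR 1, hφ.1, e2, fun hy => ?_⟩
    by_cases h0 : (pY e).eval (φ (co _ 2)) = 0
    · rw [h0, inv_zero]
      exact zero_mem _
    refine hO _ (F.inv_mem ?_) fun O h4 h5 => ?_
    · rw [eval_pY]
      exact add_mem (add_mem (one_mem _) (cF 2)) (mul_mem (mF e (by simp)) (pow_mem (cF 2) _))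
    · obtain ⟨α, hα, β, hβ, h6⟩ :=
        (hm O h4 fun a ha => h5 a (hκ a (Finset.mem_union_left _ ha))).2
      rw [← aeval_algHom_apply, coe_aeval_eq_eval] at h6
      have : ((pY e).eval (φ (co _ 2)))⁻¹ = α * (φ (co _ 1) / (pY e).eval (φ (co _ 2))) + β := by
        field_simp
        linear_combination -h6
      rw [this]
      exact add_mem (mul_mem hα (h5 _ hy)) hβ
  refine hφ.2 ?_
  rw [coe_aeval_eq_eval, eval_prod]
  exact Finset.prod_eq_zero (hf.mem_toFinset.2 hb) (by simp)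

theorem trdegB (k : Type) [Field k] [CharZero k] [Uncountable k] : 19 ≤ Algebra.trdeg ℚ k := by
  by_contra h
  obtain ⟨s, hs⟩ := exists_isTranscendenceBasis ℚ k
  have h1 : Cardinal.mk s < 19 := by
    rw [hs.cardinalMk_eq_trdeg]
    exact not_le.1 h
  have h2 : Cardinal.mk s ≤ Cardinal.aleph0 := (h1.trans (Cardinal.natCast_lt_aleph0 (n := 19))).le
  have h3 := hs.isAlgebraic
  have h4 := Algebra.IsAlgebraic.cardinalMk_le_max
    (Algebra.adjoin ℚ (Set.range ((↑) : s → k))) k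
  rw [← hs.1.aevalEquiv.toEquiv.cardinal_eq] at h4
  have h5 := MvPolynomial.cardinalMk_le_max (σ := s) (R := ℚ)
  have h6 : Cardinal.mk k ≤ Cardinal.aleph0 :=
    h4.trans (max_le (h5.trans (max_le (max_le Cardinal.mk_le_aleph0 h2) le_rfl)) le_rfl)
  exact not_countable (Cardinal.mk_le_aleph0_iff.1 h6)

theorem pTrdegB : S_Trdeg := by
  have : Uncountable ℂ := Complex.ofReal_injective.uncountable
  refine ⟨fun k _ _ h => ?_, trdegB ℂ⟩
  obtain ⟨s, hs⟩ := exists_isTranscendenceBasis ℚ k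
  rw [← hs.cardinalMk_eq_trdeg] at h
  obtain ⟨f⟩ : Nonempty (Option (Fin 18) ↪ s) := (Cardinal.le_def _ _).1 (by simpa using h)
  refine ⟨f none, fun j => f (some j), ?_⟩
  have := hs.1.comp f f.injective
  unfold Ind
  convert this using 1
  ext o
  cases o <;> rfl

theorem pMainB (hDeg : S_Deg) (hD : S_Domain) (hS : S_Smooth) (hC : S_Codim) (hA : S_Aff)
    (hP : S_Pts) (hN : S_Not) (hT : S_Trdeg) : S_Main := by
  intro k _ _ _ hk
  obtain ⟨e, q, hI⟩ := hT.1 k hk
  obtain ⟨d1, -, -, d2, -⟩ := hDeg k e q hI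
  have := hD k (pd e q) fun h => by simp [h] at d2
  have hY : pY e ≠ 0 := fun h => by simp [h] at d1
  let A : Subring k := Subring.closure (insert 2⁻¹ (insert e (Set.range q)))
  have he : e ∈ A := Subring.subset_closure (by simp)
  have hq : ∀ j, q j ∈ A := fun j => Subring.subset_closure (by simp)
  have hA1 : Algebra.FiniteType ℤ A := by
    have : (Algebra.adjoin ℤ (insert 2⁻¹ (insert e (Set.range q)))).FG :=
      Subalgebra.fg_def.2 ⟨_, ((Set.finite_range q).insert e).insert _, rfl⟩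
    rw [Algebra.adjoin_int] at this
    exact (Subalgebra.fg_iff_finiteType _).1 this
  refine ⟨Spec (.of (Bq (pd e q))), Spec.map (CommRingCat.ofHom (algebraMap k _)),
    PrimeSpectrum.zeroLocus {co _ 1, aeval (co (pd e q) 2) (pY e)},
    PrimeSpectrum.isClosed_zeroLocus _, inferInstance, inferInstance, (hS k _).2, inferInstance,
    (hS k _).1, fun z hz => hC k _ (pY e) this hY z (hz (by simp)) (hz (by simp)),
    hA k A (pd ⟨e, he⟩ fun j => ⟨q j, hq j⟩) _ hA1 (map_pd _ _ _)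
      (hP k e q A hI he hq (Subring.subset_closure (by simp))), hN k e q _ hI fun z => ?_⟩
  refine Iff.trans (not_congr (PrimeSpectrum.mem_zeroLocus z _)) ?_
  rw [Set.insert_subset_iff, Set.singleton_subset_iff, not_and_or]
  rfl

end Pool.Agent.P.MP_84b56d_ag.PC
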