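import Pool.Agent.P.MP_84b56d_ag.PC.St

/-! The places at infinity: the Euler derivation and the loss of order under derivations. -/

open Polynomial Ivrii.PX Ivrii.TA

noncomputable section

namespace Pool.Agent.P.MP_84b56d_ag.PC

section aux

variable {k0 K L ι : Type} [Field k0] [Field K] [CharZero K] [Field L] [CharZero L] [Fintype ι]
  [Algebra k0 K] [Algebra k0 L] {s : Finset K} {ψ : ι → K →+* LaurentSeries L} {N : ℕ}
  {t : Fin N → K} {z : Fin N → L} {n : ℕ+}

lemma places_acl (h : IsPre k0 s ψ t z n) (f : K) :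
    f ∈ acl (Set.range t ∪ Set.range (algebraMap k0 K)) := by
  refine mem_acl_of_subring (S := Algebra.adjoin k0 (Set.range t)) Subtype.val_injective
    (fun a => ?_) (h.algt f)
  obtain ⟨a, ha⟩ := a
  change a ∈ _
  induction ha using Algebra.adjoin_induction with
  | mem x hx => exact subset_acl _ (Or.inl hx)
  | algebraMap r => exact subset_acl _ (Or.inr ⟨r, rfl⟩)
  | add x y _ _ h1 h2 => exact add_mem h1 h2
  | mul x y _ _ h1 h2 => exact mul_mem h1 h2

lemma places_alg (h : IsPre k0 s ψ t z n) (i : ι) (f : K) (hf : IsAlgebraic k0 f) :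
    Ge 0 (ψ i f) := by
  obtain ⟨p, hp, hf⟩ := hf
  by_contra hn
  rw [ge_iff, not_or, not_le] at hn
  obtain ⟨h1, h2⟩ := lead_order hn.1
  have h3 := h2.aeval_neg hn.2 (p.map (algebraMap k0 L))
  have hp' : p.map (algebraMap k0 L) ≠ 0 := (Polynomial.map_ne_zero_iff
    (algebraMap k0 L).injective).2 hp
  refine h3.ne_zero (mul_ne_zero (leadingCoeff_ne_zero.2 hp') (pow_ne_zero _ h1)) ?_
  have e : (ψ i).comp (algebraMap k0 K) =
      (algebraMap L (LaurentSeries L)).comp (algebraMap k0 L) := RingHom.ext fun a => h.cst i a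
  rw [aeval_def, eval₂_map, ← e, ← hom_eval₂, ← aeval_def, hf, map_zero]

lemma places_const (h : IsPre k0 s ψ t z n) (f : K)
    (hf : IsIntegral (Algebra.adjoin k0 (s : Set K)) f) (h0 : ∀ i, Ge 0 (ψ i f)) :
    IsAlgebraic k0 f := by
  obtain ⟨W, hW, hm⟩ := h.fd 0
  have key : ∀ g ∈ Algebra.adjoin k0 {f},
      IsIntegral (Algebra.adjoin k0 (s : Set K)) g ∧ ∀ i, Ge 0 (ψ i g) := by
    intro g hg
    induction hg using Algebra.adjoin_induction with
    | mem x hx => exact Set.mem_singleton_iff.1 hx ▸ ⟨hf, h0⟩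
    | algebraMap r =>
      exact ⟨isIntegral_algebraMap (x := algebraMap k0 (Algebra.adjoin k0 (s : Set K)) r),
        fun i => places_alg h i _ (isAlgebraic_algebraMap r)⟩
    | add x y _ _ h1 h2 => exact ⟨h1.1.add h2.1, fun i => by
        rw [map_add]
        exact (h1.2 i).add (h2.2 i)⟩
    | mul x y _ _ h1 h2 => exact ⟨h1.1.mul h2.1, fun i => by
        rw [map_mul]
        simpa using (h1.2 i).mul (h2.2 i)⟩
  have hle : Subalgebra.toSubmodule (Algebra.adjoin k0 {f}) ≤ W := fun g hg =>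
    hm g (key g hg).1 (key g hg).2
  have := Submodule.finiteDimensional_of_le hle
  exact (IsIntegral.of_mem_of_fg (Algebra.adjoin k0 {f}) (Module.Finite.iff_fg.1 this) f
    (Algebra.subset_adjoin rfl)).isAlgebraic

lemma places_eul (hU : S_Uniq) (h : IsPre k0 s ψ t z n) {δ : Der K}
    (h0 : ∀ c : k0, δ (algebraMap k0 K c) = 0) (h1 : ∀ j, δ (t j) = -((n : ℕ) : K) * t j)
    (i : ι) (f : K) : euler L L (ψ i f) = ψ i (δ f) := by
  let Θ : K →+ LaurentSeries L :=
    { toFun := fun f => euler L L (ψ i f) - ψ i (δ f)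
      map_zero' := by simp
      map_add' := fun f g => by
        simp only [map_add]
        ring }
  refine sub_eq_zero.1 (hU K _ (ψ i) Θ _ (fun f g => ?_) ?_ f (places_acl h f))
  · change euler L L (ψ i (f * g)) - ψ i (δ (f * g)) =
      ψ i f * (euler L L (ψ i g) - ψ i (δ g)) + ψ i g * (euler L L (ψ i f) - ψ i (δ f))
    simp only [map_mul, Derivation.leibniz, smul_eq_mul, map_add]
    ring
  · rintro _ (⟨j, rfl⟩ | ⟨c, rfl⟩)
    · change euler L L (ψ i (t j)) - ψ i (δ (t j)) = 0
      rw [h1, map_mul, map_neg, map_natCast, h.var, euler_single]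
      push_cast
      ring
    · change euler L L (ψ i (algebraMap k0 K c)) - ψ i (δ (algebraMap k0 K c)) = 0
      rw [h0, h.cst, euler_C, map_zero, sub_zero]

lemma places_der (hE : S_Ext) (hU : S_Uniq) (h : IsPre k0 s ψ t z n) (D : Der K)
    (h0 : ∀ c : k0, D (algebraMap k0 K c) = 0) : ∃ c : ℕ, Loss ψ c D := by
  classical
  choose d hd0 hd using fun j : Fin N => hE k0 L (Fin N) z (Pi.single j 1) h.indz
  have key : ∀ i f, ψ i (D f) = ∑ j, ψ i (D (t j)) *
      (HahnSeries.single ((n : ℕ) : ℤ) 1 * dcoef (d j) (ψ i f)) := fun i f => by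
    let Θ : K →+ LaurentSeries L :=
      { toFun := fun f => ψ i (D f) - ∑ j, ψ i (D (t j)) *
          (HahnSeries.single ((n : ℕ) : ℤ) 1 * dcoef (d j) (ψ i f))
        map_zero' := by simp
        map_add' := fun f g => by
          simp only [map_add, mul_add, Finset.sum_add_distrib]
          ring }
    refine sub_eq_zero.1 (hU K _ (ψ i) Θ _ (fun f g => ?_) ?_ f (places_acl h f))
    · change ψ i (D (f * g)) - ∑ j, ψ i (D (t j)) *
          (HahnSeries.single ((n : ℕ) : ℤ) 1 * dcoef (d j) (ψ i (f * g))) =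
        ψ i f * (ψ i (D g) - ∑ j, ψ i (D (t j)) *
          (HahnSeries.single ((n : ℕ) : ℤ) 1 * dcoef (d j) (ψ i g))) +
        ψ i g * (ψ i (D f) - ∑ j, ψ i (D (t j)) *
          (HahnSeries.single ((n : ℕ) : ℤ) 1 * dcoef (d j) (ψ i f)))
      simp only [map_mul, Derivation.leibniz, smul_eq_mul, map_add, mul_sub, Finset.mul_sum]
      rw [sub_add_sub_comm, ← Finset.sum_add_distrib]
      congr 1
      exact Finset.sum_congr rfl fun j _ => by ring
    · rintro _ (⟨l, rfl⟩ | ⟨c, rfl⟩)
      · change ψ i (D (t l)) - ∑ j, ψ i (D (t j)) *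
          (HahnSeries.single ((n : ℕ) : ℤ) 1 * dcoef (d j) (ψ i (t l))) = 0
        rw [Finset.sum_eq_single l, h.var, dcoef_single, hd, HahnSeries.single_mul_single]
        · simp
        · intro j _ hj
          rw [h.var, dcoef_single, hd, Pi.single_eq_of_ne hj.symm]
          simp
        · simp
      · change ψ i (D (algebraMap k0 K c)) - ∑ j, ψ i (D (t j)) *
          (HahnSeries.single ((n : ℕ) : ℤ) 1 * dcoef (d j) (ψ i (algebraMap k0 K c))) = 0
        simp only [h0, h.cst, dcoef_C, hd0, map_zero, mul_zero, Finset.sum_const_zero, sub_zero]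
  refine ⟨Finset.univ.sup fun p : ι × Fin N => (-(ψ p.1 (D (t p.2))).order).toNat,
    fun i f m hf => ?_⟩
  rw [key]
  refine Ge.sum fun j _ => ?_
  have h1 : Ge m (dcoef (d j) (ψ i f)) := fun a ha => by rw [coeff_dcoef, hf a ha, map_zero]
  have h2 := Finset.le_sup (f := fun p : ι × Fin N => (-(ψ p.1 (D (t p.2))).order).toNat)
    (Finset.mem_univ (i, j))
  refine ((ge_order _).mul ((Lead.single _ (1 : L)).1.mul h1)).mono ?_
  simp only at h2
  omega

end aux

theorem pPlaces (hE : S_Ext) (hU : S_Uniq) (hP : S_Pre) : S_Places := by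
  intro k0 K _ _ _ _ s hs
  obtain ⟨L, ι, _, _, _, _, ψ, N, t, z, n, h⟩ := hP k0 K s hs
  obtain ⟨δ, h0, h1⟩ := hE k0 K (Fin N) t (fun j => -((n : ℕ) : K) * t j) h.indt
  refine ⟨L, ι, inferInstance, inferInstance, inferInstance, ψ, δ, places_alg h, h.deg, h.fd,
    places_const h, places_eul hU h h0 h1, fun f hf => ?_, places_der hE hU h⟩
  refine hU K K (RingHom.id K) δ.toLinearMap.toAddMonoidHom (Set.range (algebraMap k0 K))
    (fun f g => δ.leibniz f g) ?_ f
    (mem_acl_of_subring (algebraMap k0 K).injective (fun a => subset_acl _ (Set.mem_range_self a)) hf)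
  rintro _ ⟨c, rfl⟩
  exact h0 c

end Pool.Agent.P.MP_84b56d_ag.PC
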