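import Pool.Agent.P.MP_84b56d_ag.PC.Der

/-! A place at which one element has a pole and three derivations are logarithmic. -/

open Polynomial Ivrii.PX Ivrii.TA IntermediateField

noncomputable section

namespace Pool.Agent.P.MP_84b56d_ag.PC

lemma pole_lift {k S : Type} [CommRing k] [Field S] [CharZero S] [Algebra k S]
    (d : Derivation k S S) :
    ∃ D : Der (AlgebraicClosure S), ∀ f, D (algebraMap S _ f) = algebraMap S _ (d f) :=
  pLift S _ (Derivation.mk' d.toLinearMap.toAddMonoidHom.toRatLinearMap fun x y => d.leibniz x y)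

lemma pole_emb {Ω L : Type} [Field Ω] [Field L] [CharZero L] [IsAlgClosed L] [Algebra L Ω] {h : Ω}
    (hh : Transcendental L h) (halg : Algebra.IsAlgebraic L⟮h⟯ Ω) (T : Finset Ω) :
    ∃ (n : ℕ+) (Ψ : Ω →+* AlgebraicClosure (LaurentSeries L)),
      (∀ c : L, Ψ (algebraMap L Ω c) = algebraMap (LaurentSeries L) _ (HahnSeries.C c)) ∧
      Ψ h = algebraMap (LaurentSeries L) _ (HahnSeries.single (-((n : ℕ) : ℤ)) 1) ∧
      ∀ g ∈ T, ∃ y, Ψ g = algebraMap (LaurentSeries L) _ y := by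
  obtain ⟨φ, hφ⟩ := exists_lift (aeval (R := L) (AdjoinSimple.gen L h)).toRingHom
    (aeval (R := L) (HahnSeries.single (-1) 1 : LaurentSeries L)).toRingHom (fun a => ⟨fun e => by
      have h1 : aeval h a = 0 := by
        rw [← alg_aeval_gen, show aeval (AdjoinSimple.gen L h) a = 0 from e, map_zero]
      rw [transcendental_iff.1 hh a h1, map_zero], fun e => by
      rw [transcendental_iff.1 transc_inf a e, map_zero]⟩) (gen_surj h)
  replace hφ : ∀ a : L[X], φ (aeval (AdjoinSimple.gen L h) a) =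
    aeval (HahnSeries.single (-1) 1 : LaurentSeries L) a := hφ
  let K := IntermediateField.adjoin L⟮h⟯ (T : Set Ω)
  have : FiniteDimensional L⟮h⟯ K :=
    finiteDimensional_adjoin fun x _ => (halg.isAlgebraic x).isIntegral
  obtain ⟨n, ψ, hψ⟩ := embed (K := K) φ
  let _ : Algebra K (AlgebraicClosure (LaurentSeries L)) :=
    ((algebraMap (LaurentSeries L) _).comp ψ).toAlgebra
  have : Algebra.IsAlgebraic K Ω := Algebra.IsAlgebraic.tower_top (K := L⟮h⟯) K
  let Ψ : Ω →ₐ[K] AlgebraicClosure (LaurentSeries L) := IsAlgClosed.lift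
  have k0 : ∀ x : K, Ψ (x : Ω) = algebraMap (LaurentSeries L) _ (ψ x) := fun x => Ψ.commutes x
  have key : ∀ p : L[X], Ψ (aeval h p) = algebraMap (LaurentSeries L) _
      (ram n (aeval (HahnSeries.single (-1) 1 : LaurentSeries L) p)) := fun p => by
    rw [← hφ, ← alg_aeval_gen]
    exact (k0 (algebraMap L⟮h⟯ K _)).trans (congrArg _ (RingHom.congr_fun hψ _))
  refine ⟨n, Ψ.toRingHom, fun c => ?_, ?_, fun g hg => ⟨_, k0 ⟨g, subset_adjoin _ _ hg⟩⟩⟩
  · have := key (C c)
    rw [aeval_C, aeval_C] at this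
    exact this.trans (congrArg _ (ram_C n c))
  · have := key X
    rw [aeval_X, aeval_X, ram_single, mul_neg_one] at this
    exact this

lemma pole_int (hU : S_Uniq) {Ω M : Type} [Field Ω] [CharZero Ω] [Field M] [CharZero M]
    (Ψ : Ω →+* M) (D : Der Ω) (E : Der M) {B : Set Ω} (hall : ∀ f, f ∈ acl B)
    (h : ∀ x ∈ B, Ψ (D x) = E (Ψ x)) (f : Ω) : Ψ (D f) = E (Ψ f) := by
  let Θ : Ω →+ M :=
    { toFun := fun f => Ψ (D f) - E (Ψ f)
      map_zero' := by simp
      map_add' := fun f g => by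
        simp only [map_add]
        ring }
  refine sub_eq_zero.1 (hU Ω M Ψ Θ B (fun f g => ?_) (fun x hx => sub_eq_zero.2 (h x hx)) f (hall f))
  change Ψ (D (f * g)) - E (Ψ (f * g)) = Ψ f * (Ψ (D g) - E (Ψ g)) + Ψ g * (Ψ (D f) - E (Ψ f))
  simp only [map_mul, Derivation.leibniz, smul_eq_mul, map_add]
  ring

/-- The series without a pole. -/
def poleP (L : Type) [Field L] : Subring (LaurentSeries L) where
  carrier := {y | Ge 0 y}
  mul_mem' := fun h1 h2 => by simpa using Ge.mul h1 h2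
  one_mem' := Lead.one.1
  add_mem' := Ge.add
  zero_mem' := Ge.zero 0
  neg_mem' := Ge.neg

lemma pole_log {L : Type} [Field L] {y z : LaurentSeries L} (h : ∀ i, y.coeff i = 0 → z.coeff i = 0) :
    z / y ∈ poleP L := by
  by_cases hy : y = 0
  · rw [hy, div_zero]
    exact zero_mem _
  · have h1 : Ge y.order z := fun i hi => h i (ge_order y i hi)
    have h2 := (h1.lead.div (lead_order hy).2 (lead_order hy).1).1
    rw [sub_self] at h2
    exact h2

theorem pPole (hE : S_Ext) (hU : S_Uniq) : S_Pole := by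
  intro Ω _ _ _ a b h T hind
  classical
  obtain ⟨B, hsB, hB⟩ := exists_isTranscendenceBasis_superset (R := ℚ) hind.to_subtype_range
  have ha : a ∈ B := hsB ⟨0, rfl⟩
  have hb : b ∈ B := hsB ⟨1, rfl⟩
  have hh : h ∈ B := hsB ⟨2, rfl⟩
  have hab : a ≠ b := fun e => by simpa using hind.injective (a₁ := 0) (a₂ := 1) e
  have hah : a ≠ h := fun e => by simpa using hind.injective (a₁ := 0) (a₂ := 2) e
  have hbh : b ≠ h := fun e => by simpa using hind.injective (a₁ := 1) (a₂ := 2) e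
  let L := acl (B \ {h})
  have : IsAlgClosed L :=
    (algebraicClosure.isAlgClosure (IntermediateField.adjoin ℚ (B \ {h})) Ω).isAlgClosed
  have hT : Transcendental L h := fun e => by
    have h1 := hB.1.transcendental_adjoin (s := {x : B | x.1 ≠ h}) (i := ⟨h, hh⟩) (by simp)
    have h2 : (Subtype.val '' {x : B | x.1 ≠ h}) = B \ {h} := by
      ext x
      simp [and_comm]
    rw [h2] at h1
    exact h1 (isAlgebraic_adjoin_iff.1 (mem_acl.1 (mem_acl_of_isAlgebraic e)))
  have hall : ∀ f, f ∈ acl B := fun f => mem_acl.2 (isAlgebraic_adjoin_iff.2 (by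
    have := hB.isAlgebraic.isAlgebraic f
    rwa [Subtype.range_coe] at this))
  have hin : ∀ {x}, x ∈ B → x ≠ h → x ∈ L := fun hx e => subset_acl _ ⟨hx, e⟩
  have halg : Algebra.IsAlgebraic L⟮h⟯ Ω := ⟨fun f => by
    have h1 : IntermediateField.adjoin ℚ B ≤ (L⟮h⟯.toSubfield).toIntermediateField fun x => by simp :=
      adjoin_le_iff.2 fun x hx => by
        by_cases e : x = h
        · exact e ▸ mem_adjoin_simple_self L h
        · exact L⟮h⟯.algebraMap_mem ⟨x, hin hx e⟩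
    let j : IntermediateField.adjoin ℚ B →+* L⟮h⟯ :=
      (algebraMap (IntermediateField.adjoin ℚ B) Ω).codRestrict _ fun x => h1 x.2
    exact (mem_acl.1 (hall f)).ringHom_of_comp_eq j (RingHom.id Ω) j.injective (by ext x; rfl)⟩
  obtain ⟨n, Ψ, hC, hΨ, hT'⟩ := pole_emb hT halg T
  have : CharZero (LaurentSeries L) :=
    charZero_of_injective_algebraMap (algebraMap L (LaurentSeries L)).injective
  let O : Subring Ω := ((poleP L).map (algebraMap (LaurentSeries L) _)).comap Ψ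
  have hO : ∀ f y, y ∈ poleP L → Ψ f = algebraMap (LaurentSeries L) _ y → f ∈ O :=
    fun f y h1 h2 => ⟨y, h1, h2.symm⟩
  have hC' : ∀ x (hx : x ∈ L), Ψ x = algebraMap (LaurentSeries L) _ (HahnSeries.C (⟨x, hx⟩ : L)) :=
    fun x hx => hC ⟨x, hx⟩
  have hi : AlgebraicIndependent ℚ fun x : ↥(B \ {h}) => (⟨x.1, subset_acl _ x.2⟩ : L) :=
    AlgebraicIndependent.of_comp L.subtype.toRatAlgHom (hB.1.mono Set.sdiff_subset)
  have hD : ∀ c, c ≠ h → ∃ D : Der Ω, (∀ x ∈ B, D x = if x = c then 1 else 0) ∧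
      ∀ g ∈ T, D g / g ∈ O := fun c hc => by
    obtain ⟨D, -, h1⟩ := hE ℚ Ω B Subtype.val (fun x => if x.1 = c then 1 else 0) hB.1
    obtain ⟨d, -, h2⟩ := hE ℚ L _ _ (fun x => if x.1 = c then 1 else 0) hi
    obtain ⟨E, h3⟩ := pole_lift (dcoef d)
    refine ⟨D, fun x hx => h1 ⟨x, hx⟩, fun g hg => ?_⟩
    obtain ⟨y, hy⟩ := hT' g hg
    refine hO _ (dcoef d y / y) (pole_log fun i e => by rw [coeff_dcoef, e, map_zero]) ?_
    rw [map_div₀, map_div₀, pole_int hU Ψ D E hall fun x hx => ?_, hy, h3]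
    rw [h1 ⟨x, hx⟩]
    by_cases e : x = h
    · rw [if_neg fun e' => hc (e'.symm.trans e), e, hΨ, h3, dcoef_single]
      simp
    · rw [hC' x (hin hx e), h3, dcoef_C, h2 ⟨x, hx, e⟩]
      split_ifs <;> simp
  obtain ⟨D₁, a1, a2⟩ := hD a hah
  obtain ⟨D₂, b1, b2⟩ := hD b hbh
  obtain ⟨δ, -, h1⟩ := hE ℚ Ω B Subtype.val
    (fun x => if x.1 = h then ((-((n : ℕ) : ℤ) : ℤ) : Ω) * h else 0) hB.1
  obtain ⟨E, h3⟩ := pole_lift (euler L L)
  have h4 : ∀ f, Ψ (δ f) = E (Ψ f) := pole_int hU Ψ δ E hall fun x hx => by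
    rw [h1 ⟨x, hx⟩]
    by_cases e : x = h
    · rw [if_pos e, e, map_mul, map_intCast, hΨ, h3, euler_single, map_mul, map_intCast]
    · rw [if_neg e, hC' x (hin hx e), h3, euler_C, map_zero, map_zero]
  refine ⟨δ, D₁, D₂, O, (h1 ⟨a, ha⟩).trans (if_neg hah), (h1 ⟨b, hb⟩).trans (if_neg hbh),
    (a1 a ha).trans (if_pos rfl), (a1 b hb).trans (if_neg hab.symm), (b1 a ha).trans (if_neg hab),
    (b1 b hb).trans (if_pos rfl), fun r hr => ?_, ?_, fun g hg => ⟨?_, a2 g hg, b2 g hg⟩⟩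
  · refine hO r _ (Lead.single 0 _).1 (hC' r (acl_mono ?_ hr))
    rintro x (rfl | rfl)
    exacts [⟨ha, hah⟩, ⟨hb, hbh⟩]
  · rintro ⟨y, hy, e⟩
    rw [h4, hΨ, h3] at e
    have h5 := hy (-((n : ℕ) : ℤ)) (by simp)
    rw [(algebraMap (LaurentSeries L) _).injective e] at h5
    simp at h5
  · obtain ⟨y, hy⟩ := hT' g hg
    refine hO _ (euler L L y / y) (pole_log fun i e => by rw [coeff_euler, e, mul_zero]) ?_
    rw [map_div₀, map_div₀, h4, hy, h3]

end Pool.Agent.P.MP_84b56d_ag.PC
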