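import Pool.Agent.P.MP_84b56d_ag.PC.St

/-! Construction of the Puiseux places at infinity. -/

open Ivrii.PX Ivrii.TA MvPolynomial

noncomputable section

namespace Pool.Agent.P.MP_84b56d_ag.PC

namespace Pre

section emb

variable {K0 K M : Type} [Field K0] [Field K] [Field M] [CharZero K0] [Algebra K0 K] [Algebra K0 M]
  [FiniteDimensional K0 K]

lemma bij (hs : ∀ x : K, ((minpoly K0 x).map (algebraMap K0 M)).Splits) :
    Function.Bijective fun σ : K →ₐ[K0] M =>
      (IsScalarTower.toAlgHom K0 M (AlgebraicClosure M)).comp σ := by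
  rw [Fintype.bijective_iff_injective_and_card, AlgHom.card_of_splits K0 K M hs, AlgHom.card]
  exact ⟨fun σ τ h => AlgHom.ext fun x =>
    (algebraMap M (AlgebraicClosure M)).injective (DFunLike.congr_fun h x), rfl⟩

lemma norm_eq (hs : ∀ x : K, ((minpoly K0 x).map (algebraMap K0 M)).Splits) (x : K) :
    algebraMap K0 M (Algebra.norm K0 x) = ∏ σ : K →ₐ[K0] M, σ x := by
  apply (algebraMap M (AlgebraicClosure M)).injective
  rw [← IsScalarTower.algebraMap_apply, Algebra.norm_eq_prod_embeddings, map_prod]
  exact (Fintype.prod_bijective _ (bij hs) _ _ fun _ => rfl).symm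

lemma trace_eq (hs : ∀ x : K, ((minpoly K0 x).map (algebraMap K0 M)).Splits) (x : K) :
    algebraMap K0 M (Algebra.trace K0 K x) = ∑ σ : K →ₐ[K0] M, σ x := by
  apply (algebraMap M (AlgebraicClosure M)).injective
  rw [← IsScalarTower.algebraMap_apply, trace_eq_sum_embeddings, map_sum]
  exact (Fintype.sum_bijective _ (bij hs) _ _ fun _ => rfl).symm

end emb

section poly

variable {k0 L : Type} [Field k0] [Field L] [Algebra k0 L] {N : ℕ} (z : Fin N → L)

/-- The substitution of `z i / u` for the variables. -/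
def sb : MvPolynomial (Fin N) k0 →+* LaurentSeries L :=
  eval₂Hom (HahnSeries.C.comp (algebraMap k0 L)) fun i => HahnSeries.single (-1) (z i)

lemma sb_C (a : k0) : sb z (C a) = HahnSeries.C (algebraMap k0 L a) := eval₂Hom_C _ _ _

lemma sb_X (i : Fin N) : sb z (X i : MvPolynomial (Fin N) k0) = HahnSeries.single (-1) (z i) :=
  eval₂Hom_X' _ _ _

lemma sb_mon (m : Fin N →₀ ℕ) (a : k0) :
    sb z (monomial m a) = HahnSeries.single (-(m.degree : ℤ)) (aeval z (monomial m a)) := by
  induction m using Finsupp.induction_linear generalizing a with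
  | zero => simpa using sb_C z a
  | add m m' h h' =>
    rw [← mul_one a, ← monomial_mul, map_mul, map_mul, h, h', HahnSeries.single_mul_single, map_add]
    congr 2
    push_cast
    ring
  | single i n =>
    rw [← C_mul_X_pow_eq_monomial, map_mul, map_pow, sb_C, sb_X, HahnSeries.single_pow,
      HahnSeries.C_apply, HahnSeries.single_mul_single]
    simp

lemma sb_coeff (p : MvPolynomial (Fin N) k0) (i : ℤ) : (sb z p).coeff i =
    ∑ m ∈ p.support, if i = -(m.degree : ℤ) then aeval z (monomial m (coeff m p)) else 0 := by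
  conv_lhs => rw [p.as_sum, map_sum, HahnSeries.coeff_sum]
  exact Finset.sum_congr rfl fun m _ => by rw [sb_mon, HahnSeries.coeff_single]; congr

lemma sb_lead (hz : AlgebraicIndependent k0 z) {p : MvPolynomial (Fin N) k0} (hp : p ≠ 0) :
    sb z p ≠ 0 ∧ (sb z p).order = -(p.totalDegree : ℤ) := by
  have h1 : Lead (-(p.totalDegree : ℤ)) (aeval z (homogeneousComponent p.totalDegree p)) (sb z p) := by
    refine ⟨fun i hi => ?_, ?_⟩
    · rw [sb_coeff]
      refine Finset.sum_eq_zero fun m hm => if_neg ?_
      have : m.degree ≤ p.totalDegree := le_totalDegree hm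
      omega
    · rw [sb_coeff, homogeneousComponent_apply, map_sum, Finset.sum_filter]
      refine Finset.sum_congr rfl fun m _ => if_congr ?_ rfl rfl
      omega
  have h2 : aeval z (homogeneousComponent p.totalDegree p) ≠ 0 := fun h => by
    obtain ⟨m, hm, e⟩ := Finset.exists_mem_eq_sup p.support (support_nonempty.2 hp)
      fun s => s.sum fun _ e => e
    have := congrArg (coeff m) (hz.eq_zero_of_aeval_eq_zero _ h)
    rw [coeff_homogeneousComponent, if_pos (show m.degree = p.totalDegree from e.symm)] at this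
    exact mem_support_iff.1 hm this
  exact ⟨h1.ne_zero h2, order_of_lead h1 h2⟩

end poly

lemma order_prod {L ι : Type} [Field L] (s : Finset ι) (f : ι → LaurentSeries L)
    (h : ∀ i, f i ≠ 0) : (∏ i ∈ s, f i).order = ∑ i ∈ s, (f i).order := by
  classical
  induction s using Finset.induction_on with
  | empty => simp
  | insert a s ha ih =>
    rw [Finset.prod_insert ha, Finset.sum_insert ha,
      order_mul' (h a) (Finset.prod_ne_zero_iff.2 fun i _ => h i), ih]

section main

variable {k0 K K0 L : Type} [Field k0] [Field K] [Field K0] [Field L] [CharZero K0] {N : ℕ}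
  [Algebra k0 K] [Algebra (MvPolynomial (Fin N) k0) K] [Algebra (MvPolynomial (Fin N) k0) K0]
  [IsScalarTower k0 (MvPolynomial (Fin N) k0) K] [IsFractionRing (MvPolynomial (Fin N) k0) K0]
  [Algebra K0 K] [IsScalarTower (MvPolynomial (Fin N) k0) K0 K] [FiniteDimensional K0 K]
  [Algebra K0 (LaurentSeries L)] {n : ℕ+}
  (hs : ∀ x : K, ((minpoly K0 x).map (algebraMap K0 (LaurentSeries L))).Splits)
  (ho : ∀ p : MvPolynomial (Fin N) k0, p ≠ 0 →
    (algebraMap K0 (LaurentSeries L) (algebraMap _ K0 p)).order = -(((n : ℕ) : ℤ) * p.totalDegree))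

include hs ho

omit [Algebra k0 K] [IsScalarTower k0 (MvPolynomial (Fin N) k0) K] in
lemma deg {f : K} (hf : IsIntegral (MvPolynomial (Fin N) k0) f) (h0 : f ≠ 0) :
    ∑ σ : K →ₐ[K0] LaurentSeries L, (σ f).order ≤ 0 := by
  obtain ⟨p, hp⟩ := IsIntegrallyClosed.isIntegral_iff.1 (Algebra.isIntegral_norm K0 hf)
  have h1 : p ≠ 0 := by
    rintro rfl
    exact h0 (Algebra.norm_eq_zero_iff.1 (hp.symm.trans (map_zero _)))
  rw [← order_prod _ _ fun σ => (map_ne_zero σ).2 h0, ← norm_eq hs, ← hp, ho p h1, neg_nonpos]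
  positivity

lemma fd (m : ℤ) : ∃ W : Submodule k0 K, FiniteDimensional k0 W ∧
    ∀ f, IsIntegral (MvPolynomial (Fin N) k0) f →
      (∀ σ : K →ₐ[K0] LaurentSeries L, Ge m (σ f)) → f ∈ W := by
  classical
  obtain ⟨s, b, hb⟩ := FiniteDimensional.exists_is_basis_integral (MvPolynomial (Fin N) k0) K0 K
  obtain ⟨c, hc⟩ := (Set.finite_range fun x : s × (K →ₐ[K0] LaurentSeries L) =>
    (x.2 (b x.1)).order).bddBelow
  let g : s → MvPolynomial (Fin N) k0 →ₗ[k0] K := fun j =>
    (LinearMap.mulRight k0 (b.traceDual j)).comp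
      (IsScalarTower.toAlgHom k0 (MvPolynomial (Fin N) k0) K).toLinearMap
  refine ⟨⨆ j, (restrictTotalDegree (Fin N) k0 (-(m + c)).toNat).map (g j), inferInstance,
    fun f hf h => ?_⟩
  rw [← b.traceDual.sum_repr f]
  refine Submodule.sum_mem _ fun j _ => Submodule.mem_iSup_of_mem j ?_
  obtain ⟨p, hp⟩ := IsIntegrallyClosed.isIntegral_iff.1
    (Algebra.isIntegral_trace (L := K0) (hf.mul (hb j)))
  refine ⟨p, (mem_restrictTotalDegree _ _ _).2 ?_, ?_⟩
  · by_cases h1 : p = 0
    · simp [h1]
    have h2 : Ge (m + c) (algebraMap K0 (LaurentSeries L) (algebraMap _ K0 p)) := by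
      rw [hp, trace_eq hs]
      refine Ge.sum fun σ _ => ?_
      rw [map_mul]
      exact (h σ).mul ((ge_order _).mono (hc ⟨(j, σ), rfl⟩))
    have h3 := le_order h2 ((map_ne_zero _).2 (IsFractionRing.to_map_eq_zero_iff.not.2 h1))
    rw [ho p h1] at h3
    have h4 : (p.totalDegree : ℤ) ≤ ((n : ℕ) : ℤ) * p.totalDegree :=
      le_mul_of_one_le_left (by positivity) (by exact_mod_cast n.pos)
    omega
  · rw [Module.Basis.traceDual_repr_apply, Algebra.traceForm_apply, ← hp, Algebra.smul_def,
      ← IsScalarTower.algebraMap_apply]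
    rfl

end main

end Pre

open Pre in
theorem pPre : S_Pre := by
  intro k0 K _ _ _ _ s hs
  have : CharZero k0 := RingHom.charZero (algebraMap k0 K)
  let A := Algebra.adjoin k0 (s : Set K)
  have : Algebra.FiniteType k0 A :=
    (Subalgebra.fg_iff_finiteType _).1 (Subalgebra.fg_adjoin_finset s)
  obtain ⟨N, g, hg, hi⟩ := exists_integral_inj_algHom_of_fg k0 A
  let P := MvPolynomial (Fin N) k0
  let _ : Algebra P A := g.toRingHom.toAlgebra
  let _ : Algebra P K := (A.val.comp g).toRingHom.toAlgebra
  have : IsScalarTower P A K := .of_algebraMap_eq fun _ => rfl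
  have : IsScalarTower k0 P K := .of_algebraMap_eq fun a => ((A.val.comp g).commutes a).symm
  have : Algebra.IsIntegral P A := ⟨hi⟩
  have hinj : Function.Injective (algebraMap P K) := Subtype.val_injective.comp hg
  have : FaithfulSMul P K := (faithfulSMul_iff_algebraMap_injective _ _).2 hinj
  let K0 := FractionRing P
  let _ : Algebra K0 K := FractionRing.liftAlgebra P K
  have : IsScalarTower P K0 K := FractionRing.isScalarTower_liftAlgebra P K
  have hA : ∀ a ∈ A, IsIntegral P a := fun a ha =>
    (Algebra.IsIntegral.isIntegral (R := P) (⟨a, ha⟩ : A)).algebraMap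
  have htop : IntermediateField.adjoin K0 (s : Set K) = ⊤ := by
    have h1 : ∀ a ∈ A, a ∈ IntermediateField.adjoin K0 (s : Set K) := fun a ha => by
      induction ha using Algebra.adjoin_induction with
      | mem x hx => exact IntermediateField.subset_adjoin _ _ hx
      | algebraMap r =>
        rw [IsScalarTower.algebraMap_apply k0 P K, IsScalarTower.algebraMap_apply P K0 K]
        exact IntermediateField.algebraMap_mem _ _
      | add x y _ _ hx hy => exact add_mem hx hy
      | mul x y _ _ hx hy => exact mul_mem hx hy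
    refine eq_top_iff.2 fun f _ => ?_
    obtain ⟨a, ha, b, hb, -, rfl⟩ := hs f
    exact div_mem (h1 a ha) (h1 b hb)
  have : FiniteDimensional K0 K := by
    have h1 := IntermediateField.finiteDimensional_adjoin (K := K0) (S := (s : Set K))
      fun x hx => (hA x (Algebra.subset_adjoin hx)).tower_top
    rw [htop] at h1
    exact IntermediateField.topEquiv.toLinearEquiv.finiteDimensional
  let L := AlgebraicClosure K0
  let z : Fin N → L := fun i => algebraMap P L (X i)
  have hz : AlgebraicIndependent k0 z :=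
    (MvPolynomial.algebraicIndependent_X (Fin N) k0).map' (f := IsScalarTower.toAlgHom k0 P L)
      ((algebraMap K0 L).injective.comp (IsFractionRing.injective P K0))
  have hφ : Function.Injective (sb (k0 := k0) z) :=
    (injective_iff_map_eq_zero _).2 fun p h => by_contra fun hp => (sb_lead z hz hp).1 h
  obtain ⟨n, hn⟩ := all_split (K := K) (IsFractionRing.lift (K := K0) hφ)
  let _ : Algebra K0 (LaurentSeries L) := ((ram n).comp (IsFractionRing.lift (K := K0) hφ)).toAlgebra
  have he : ∀ p : P, algebraMap K0 (LaurentSeries L) (algebraMap P K0 p) = ram n (sb z p) :=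
    fun p => congrArg (ram n) (IsFractionRing.lift_algebraMap hφ p)
  have ho : ∀ p : P, p ≠ 0 → (algebraMap K0 (LaurentSeries L) (algebraMap P K0 p)).order =
      -(((n : ℕ) : ℤ) * p.totalDegree) := fun p hp => by
    rw [he, order_ram, (sb_lead z hz hp).2, mul_neg]
  have hψ : ∀ (σ : K →ₐ[K0] LaurentSeries L) (p : P), σ (algebraMap P K p) = ram n (sb z p) :=
    fun σ p => by rw [IsScalarTower.algebraMap_apply P K0 K, σ.commutes, he]
  refine ⟨L, K →ₐ[K0] LaurentSeries L, inferInstance, inferInstance, inferInstance, inferInstance,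
    fun σ => σ.toRingHom, N, fun i => algebraMap P K (X i), z, n, ?_, hz, fun f => ?_,
    fun σ a => ?_, fun σ j => ?_, fun f hf h0 => deg hn ho (isIntegral_trans f hf) h0,
    fun m => ?_⟩
  · exact (MvPolynomial.algebraicIndependent_X (Fin N) k0).map'
      (f := IsScalarTower.toAlgHom k0 P K) hinj
  · have h1 : IsAlgebraic P f :=
      (IsFractionRing.isAlgebraic_iff P K0 K).2 (IsAlgebraic.of_finite K0 f)
    have h2 : ∀ p : P, algebraMap P K p ∈
        Algebra.adjoin k0 (Set.range fun i => algebraMap P K (X i)) := fun p => by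
      rw [Algebra.adjoin_range_eq_range_aeval]
      refine ⟨p, ?_⟩
      exact (DFunLike.congr_fun (aeval_unique (IsScalarTower.toAlgHom k0 P K)) p).symm
    let j := (algebraMap P K).codRestrict _ h2
    obtain ⟨p, hp, hf⟩ := h1
    have hj : Function.Injective j := fun a b h => by
      have h' := congrArg Subtype.val h
      exact hinj h'
    refine ⟨p.map j, (Polynomial.map_ne_zero_iff hj).2 hp, ?_⟩
    rw [Polynomial.aeval_def, Polynomial.eval₂_map]
    exact hf
  · exact (congrArg σ (IsScalarTower.algebraMap_apply k0 P K a)).trans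
      ((hψ σ _).trans ((congrArg (ram n) (sb_C z a)).trans (ram_C _ _)))
  · refine (hψ σ _).trans ?_
    rw [sb_X, ram_single, mul_neg_one]
  · obtain ⟨W, h1, h2⟩ := fd (K := K) hn ho m
    exact ⟨W, h1, fun f hf => h2 f (isIntegral_trans f hf)⟩

end Pool.Agent.P.MP_84b56d_ag.PC
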