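import Pool.Agent.P.MP_84b56d_ag.PC.St

/-! The integral points of the surface are dense. -/

open Polynomial

noncomputable section

namespace Pool.Agent.P.MP_84b56d_ag.PC

section seq

variable {R S : Type} [CommRing R] [CommRing S]

/-- The powers of `w + √(w ^ 2 - 1)`. -/
def ptsSeq (w : R) : ℕ → R × R
  | 0 => (1, 0)
  | m + 1 => (w * (ptsSeq w m).1 + (w ^ 2 - 1) * (ptsSeq w m).2,
      (ptsSeq w m).1 + w * (ptsSeq w m).2)

lemma pts_pell (w : R) (m : ℕ) :
    (ptsSeq w m).1 ^ 2 - (w ^ 2 - 1) * (ptsSeq w m).2 ^ 2 = 1 := by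
  induction m with
  | zero => simp [ptsSeq]
  | succ m ih =>
    simp only [ptsSeq]
    linear_combination ih

lemma pts_map (g : R →+* S) (w : R) (m : ℕ) :
    g (ptsSeq w m).1 = (ptsSeq (g w) m).1 ∧ g (ptsSeq w m).2 = (ptsSeq (g w) m).2 := by
  induction m with
  | zero => simp [ptsSeq]
  | succ m ih => simp [ptsSeq, ih.1, ih.2]

lemma pts_one (m : ℕ) : (ptsSeq (1 : R) m).1 = 1 ∧ (ptsSeq (1 : R) m).2 = m := by
  induction m with
  | zero => simp [ptsSeq]
  | succ m ih => simp [ptsSeq, ih.1, ih.2, add_comm]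

lemma pts_mem (A : Subring R) {w : R} (hw : w ∈ A) (m : ℕ) :
    (ptsSeq w m).1 ∈ A ∧ (ptsSeq w m).2 ∈ A := by
  induction m with
  | zero => exact ⟨A.one_mem, A.zero_mem⟩
  | succ m ih =>
    exact ⟨add_mem (mul_mem hw ih.1) (mul_mem (sub_mem (pow_mem hw 2) (one_mem _)) ih.2),
      add_mem ih.1 (mul_mem hw ih.2)⟩

/-- The second coordinate of the points. -/
def ptsY (e : R) (q : Fin 18 → R) (b : R) (m : ℕ) : R :=
  (pY e).eval b * (ptsSeq ((pw e q).eval b) m).2

lemma pts_mapY (g : R →+* S) (e : R) (q : Fin 18 → R) (b : R) (m : ℕ) :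
    g (ptsY e q b m) = ptsY (g e) (fun i => g (q i)) (g b) m := by
  rw [ptsY, ptsY, map_mul, (pts_map g _ m).2, ← map_pY, ← map_pw, eval_map_apply, eval_map_apply]

lemma pts_eq (e : R) (q : Fin 18 → R) (b : R) (m : ℕ) :
    (ptsSeq ((pw e q).eval b) m).1 ^ 2 - (pd e q).eval b * ptsY e q b m ^ 2 = 1 := by
  rw [ptsY]
  linear_combination pts_pell ((pw e q).eval b) m +
    (ptsSeq ((pw e q).eval b) m).2 ^ 2 * pell_eval e q b

end seq

variable {k : Type} [Field k] [CharZero k]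

lemma pts_inj {e : k} {q : Fin 18 → k} (h : Ind e q) (j : ℕ) :
    Function.Injective (ptsY e q (2 ^ j)) := by
  intro m n hmn
  let P := MvPolynomial (Option (Fin 18)) ℚ
  let g : P →+* k := (MvPolynomial.aeval fun o : Option (Fin 18) => o.elim e q :
    P →ₐ[ℚ] k).toRingHom
  have hg : Function.Injective g := h
  have key : ∀ m, g (ptsY (MvPolynomial.X none) (fun i => MvPolynomial.X (some i)) (2 ^ j) m) =
      ptsY e q (2 ^ j) m := fun m => by
    rw [pts_mapY, map_pow, map_ofNat]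
    congr 1
    · exact MvPolynomial.aeval_X _ _
    · funext i
      exact MvPolynomial.aeval_X _ _
  have h1 := congrArg (MvPolynomial.constantCoeff : P →+* ℚ)
    (hg ((key m).trans (hmn.trans (key n).symm)))
  rw [pts_mapY, pts_mapY, map_pow, map_ofNat] at h1
  simp only [MvPolynomial.constantCoeff_X, ptsY, eval_pw, eval_pY, eval_pq, zero_mul,
    Finset.sum_const_zero, mul_zero, add_zero, (pts_one _).2] at h1
  have h2 : (1 + 2 ^ j : ℚ) ≠ 0 := by positivity
  exact_mod_cast mul_left_cancel₀ h2 h1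

lemma pts_zero (y : ℕ → ℕ → k) (hy : ∀ j, Function.Injective (y j)) (g : k[X][X])
    (h : ∀ j m, eval₂ (evalRingHom ((2 : k) ^ j)) (y j m) g = 0) : g = 0 := by
  have h1 : ∀ j : ℕ, g.map (evalRingHom ((2 : k) ^ j)) = 0 := fun j => by
    refine eq_zero_of_infinite_isRoot _ ((Set.infinite_range_of_injective (hy j)).mono ?_)
    rintro _ ⟨m, rfl⟩
    change IsRoot _ _
    rw [IsRoot, eval_map]
    exact h j m
  have h2 : Function.Injective fun j : ℕ => (2 : k) ^ j := fun a b hab => by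
    have : ((2 ^ a : ℕ) : k) = ((2 ^ b : ℕ) : k) := by simpa using hab
    exact Nat.pow_right_injective le_rfl (Nat.cast_injective this)
  ext1 i
  refine eq_zero_of_infinite_isRoot _ ((Set.infinite_range_of_injective h2).mono ?_)
  rintro _ ⟨j, rfl⟩
  have := congrArg (fun p => coeff p i) (h1 j)
  simpa using this

omit [CharZero k] in
lemma pts_ev {d : k[X]} (φ : Bq d →ₐ[k] k) (p : k[X][X]) :
    φ (evB d p) = eval₂ (evalRingHom (φ (co d 2))) (φ (co d 1)) p := by
  have : (φ : Bq d →+* k).comp (evB d) = eval₂RingHom (evalRingHom (φ (co d 2))) (φ (co d 1)) := by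
    refine Polynomial.ringHom_ext (fun p => ?_) ?_
    · have : evB d (C p) = aeval (co d 2) p := by simp [evB]
      change φ (evB d (C p)) = eval₂ _ _ (C p)
      rw [this, ← aeval_algHom_apply, eval₂_C, coe_evalRingHom, coe_aeval_eq_eval]
    · have : evB d X = co d 1 := by simp [evB]
      change φ (evB d X) = eval₂ _ _ X
      rw [this, eval₂_X]
  exact RingHom.congr_fun this p

theorem pPts (hN : S_NF) : S_Pts := by
  intro k _ _ e q A hI he hq h2 f hf
  by_contra hc
  push Not at hc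
  obtain ⟨r, f₀, f₁, h⟩ := hN k (pd e q) f
  have hb : ∀ j : ℕ, (2 : k) ^ j ∈ A := fun j => pow_mem (ofNat_mem A 2) j
  have hY : ∀ j : ℕ, (pY e).eval ((2 : k) ^ j) ∈ A := fun j => by
    rw [eval_pY]
    exact add_mem (add_mem (one_mem _) (hb j)) (mul_mem he (pow_mem (hb j) _))
  have hw : ∀ j : ℕ, (pw e q).eval ((2 : k) ^ j) ∈ A := fun j => by
    rw [eval_pw, eval_pq]
    exact add_mem (one_mem _) (mul_mem (pow_mem (hY j) _)
      (sum_mem fun i _ => mul_mem (hq i) (pow_mem (hb j) _)))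
  have hy : ∀ j m : ℕ, ptsY e q (2 ^ j) m ∈ A := fun j m =>
    mul_mem (hY j) (pts_mem A (hw j) m).2
  have key : ∀ (j m : ℕ) (x : k), x ∈ A →
      x ^ 2 - (pd e q).eval (2 ^ j) * ptsY e q (2 ^ j) m ^ 2 = 1 →
      eval₂ (evalRingHom ((2 : k) ^ j)) (ptsY e q (2 ^ j) m) f₀ +
        eval₂ (evalRingHom ((2 : k) ^ j)) (ptsY e q (2 ^ j) m) f₁ * x = 0 := by
    intro j m x hx hp
    obtain ⟨φ, hφ⟩ := exists_pt (pd e q) ![x, ptsY e q (2 ^ j) m, (2 : k) ^ j, (2 : k)⁻¹ ^ j]
      (by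
        change x ^ 2 - aeval ((2 : k) ^ j) (pd e q) * ptsY e q (2 ^ j) m ^ 2 = 1
        rw [coe_aeval_eq_eval]
        exact hp)
      (by
        change (2 : k) ^ j * (2 : k)⁻¹ ^ j = 1
        rw [← mul_pow, mul_inv_cancel₀ two_ne_zero, one_pow])
    have h0 : φ f = 0 := by
      by_contra h0
      obtain ⟨i, hi⟩ := hc φ h0
      refine hi ?_
      rw [hφ]
      fin_cases i
      · exact hx
      · exact hy j m
      · exact hb j
      · exact pow_mem h2 j
    have h1 := congrArg φ h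
    rw [map_mul, h0, mul_zero, map_add, map_mul, pts_ev, pts_ev, hφ 0, hφ 1, hφ 2] at h1
    exact h1.symm
  have both : ∀ j m : ℕ, eval₂ (evalRingHom ((2 : k) ^ j)) (ptsY e q (2 ^ j) m) f₀ = 0 ∧
      eval₂ (evalRingHom ((2 : k) ^ j)) (ptsY e q (2 ^ j) m)
        (f₁ * (1 + C (pd e q) * X ^ 2)) = 0 := by
    intro j m
    have hx := (pts_mem A (hw j) m).1
    have hp := pts_eq e q (2 ^ j) m
    have a1 := key j m _ hx hp
    have a2 := key j m _ (neg_mem hx) (by rw [neg_sq]; exact hp)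
    constructor
    · exact mul_left_cancel₀ (two_ne_zero : (2 : k) ≠ 0) (by linear_combination a1 + a2)
    · rw [eval₂_mul, eval₂_add, eval₂_mul, eval₂_one, eval₂_C, eval₂_pow, eval₂_X, coe_evalRingHom]
      refine mul_left_cancel₀ (two_ne_zero : (2 : k) ≠ 0) ?_
      linear_combination (ptsSeq ((pw e q).eval (2 ^ j)) m).1 * (a1 - a2) -
        2 * eval₂ (evalRingHom ((2 : k) ^ j)) (ptsY e q (2 ^ j) m) f₁ * hp
  have z0 : f₀ = 0 := pts_zero _ (pts_inj hI) _ fun j m => (both j m).1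
  have z1 : f₁ = 0 := by
    refine (mul_eq_zero.1 (pts_zero _ (pts_inj hI) _ fun j m => (both j m).2)).resolve_right ?_
    intro h0
    simpa using congrArg (fun p => coeff p 0) h0
  rw [z0, z1, map_zero, zero_mul, add_zero] at h
  have h5 : (co (pd e q) 2 * co (pd e q) 3) ^ r = 1 := by rw [co_inv, one_pow]
  exact hf (by linear_combination co (pd e q) 3 ^ r * h - f * h5)

end Pool.Agent.P.MP_84b56d_ag.PC
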