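import Pool.Agent.P.MP_84b56d_ag.PC.St

/-! From near-integral points on an arbitrary model to integrality of coordinates. -/

open AlgebraicGeometry CategoryTheory Limits

noncomputable section

namespace Pool.Agent.P.MP_84b56d_ag.PC

lemma red1_fin {k C D : Type} [Field k] [CommRing C] [CommRing D] (a : C →+* D) (b : k →+* D)
    (h : Subring.closure (Set.range b ∪ Set.range a) = ⊤) (γ : D) :
    ∃ κ : Finset k, ∀ (ev : D →+* k) (O : Subring k), (∀ t, ev (b t) = t) →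
      (∀ c, ev (a c) ∈ O) → (∀ t ∈ κ, t ∈ O) → ev γ ∈ O := by
  classical
  have hγ : γ ∈ Subring.closure (Set.range b ∪ Set.range a) := h ▸ Subring.mem_top γ
  induction hγ using Subring.closure_induction with
  | mem x hx =>
    rcases hx with ⟨t, rfl⟩ | ⟨c, rfl⟩
    · exact ⟨{t}, fun ev O h1 _ h3 => by rw [h1]; exact h3 t (Finset.mem_singleton_self t)⟩
    · exact ⟨∅, fun ev O _ h2 _ => h2 c⟩
  | zero => exact ⟨∅, fun ev O _ _ _ => by rw [map_zero]; exact O.zero_mem⟩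
  | one => exact ⟨∅, fun ev O _ _ _ => by rw [map_one]; exact O.one_mem⟩
  | add x y _ _ hx hy =>
    obtain ⟨κ₁, h₁⟩ := hx
    obtain ⟨κ₂, h₂⟩ := hy
    refine ⟨κ₁ ∪ κ₂, fun ev O h1 h2 h3 => ?_⟩
    rw [map_add]
    exact O.add_mem (h₁ ev O h1 h2 fun t ht => h3 t (Finset.mem_union_left _ ht))
      (h₂ ev O h1 h2 fun t ht => h3 t (Finset.mem_union_right _ ht))
  | neg x _ hx =>
    obtain ⟨κ₁, h₁⟩ := hx
    refine ⟨κ₁, fun ev O h1 h2 h3 => ?_⟩
    rw [map_neg]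
    exact O.neg_mem (h₁ ev O h1 h2 h3)
  | mul x y _ _ hx hy =>
    obtain ⟨κ₁, h₁⟩ := hx
    obtain ⟨κ₂, h₂⟩ := hy
    refine ⟨κ₁ ∪ κ₂, fun ev O h1 h2 h3 => ?_⟩
    rw [map_mul]
    exact O.mul_mem (h₁ ev O h1 h2 fun t ht => h3 t (Finset.mem_union_left _ ht))
      (h₂ ev O h1 h2 fun t ht => h3 t (Finset.mem_union_right _ ht))

lemma red1_pushout {R C K D : CommRingCat.{0}} {c : R ⟶ C} {j : R ⟶ K} {a : C ⟶ D} {b : K ⟶ D}
    (h : IsPullback (Spec.map a) (Spec.map b) (Spec.map c) (Spec.map j)) : IsPushout j c b a := by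
  have h' : IsPullback a.op b.op c.op j.op := IsPullback.of_map_of_faithful Scheme.Spec h
  exact h'.unop

lemma red1_piece {k B : Type} [Field k] [CommRing B] [Algebra k B]
    (U : (Spec (.of B)).Opens) (T : Finset B) (a₁ a₂ : B)
    (hU : ∀ z : PrimeSpectrum B, z ∈ U → a₁ ∉ z.asIdeal ∨ a₂ ∉ z.asIdeal)
    (A : Subring k) {𝒳 : Scheme.{0}} (f : 𝒳 ⟶ Spec (.of A)) (g : U.toScheme ⟶ 𝒳)
    (hpb : IsPullback g (U.ι ≫ Spec.map (CommRingCat.ofHom (algebraMap k B))) f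
      (Spec.map (CommRingCat.ofHom A.subtype)))
    {C : CommRingCat.{0}} (v : Spec C ⟶ 𝒳) :
    ∃ κ : Finset k, ∀ (x : Spec (.of k) ⟶ U.toScheme) (φ : CommRingCat.of B ⟶ .of k)
      (y : C ⟶ .of k) (O : Subring k),
      x ≫ U.ι ≫ Spec.map (CommRingCat.ofHom (algebraMap k B)) = 𝟙 _ → x ≫ U.ι = Spec.map φ →
      x ≫ g = Spec.map y ≫ v → (∀ c, y.hom c ∈ O) → (∀ t ∈ κ, t ∈ O) →
        (∀ t ∈ T, φ.hom t ∈ O) ∧ ∃ α ∈ O, ∃ β ∈ O, α * φ.hom a₁ + β * φ.hom a₂ = 1 := by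
  classical
  have : IsAffineHom g := MorphismProperty.of_isPullback hpb.flip inferInstance
  obtain ⟨D, gg, w, h1⟩ : ∃ (D : CommRingCat.{0}) (gg : Spec D ⟶ Spec C)
      (w : Spec D ⟶ U.toScheme), IsPullback gg w v g := by
    have : IsAffine (pullback v g) := IsAffine.of_isPullback (IsPullback.of_hasPullback v g)
    refine ⟨_, (pullback v g).isoSpec.inv ≫ pullback.fst v g,
      (pullback v g).isoSpec.inv ≫ pullback.snd v g, ?_⟩
    exact (IsPullback.of_hasPullback v g).of_iso (pullback v g).isoSpec (Iso.refl _) (Iso.refl _)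
      (Iso.refl _) (by simp) (by simp) (by simp) (by simp)
  have h2 := h1.paste_vert hpb
  obtain ⟨a, rfl⟩ := Spec.map_surjective gg
  obtain ⟨r, hr⟩ := Spec.map_surjective (w ≫ U.ι)
  obtain ⟨c, hc⟩ := Spec.map_surjective (v ≫ f)
  rw [← hc, ← Category.assoc, ← hr, ← Spec.map_comp] at h2
  have h3 := CommRingCat.closure_range_union_range_eq_top_of_isPushout (red1_pushout h2)
  choose κf hκ using red1_fin a.hom (CommRingCat.ofHom (algebraMap k B) ≫ r).hom h3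
  have hspan : Ideal.span {r.hom a₁, r.hom a₂} = ⊤ := by
    by_contra hne
    obtain ⟨m, hm, hle⟩ := Ideal.exists_le_maximal _ hne
    let p : PrimeSpectrum D := ⟨m, hm.isPrime⟩
    have hz : (Spec.map r) p ∈ U := by
      rw [hr, Scheme.Hom.comp_apply]
      exact (w p).2
    rcases hU _ hz with h | h
    · exact h (hle (Ideal.subset_span (by simp)))
    · exact h (hle (Ideal.subset_span (by simp)))
  obtain ⟨α, β, hαβ⟩ := Ideal.mem_span_pair.1 (hspan ▸ Submodule.mem_top :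
    (1 : D) ∈ Ideal.span {r.hom a₁, r.hom a₂})
  refine ⟨(T.biUnion fun t => κf (r.hom t)) ∪ (κf α ∪ κf β), fun x φ y O hx hφ hy hO hκO => ?_⟩
  obtain ⟨ev, hev⟩ := Spec.map_surjective (h1.lift (Spec.map y) x hy.symm)
  have e1 : a ≫ ev = y := by
    apply Spec.map_injective
    rw [Spec.map_comp, hev, h1.lift_fst]
  have e2 : r ≫ ev = φ := by
    apply Spec.map_injective
    rw [Spec.map_comp, hev, hr, ← Category.assoc, h1.lift_snd, hφ]
  have e3 : (CommRingCat.ofHom (algebraMap k B) ≫ r) ≫ ev = 𝟙 _ := by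
    apply Spec.map_injective
    rw [Category.assoc, e2, Spec.map_comp, ← hφ, Category.assoc, hx, Spec.map_id]
  have k1 : ∀ t, ev.hom ((CommRingCat.ofHom (algebraMap k B) ≫ r).hom t) = t := fun t => by
    have := congrArg (fun u => u.hom t) e3
    simpa using this
  have k2 : ∀ c, ev.hom (a.hom c) ∈ O := fun c => by
    have := hO c
    rw [← e1] at this
    simpa using this
  have k3 : ∀ t, ev.hom (r.hom t) = φ.hom t := fun t => by rw [← e2]; simp
  refine ⟨fun t ht => ?_, ev.hom α, ?_, ev.hom β, ?_, ?_⟩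
  · rw [← k3]
    exact hκ _ ev.hom O k1 k2 fun u hu =>
      hκO u (Finset.mem_union_left _ (Finset.mem_biUnion.2 ⟨t, ht, hu⟩))
  · exact hκ _ ev.hom O k1 k2 fun u hu =>
      hκO u (Finset.mem_union_right _ (Finset.mem_union_left _ hu))
  · exact hκ _ ev.hom O k1 k2 fun u hu =>
      hκO u (Finset.mem_union_right _ (Finset.mem_union_right _ hu))
  · rw [← k3, ← k3, ← map_mul, ← map_mul, ← map_add, hαβ, map_one]

lemma red1_loc {k : Type} [Field k] (A O : Subring k) (hA : A ≤ O) (M : Submonoid A)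
    (R : Type) [CommRing R] [Algebra A R] [IsLocalization M R] (ψ : R →ₐ[A] k)
    (hM : ∀ s ∈ M, s ≠ 0 ∧ (s : k)⁻¹ ∈ O) (z : R) : ψ z ∈ O := by
  obtain ⟨⟨a, s⟩, h⟩ := IsLocalization.surj M z
  have h' : ψ z * ((s : A) : k) = (a : k) := by
    have := congrArg ψ h
    rwa [map_mul, AlgHom.commutes, AlgHom.commutes] at this
  have hs : ((s : A) : k) ≠ 0 := fun h0 => (hM s s.2).1 (Subtype.ext h0)
  rw [(eq_mul_inv_iff_mul_eq₀ hs).2 h']
  exact O.mul_mem (hA a.2) (hM s s.2).2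

theorem pRed1 : S_Red1 := by
  classical
  intro k B _ _ _ U T a₁ a₂ hU hS
  obtain ⟨A, 𝒳, f, g, hft, _, _, hqc, hpb, hd⟩ := hS
  have : CompactSpace 𝒳 := QuasiCompact.compactSpace_of_compactSpace f
  let 𝒰 := 𝒳.affineOpenCover
  obtain ⟨t, ht⟩ := isCompact_univ.elim_finite_subcover
    (fun i : 𝒰.I₀ => Set.range (𝒰.f i)) (fun i => (𝒰.f i).isOpenEmbedding.isOpen_range)
    (fun z _ => Set.mem_iUnion.2 ⟨𝒰.idx z, 𝒰.covers z⟩)
  choose κ hκ using fun i : 𝒰.I₀ => red1_piece U T a₁ a₂ hU A f g hpb (𝒰.f i)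
  refine ⟨A, t.biUnion κ, hft, fun h hh => ?_⟩
  obtain ⟨z, hzU, hz⟩ := hh
  obtain ⟨z', ⟨x, P, i, hP, hx, hxg, pt, rfl⟩, hz'⟩ := hd.exists_mem_open
    (U := ((U.ι ⁻¹ᵁ (PrimeSpectrum.basicOpen h) : U.toScheme.Opens) : Set U.toScheme))
    (TopologicalSpace.Opens.isOpen _) ⟨⟨z, hzU⟩, hz⟩
  obtain ⟨φ, hφ⟩ := Spec.map_surjective (x ≫ U.ι)
  have hc : CommRingCat.ofHom (algebraMap k B) ≫ φ = 𝟙 _ := by
    apply Spec.map_injective
    rw [Spec.map_comp, hφ, Category.assoc, hx, Spec.map_id]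
  let φ' : B →ₐ[k] k := ⟨φ.hom, fun c => by
    have := congrArg (fun u => u.hom c) hc
    simpa using this⟩
  refine ⟨φ', fun h0 => ?_, fun O hO hκO => ?_⟩
  · have h1 : (Spec.map φ) pt ∈ PrimeSpectrum.basicOpen h := by
      rw [hφ, Scheme.Hom.comp_apply]
      exact hz'
    refine h1 ?_
    change φ.hom h ∈ pt.asIdeal
    have h2 : φ.hom h = 0 := h0
    rw [h2]
    exact zero_mem _
  · obtain ⟨R, _, Q, ψ, hQ, hψ⟩ : ∃ (R : CommRingCat.{0}) (_ : IsLocalRing R) (Q : Spec R ⟶ 𝒳)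
        (ψ : R ⟶ .of k), x ≫ g = Spec.map ψ ≫ Q ∧ ∀ r, ψ.hom r ∈ O := by
      rcases hO.2 with h1 | ⟨p, hp, hp1, h1⟩
      · refine ⟨.of (FractionRing A), inferInstanceAs (IsLocalRing (FractionRing A)), P, _, hxg,
          fun r => ?_⟩
        exact red1_loc A O hO.1 (nonZeroDivisors A) (FractionRing A) i
          (fun s hs => ⟨nonZeroDivisors.ne_zero hs, h1 s s.2⟩) r
      · obtain ⟨Q, j, _, hj⟩ := hP.2 p hp1
        refine ⟨.of (Localization.AtPrime p), inferInstanceAs (IsLocalRing (Localization.AtPrime p)),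
          Q, CommRingCat.ofHom j.toRingHom ≫ CommRingCat.ofHom i.toRingHom, ?_, fun r => ?_⟩
        · rw [hxg, ← hj, Spec.map_comp, Category.assoc]
        · exact red1_loc A O hO.1 p.primeCompl (Localization.AtPrime p) (i.comp j)
            (fun s hs => ⟨fun h0 => hs (h0 ▸ p.zero_mem), h1 s hs⟩) r
    obtain ⟨l, hl, hm⟩ := Set.mem_iUnion₂.1 (ht (Set.mem_univ (Q (IsLocalRing.closedPoint R))))
    have hsub : Set.range Q ⊆ Set.range (𝒰.f l) := by
      rintro _ ⟨u, rfl⟩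
      exact ((IsLocalRing.specializes_closedPoint u).map Q.continuous).mem_open
        (𝒰.f l).isOpenEmbedding.isOpen_range hm
    obtain ⟨y, hy⟩ := Spec.map_surjective (IsOpenImmersion.lift (𝒰.f l) Q hsub)
    refine hκ l x φ (y ≫ ψ) O hx hφ.symm ?_ (fun c => hψ _) fun u hu =>
      hκO u (Finset.mem_biUnion.2 ⟨l, hl, hu⟩)
    rw [hQ, Spec.map_comp, Category.assoc, hy, IsOpenImmersion.lift_fac]

end Pool.Agent.P.MP_84b56d_ag.PC
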