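import Pool.Agent.P.MP_84b56d_ag.PC.St

/-! Residues at a place. -/

open Polynomial Ivrii.PX Ivrii.TA

noncomputable section

namespace Pool.Agent.P.MP_84b56d_ag.PC

variable {K L : Type} [Field K] [CharZero K] [Field L] [CharZero L]
  (ψ : K →+* LaurentSeries L)

lemma res_rat (q : ℚ) : Lead 0 (algebraMap ℚ L q) (ψ (algebraMap ℚ K q)) := by
  have h : ψ (algebraMap ℚ K q) = algebraMap L (LaurentSeries L) (algebraMap ℚ L q) :=
    RingHom.congr_fun (Subsingleton.elim (ψ.comp (algebraMap ℚ K))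
      ((algebraMap L (LaurentSeries L)).comp (algebraMap ℚ L))) q
  exact h ▸ Lead.const _

lemma res_aeval {f : K} {c : L} (h : Lead 0 c (ψ f)) (p : ℚ[X]) :
    Lead 0 (aeval c p) (ψ (aeval f p)) := by
  induction p using Polynomial.induction_on' with
  | add p q hp hq => simpa using hp.add hq
  | monomial m a =>
    have := (res_rat ψ a).mul (h.pow m)
    rw [aeval_monomial, aeval_monomial, map_mul, map_pow]
    exact this.cast (by simp) rfl

/-- An element algebraic over a subfield without poles has no pole. -/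
lemma res_alg (F : IntermediateField ℚ K) (hF : ∀ a ∈ F, Ge 0 (ψ a)) {g : K}
    (hg : IsAlgebraic F g) : Ge 0 (ψ g) := by
  obtain ⟨p, hp, h0⟩ := hg.isIntegral
  by_contra hn
  obtain ⟨h1, h2⟩ := not_or.1 (mt ge_iff.2 hn)
  obtain ⟨hc, hl⟩ := lead_order h1
  rw [← aeval_def, aeval_eq_sum_range, Finset.sum_range_succ, hp.coeff_natDegree, one_smul] at h0
  have h3 : Ge ((ψ g).order * (p.natDegree : ℕ) + 1)
      (ψ (∑ i ∈ Finset.range p.natDegree, p.coeff i • g ^ i)) := by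
    rw [map_sum]
    refine Ge.sum fun i hi => ?_
    have : (i : ℤ) < (p.natDegree : ℕ) := by exact_mod_cast Finset.mem_range.1 hi
    rw [Algebra.smul_def, map_mul, map_pow]
    exact ((hF _ (p.coeff i).2).mul (hl.pow i).1).mono (by nlinarith)
  have h4 := h3.lead0.add (hl.pow p.natDegree)
  rw [← map_pow, ← map_add, h0, map_zero, zero_add] at h4
  exact h4.ne_zero (pow_ne_zero _ hc) rfl

lemma res_two {f : K} (h : Triv ψ f) : ∀ g ∈ acl {f}, Ge 0 (ψ g) := fun g hg => by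
  refine res_alg ψ _ (fun a ha => ?_) (mem_acl.1 hg)
  obtain ⟨r, s, rfl⟩ := (IntermediateField.mem_adjoin_simple_iff ℚ a).1 ha
  by_cases hs : s = 0
  · simpa [hs] using Ge.zero 0
  · have := (res_aeval ψ h.1.lead r).div (res_aeval ψ h.1.lead s) fun h0 => h.2 ⟨s, hs, h0⟩
    rw [map_div₀]
    exact this.1.mono (by simp)

lemma res_one {f : K} (hf : f ∉ acl (∅ : Set K)) (h : ∀ g ∈ acl {f}, Ge 0 (ψ g)) : Triv ψ f := by
  have hm : f ∈ acl {f} := subset_acl _ rfl
  refine ⟨h f hm, ?_⟩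
  rintro ⟨p, hp, h0⟩
  have hne : aeval f p ≠ 0 := fun h1 => hf (mem_acl_empty.2 ⟨p, hp, h1⟩)
  have hmem : aeval f p ∈ acl {f} := by
    rw [aeval_eq_sum_range]
    exact sum_mem fun i _ => by
      rw [Algebra.smul_def]
      exact mul_mem (by simp) (pow_mem hm _)
  have h1 := (res_aeval ψ (h f hm).lead p).mul (h _ (inv_mem hmem)).lead
  rw [h0, zero_mul, ← map_mul, mul_inv_cancel₀ hne, map_one, add_zero] at h1
  exact zero_ne_one (h1.eq Lead.one)

lemma res_three {f : K} (h : Triv ψ f) : f ^ 2 - 1 ≠ 0 ∧ (ψ (f ^ 2 - 1)).order = 0 := by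
  have h1 := res_aeval ψ h.1.lead (X ^ 2 - C 1)
  have hc : aeval ((ψ f).coeff 0) (X ^ 2 - C 1 : ℚ[X]) ≠ 0 := fun h0 =>
    h.2 ⟨_, X_pow_sub_C_ne_zero two_pos 1, h0⟩
  have e : aeval f (X ^ 2 - C 1 : ℚ[X]) = f ^ 2 - 1 := by simp
  rw [e] at h1
  exact ⟨fun h0 => h1.ne_zero hc (by rw [h0, map_zero]), order_of_lead h1 hc⟩

/-- Algebraic numbers have algebraic residues. -/
lemma res_num {a : K} (ha : a ∈ acl (∅ : Set K)) :
    Ge 0 (ψ a) ∧ IsAlgebraic ℚ ((ψ a).coeff 0) := by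
  have h1 : Ge 0 (ψ a) := by
    refine res_alg ψ _ (fun b hb => ?_) (mem_acl.1 ha)
    rw [IntermediateField.adjoin_empty, IntermediateField.mem_bot] at hb
    obtain ⟨q, rfl⟩ := hb
    exact (res_rat ψ q).1
  obtain ⟨p, hp, h0⟩ := mem_acl_empty.1 ha
  have h2 := res_aeval ψ h1.lead p
  rw [h0, map_zero] at h2
  exact ⟨h1, p, hp, h2.2.symm⟩

lemma res_four (W : K[X]) (h : Triv ψ (W.coeff 0)) :
    {c | c ∈ acl (∅ : Set K) ∧ Ge 0 (ψ (W.eval c)) ∧ ¬ Triv ψ (W.eval c)}.Finite := by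
  classical
  by_contra hinf
  obtain ⟨s, hs, hcard⟩ := Set.Infinite.exists_subset_card_eq hinf (W.natDegree + 1)
  have hW : W = Lagrange.interpolate s id fun c => W.eval c :=
    Lagrange.eq_interpolate (v := id) (Set.injOn_id _)
      (lt_of_le_of_lt degree_le_natDegree (by rw [hcard]; exact_mod_cast Nat.lt_succ_self _))
  have h0 : W.coeff 0 = ∑ c ∈ s, W.eval c * (Lagrange.basis s id c).eval 0 := by
    rw [coeff_zero_eq_eval_zero]
    conv_lhs => rw [hW]
    simp [Lagrange.interpolate_apply, eval_finsetSum]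
  have key : Ge 0 (ψ (W.coeff 0)) ∧ IsAlgebraic ℚ ((ψ (W.coeff 0)).coeff 0) := by
    rw [h0]
    refine Finset.sum_induction _ (fun a => Ge 0 (ψ a) ∧ IsAlgebraic ℚ ((ψ a).coeff 0))
      (fun a b ha hb => ?_) (res_num ψ (zero_mem _)) fun c hc => ?_
    · have := ha.1.lead.add hb.1.lead
      rw [← map_add] at this
      exact ⟨this.1, this.2 ▸ ha.2.add hb.2⟩
    · obtain ⟨h1, h2, h3⟩ := hs hc
      have h4 : IsAlgebraic ℚ ((ψ (W.eval c)).coeff 0) := by
        by_contra h5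
        exact h3 ⟨h2, h5⟩
      have h5 : (Lagrange.basis s id c).eval 0 ∈ acl (∅ : Set K) := by
        rw [Lagrange.basis, eval_prod]
        refine prod_mem fun j hj => ?_
        have hj' := (hs (Finset.mem_of_mem_erase hj)).1
        simp only [Lagrange.basisDivisor, id, eval_mul, eval_C, eval_sub, eval_X]
        exact mul_mem (inv_mem (sub_mem h1 hj')) (sub_mem (zero_mem _) hj')
      obtain ⟨h6, h7⟩ := res_num ψ h5
      have := h2.lead.mul h6.lead
      rw [← map_mul, add_zero] at this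
      exact ⟨this.1, this.2 ▸ h4.mul h7⟩
  exact h.2 key.2

theorem pRes : S_Res := fun _ _ _ _ _ _ ψ =>
  ⟨fun _ => res_one ψ, fun _ => res_two ψ, fun _ => res_three ψ, res_four ψ⟩

end Pool.Agent.P.MP_84b56d_ag.PC
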