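import Pool.Agent.P.MP_84b56d_ag.PC.St

/-! The surface is smooth, and the removed points have codimension two. -/

open Polynomial AlgebraicGeometry CategoryTheory

noncomputable section

namespace Pool.Agent.P.MP_84b56d_ag.PC

lemma smooth_formal (k : Type) [Field k] [CharZero k] (d : k[X]) :
    Algebra.FormallySmooth k (Bq d) := by
  refine Algebra.FormallySmooth.of_comp_surjective fun B _ _ I hI f => ?_
  choose v hv using fun i => Ideal.Quotient.mk_surjective (f (co d i))
  have hv' : ∀ i, Ideal.Quotient.mkₐ k I (v i) = f (co d i) := hv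
  have hsq : ∀ a : B, Ideal.Quotient.mkₐ k I a = 0 → a * a = 0 := fun a ha => by
    have h1 : a ∈ I := Ideal.Quotient.eq_zero_iff_mem.1 ha
    have h2 : a * a ∈ I ^ 2 := by rw [pow_two]; exact Ideal.mul_mem_mul h1 h1
    rwa [hI, Ideal.mem_bot] at h2
  obtain ⟨h, hh⟩ : ∃ h : B, 2 * h = 1 := ⟨algebraMap k B 2⁻¹, by
    rw [← map_ofNat (algebraMap k B) 2, ← map_mul, mul_inv_cancel₀ two_ne_zero, map_one]⟩
  obtain ⟨e, he⟩ : ∃ e : B, e = v 0 ^ 2 - aeval (v 2) d * v 1 ^ 2 - 1 := ⟨_, rfl⟩
  have e0 : Ideal.Quotient.mkₐ k I e = 0 := by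
    rw [he, map_sub, map_sub, map_mul, map_pow, map_pow, ← aeval_algHom_apply, hv', hv', hv',
      map_one, aeval_algHom_apply, ← map_pow, ← map_pow, ← map_mul, ← map_sub, co_pell, map_one,
      sub_self]
  have c0 : Ideal.Quotient.mkₐ k I (1 - v 2 * v 3) = 0 := by
    rw [map_sub, map_mul, hv', hv', ← map_mul, co_inv, map_one, map_one, sub_self]
  have e2 := hsq _ e0
  have c2 := hsq _ c0
  obtain ⟨φ, hφ⟩ := exists_pt d
    ![v 0 * (1 - h * e), v 1 * (1 - h * e), v 2, v 3 * (1 + (1 - v 2 * v 3))]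
    (by
      change (v 0 * (1 - h * e)) ^ 2 - aeval (v 2) d * (v 1 * (1 - h * e)) ^ 2 = 1
      linear_combination (-(1 - h * e) ^ 2) * he - e * hh + (h ^ 2 - 2 * h + h ^ 2 * e) * e2)
    (by
      change v 2 * (v 3 * (1 + (1 - v 2 * v 3))) = 1
      linear_combination -c2)
  refine ⟨φ, AlgHom.coe_ringHom_injective (pt_ext d (fun r => by simp) fun i => ?_)⟩
  change Ideal.Quotient.mkₐ k I (φ (co d i)) = f (co d i)
  rw [hφ]
  fin_cases i
  · change Ideal.Quotient.mkₐ k I (v 0 * (1 - h * e)) = f (co d 0)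
    rw [map_mul, map_sub, map_mul, e0, mul_zero, sub_zero, map_one, mul_one, hv']
  · change Ideal.Quotient.mkₐ k I (v 1 * (1 - h * e)) = f (co d 1)
    rw [map_mul, map_sub, map_mul, e0, mul_zero, sub_zero, map_one, mul_one, hv']
  · exact hv' 2
  · change Ideal.Quotient.mkₐ k I (v 3 * (1 + (1 - v 2 * v 3))) = f (co d 3)
    rw [map_mul, map_add, c0, add_zero, map_one, mul_one, hv']

theorem pSmooth : S_Smooth := by
  intro k _ _ d
  have h1 : Algebra.FiniteType k (Bq d) := inferInstance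
  have h2 : Algebra.FinitePresentation k (Bq d) := Algebra.FinitePresentation.of_finiteType.1 h1
  have h3 : Algebra.Smooth k (Bq d) := ⟨smooth_formal k d, h2⟩
  exact ⟨(HasRingHomProperty.Spec_iff (P := @Smooth)).2 (RingHom.smooth_algebraMap.2 h3),
    (HasRingHomProperty.Spec_iff (P := @LocallyOfFiniteType)).2
      (RingHom.finiteType_algebraMap.2 h1)⟩

lemma smooth_y_ne (k : Type) [Field k] [IsAlgClosed k] (d : k[X]) : co d 1 ≠ 0 := by
  obtain ⟨ρ, hρ⟩ := IsAlgClosed.exists_pow_nat_eq (1 + aeval (1 : k) d) two_pos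
  obtain ⟨φ, hφ⟩ := exists_pt d ![ρ, 1, 1, 1]
    (by
      change ρ ^ 2 - aeval (1 : k) d * 1 ^ 2 = 1
      rw [hρ]; ring)
    (by change (1 : k) * 1 = 1; ring)
  intro h
  have := hφ 1
  rw [h, map_zero] at this
  exact zero_ne_one this

lemma smooth_factor {k E : Type} [Field k] [CommRing E] [Algebra k E] (d : k[X]) (σ : k)
    (π : Bq d →ₐ[k] E) (hx : π (co d 0) = π (algebraMap k _ σ)) (hy : π (co d 1) = 0)
    (φ : Bq d →ₐ[k] Localization.Away (X : k[X]))
    (hφ : ∀ i, φ (co d i) = ![algebraMap k _ σ, 0, algebraMap k[X] _ X,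
      IsLocalization.Away.invSelf (X : k[X])] i) (f : Bq d) (hf : φ f = 0) : π f = 0 := by
  let L := Localization.Away (X : k[X])
  let g : k[X] →+* E := (aeval (π (co d 2)) : k[X] →ₐ[k] E)
  have hgX : g X = π (co d 2) := aeval_X _
  have hinv : π (co d 2) * π (co d 3) = 1 := by rw [← map_mul, co_inv, map_one]
  have hu : IsUnit (g X) := by
    rw [hgX]
    exact IsUnit.of_mul_eq_one _ hinv
  let θ : L →+* E := IsLocalization.Away.lift (X : k[X]) hu
  have hθ : ∀ p, θ (algebraMap k[X] L p) = g p := fun p => IsLocalization.Away.lift_eq _ hu p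
  have hθk : ∀ r : k, θ (algebraMap k L r) = π (algebraMap k _ r) := fun r => by
    rw [IsScalarTower.algebraMap_apply k k[X] L, hθ, π.commutes]
    exact (aeval (π (co d 2)) : k[X] →ₐ[k] E).commutes r
  have hc : θ.comp (φ : Bq d →+* L) = (π : Bq d →+* E) := by
    refine pt_ext d (fun r => ?_) fun i => ?_
    · change θ (φ (algebraMap k _ r)) = π _
      rw [φ.commutes, hθk]
    · change θ (φ (co d i)) = π _
      rw [hφ]
      fin_cases i
      · change θ (algebraMap k L σ) = π (co d 0)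
        rw [hθk, hx]
      · change θ 0 = π (co d 1)
        rw [map_zero, hy]
      · change θ (algebraMap k[X] L X) = π (co d 2)
        rw [hθ, hgX]
      · change θ (IsLocalization.Away.invSelf (X : k[X])) = π (co d 3)
        have h := congrArg θ (IsLocalization.Away.mul_invSelf (S := L) (X : k[X]))
        rw [map_mul, hθ, hgX, map_one] at h
        linear_combination π (co d 3) * h - θ (IsLocalization.Away.invSelf (X : k[X])) * hinv
  have h : θ (φ f) = π f := RingHom.congr_fun hc f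
  rw [← h, hf, map_zero]

lemma smooth_quot (k B : Type) [Field k] [CommRing B] [Algebra k B] (z : Ideal B) :
    ∃ (E : Type) (_ : CommRing E) (_ : Algebra k E) (π : B →ₐ[k] E), ∀ f, π f = 0 ↔ f ∈ z :=
  ⟨B ⧸ z, inferInstance, inferInstance, Ideal.Quotient.mkₐ k z,
    fun _ => Ideal.Quotient.eq_zero_iff_mem⟩

lemma smooth_height (k : Type) [Field k] [IsAlgClosed k] (d Y : k[X]) [IsDomain (Bq d)]
    (hY : Y ≠ 0) (z : Ideal (Bq d)) [hz : z.IsPrime] (h1 : co d 1 ∈ z)
    (h2 : aeval (co d 2) Y ∈ z) : 2 ≤ z.height := by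
  obtain ⟨σ, hσ, hx⟩ : ∃ σ : k, σ ^ 2 = 1 ∧ co d 0 - algebraMap k _ σ ∈ z := by
    have h : (co d 0 - 1) * (co d 0 + 1) ∈ z := by
      have : (co d 0 - 1) * (co d 0 + 1) = aeval (co d 2) d * co d 1 * co d 1 := by
        linear_combination co_pell d
      rw [this]
      exact z.mul_mem_left _ h1
    rcases hz.mem_or_mem h with h | h
    · exact ⟨1, by ring, by simpa using h⟩
    · exact ⟨-1, by ring, by simpa using h⟩
  let L := Localization.Away (X : k[X])
  have hle : Submonoid.powers (X : k[X]) ≤ nonZeroDivisors k[X] :=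
    powers_le_nonZeroDivisors_of_noZeroDivisors X_ne_zero
  have : IsDomain L := IsLocalization.isDomain_localization hle
  have hinj : Function.Injective (algebraMap k[X] L) := IsLocalization.injective L hle
  obtain ⟨φ, hφ⟩ := exists_pt d
    ![algebraMap k L σ, 0, algebraMap k[X] L X, IsLocalization.Away.invSelf (X : k[X])]
    (by
      change algebraMap k L σ ^ 2 - aeval (algebraMap k[X] L X) d * 0 ^ 2 = 1
      rw [← map_pow, hσ, map_one]; ring)
    (IsLocalization.Away.mul_invSelf (X : k[X]))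
  let p : Ideal (Bq d) := RingHom.ker (φ : Bq d →+* L)
  have hp : p.IsPrime := RingHom.ker_isPrime _
  have hb : (⊥ : Ideal (Bq d)).IsPrime := Ideal.isPrime_bot
  obtain ⟨E, _, _, π, hπ⟩ := smooth_quot k (Bq d) z
  have hpz : p ≤ z := fun f hf =>
    (hπ f).1 (smooth_factor d σ π (sub_eq_zero.1 (by rw [← map_sub]; exact (hπ _).2 hx))
      ((hπ _).2 h1) φ hφ f hf)
  have l1 : (⊥ : Ideal (Bq d)) < p := by
    refine bot_lt_iff_ne_bot.2 fun h => smooth_y_ne k d ?_
    have : co d 1 ∈ p := hφ 1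
    rwa [h, Ideal.mem_bot] at this
  have l2 : p < z := by
    refine lt_of_le_of_ne hpz fun h => hY (hinj ?_)
    rw [← h] at h2
    have h3 : φ (aeval (co d 2) Y) = 0 := h2
    rw [← aeval_algHom_apply, hφ 2] at h3
    change aeval (algebraMap k[X] L X) Y = 0 at h3
    rw [aeval_algebraMap_apply, aeval_X_left_apply] at h3
    rw [h3, map_zero]
  have a1 := Ideal.height_add_one_le_of_lt_of_isPrime l1
  have a2 := Ideal.height_add_one_le_of_lt_of_isPrime l2
  calc (2 : ℕ∞) = 0 + 1 + 1 := by norm_num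
    _ ≤ (⊥ : Ideal (Bq d)).height + 1 + 1 := by gcongr; exact zero_le
    _ ≤ p.height + 1 := by gcongr
    _ ≤ z.height := a2

theorem pCodim (_ : S_NF) : S_Codim := by
  intro k _ _ _ d Y hD hY z h1 h2
  have h := smooth_height k d Y hY z.asIdeal h1 h2
  rw [ringKrullDim_eq_of_ringEquiv
    (Spec.stalkIso (R := .of (Bq d)) z).commRingCatIsoToRingEquiv]
  change 2 ≤ ringKrullDim (Localization.AtPrime z.asIdeal)
  rw [IsLocalization.AtPrime.ringKrullDim_eq_height z.asIdeal (Localization.AtPrime z.asIdeal)]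
  exact WithBot.coe_le_coe.2 h

end Pool.Agent.P.MP_84b56d_ag.PC
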