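import Pool.Agent.P.MP_84b56d_ag.PC.St

/-! One step of the induction of part B1. -/

open Polynomial

noncomputable section

namespace Pool.Agent.P.MP_84b56d_ag.PC

variable {Ω : Type} [Field Ω] [CharZero Ω]

lemma step_const (hD : S_Dep) {a : Ω} (ha : a ∈ acl (∅ : Set Ω)) (D : Der Ω) : D a = 0 := by
  obtain ⟨α, -, h⟩ := hD Ω Empty (fun i => i.elim) a (by rwa [Set.range_eq_empty])
  simpa using h D

lemma step_eval (W : Polynomial Ω) {a : Ω} (D : Der Ω) (ha : D a = 0) :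
    D (W.eval a) = ∑ k ∈ Finset.range (W.natDegree + 1), a ^ k * D (W.coeff k) := by
  rw [eval_eq_sum_range, map_sum]
  refine Finset.sum_congr rfl fun k _ => ?_
  simp [Derivation.leibniz, Derivation.leibniz_pow, ha]

lemma step_eval' (W : Polynomial Ω) {a : Ω} (D : Der Ω) (ha : D a = 0) :
    D ((derivative W).eval a) =
      ∑ k ∈ Finset.range (W.natDegree + 1), ((k : Ω) * a ^ (k - 1)) * D (W.coeff k) := by
  rw [derivative_eval, sum_over_range _ (by simp), map_sum]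
  refine Finset.sum_congr rfl fun k _ => ?_
  simp only [Derivation.leibniz, Derivation.leibniz_pow, ha, smul_eq_mul, Derivation.map_natCast,
    mul_zero, smul_zero, zero_add]
  ring

/-- The wedge with a fixed exact form, as a linear map. -/
def step_wdL (h : Ω) : (Der Ω → Der Ω → Ω) →ₗ[acl (∅ : Set Ω)] (Der Ω → Der Ω → Der Ω → Ω) where
  toFun Φ := wd Φ h
  map_add' Φ Ψ := by
    funext D D' D''
    simp only [wd, Pi.add_apply]
    ring
  map_smul' c Φ := by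
    funext D D' D''
    simp only [wd, Pi.smul_apply, RingHom.id_apply, Subfield.smul_def, smul_eq_mul]
    ring

lemma step_wdL_apply (h : Ω) (Φ : Der Ω → Der Ω → Ω) : step_wdL h Φ = wd Φ h := rfl

lemma step_sum (n : ℕ) (u : ℕ → acl (∅ : Set Ω)) (w : ℕ → Ω) (h : Ω)
    (hh : ∀ D : Der Ω, D h = ∑ k ∈ Finset.range n, (u k : Ω) * D (w k)) (Φ : Der Ω → Der Ω → Ω) :
    ∑ k ∈ Finset.range n, u k • step_wdL (w k) Φ = wd Φ h := by
  funext D D' D''
  simp only [Finset.sum_apply, Pi.smul_apply, step_wdL_apply, wd, Subfield.smul_def, smul_eq_mul,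
    hh, Finset.mul_sum, ← Finset.sum_add_distrib]
  refine Finset.sum_congr rfl fun k _ => ?_
  ring

lemma step_span (T : Set (Ω × Ω)) {Φ : Der Ω → Der Ω → Ω}
    (hΦ : Φ ∈ Submodule.span (acl (∅ : Set Ω)) ((fun p : Ω × Ω => dl p.1 p.2) '' T)) :
    ∃ T' : Finset Ω, ∀ O : Subring Ω, (∀ r ∈ acl (∅ : Set Ω), r ∈ O) → ∀ D D' : Der Ω,
      (∀ g ∈ T', D g / g ∈ O) → (∀ g ∈ T', D' g / g ∈ O) → Φ D D' ∈ O := by
  classical
  induction hΦ using Submodule.span_induction with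
  | mem x hx =>
    obtain ⟨p, -, rfl⟩ := hx
    refine ⟨{p.1, p.2}, fun O _ D D' h1 h2 => ?_⟩
    exact sub_mem (mul_mem (h1 _ (by simp)) (h2 _ (by simp)))
      (mul_mem (h2 _ (by simp)) (h1 _ (by simp)))
  | zero => exact ⟨∅, fun O _ D D' _ _ => zero_mem O⟩
  | add x y _ _ hx hy =>
    obtain ⟨T₁, h₁⟩ := hx
    obtain ⟨T₂, h₂⟩ := hy
    refine ⟨T₁ ∪ T₂, fun O hO D D' h1 h2 => ?_⟩
    exact add_mem
      (h₁ O hO D D' (fun g hg => h1 g (Finset.mem_union_left _ hg))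
        fun g hg => h2 g (Finset.mem_union_left _ hg))
      (h₂ O hO D D' (fun g hg => h1 g (Finset.mem_union_right _ hg))
        fun g hg => h2 g (Finset.mem_union_right _ hg))
  | smul c x _ hx =>
    obtain ⟨T₁, h₁⟩ := hx
    exact ⟨T₁, fun O hO D D' h1 h2 => mul_mem (hO _ c.2) (h₁ O hO D D' h1 h2)⟩

theorem pStep (_ : S_Uniq) (hD : S_Dep) (hI : S_Ind3) (hP : S_Pole) (hL : S_LA) : S_Step := by
  intro Ω _ _ _ T W hfd
  classical
  obtain ⟨Z, hZ⟩ := hL (acl (∅ : Set Ω))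
    (Submodule.span (acl (∅ : Set Ω)) ((fun p : Ω × Ω => dl p.1 p.2) '' T))
    (Der Ω → Der Ω → Der Ω → Ω) (fun k => step_wdL (W.coeff k) ∘ₗ Submodule.subtype _)
    (W.natDegree + 1)
  refine ⟨Z.image Subtype.val, fun a ha haZ ε P hT hP0 hε hW => ?_⟩
  by_contra hh
  have hr : Set.range ![P, ε] = {P, ε} := by
    simp [Matrix.range_cons, Matrix.range_empty, Set.pair_comm]
  obtain ⟨α, hα, hαD⟩ := hD Ω (Fin 2) ![P, ε] (W.eval a) (by rwa [hr])
  rw [hr] at hα
  simp only [Fin.sum_univ_two, Matrix.cons_val_zero, Matrix.cons_val_one] at hαD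
  have hc : (⟨a, ha⟩ : acl (∅ : Set Ω)) ∉ Z := fun h => haZ (Finset.mem_image_of_mem _ h)
  have e1 := step_sum (W.natDegree + 1) (fun k => (⟨a, ha⟩ : acl (∅ : Set Ω)) ^ k) W.coeff
    (W.eval a) fun D => by simpa using step_eval W D (step_const hD ha D)
  have e2 := step_sum (W.natDegree + 1)
    (fun k => (k : acl (∅ : Set Ω)) * (⟨a, ha⟩ : acl (∅ : Set Ω)) ^ (k - 1)) W.coeff
    ((derivative W).eval a) fun D => by simpa using step_eval' W D (step_const hD ha D)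
  have hP1 : P ≠ 0 := fun h => hP0 (h ▸ zero_mem _)
  have hε1 : ε ≠ 0 := fun h => hε (h ▸ zero_mem _)
  obtain ⟨v', hv'⟩ := hZ _ hc ⟨dl ε P, Submodule.subset_span ⟨(ε, P), hT, rfl⟩⟩ (by
    simp only [LinearMap.comp_apply, Submodule.subtype_apply]
    rw [e1]
    funext D D' D''
    simp only [wd, dl, hαD, Pi.zero_apply]
    ring)
  simp only [LinearMap.comp_apply, Submodule.subtype_apply] at hv'
  rw [e1, e2] at hv'
  obtain ⟨T', hT'⟩ := step_span T v'.2
  obtain ⟨δ, D₁, D₂, O, h1, h2, h3, h4, h5, h6, hO, hδ, hg⟩ :=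
    hP Ω P ε _ T' (hI Ω P ε _ hP0 hε hh)
  have hO0 : ∀ r ∈ acl (∅ : Set Ω), r ∈ O := fun r hr => hO r (acl_mono (Set.empty_subset _) hr)
  have m1 := hT' O hO0 D₂ δ (fun g h => (hg g h).2.2) fun g h => (hg g h).1
  have m2 := hT' O hO0 δ D₁ (fun g h => (hg g h).1) fun g h => (hg g h).2.1
  have hv := congrFun (congrFun (congrFun hv' D₁) D₂) δ
  simp only [Pi.add_apply, Pi.zero_apply, wd, dl, hαD, h1, h2, h3, h4, h5, h6] at hv
  apply hδ
  have : δ ((derivative W).eval a) = ε * P * (v'.1 D₂ δ * α 0 + v'.1 δ D₁ * α 1) := by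
    field_simp at hv
    linear_combination -hv
  rw [this]
  exact mul_mem (mul_mem (hO _ (subset_acl _ (by simp))) (hO _ (subset_acl _ (by simp))))
    (add_mem (mul_mem m1 (hO _ (hα 0))) (mul_mem m2 (hO _ (hα 1))))

end Pool.Agent.P.MP_84b56d_ag.PC
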