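import Pool.Agent.P.MP_84b56d_ag.PC.St

/-! At a unit of large height the differentials of `x` and `w` are proportional, and `Y` is not a
unit. -/

open Polynomial Ivrii.PX Ivrii.TA

noncomputable section

namespace Pool.Agent.P.MP_84b56d_ag.PC

section aux

variable {K L ι τ : Type} [Field K] [CharZero K] [Field L] [CharZero L] [Fintype ι] [Fintype τ]
  [DecidableEq τ] {c : Ctx K L ι τ} {C C' : ℕ} {f g : K}

lemma u1_mono (h : c.Bdd C f) (hC : C ≤ C') : c.Bdd C' f :=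
  ⟨h.1, fun i => (h.2 i).mono (by omega)⟩

lemma u1_mul (h : c.Bdd C f) (h' : c.Bdd C' g) : c.Bdd (C + C') (f * g) :=
  ⟨mul_mem h.1 h'.1, fun i => by
    rw [map_mul]
    exact ((h.2 i).mul (h'.2 i)).mono (by push_cast; omega)⟩

lemma u1_neg (h : c.Bdd C f) : c.Bdd C (-f) :=
  ⟨neg_mem h.1, fun i => by rw [map_neg]; exact (h.2 i).neg⟩

lemma u1_sub (h : c.Bdd C f) (h' : c.Bdd C g) : c.Bdd C (f - g) :=
  ⟨sub_mem h.1 h'.1, fun i => by rw [map_sub]; exact (h.2 i).sub (h'.2 i)⟩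

lemma u1_zero : c.Bdd C 0 := ⟨zero_mem _, fun i => by rw [map_zero]; exact Ge.zero _⟩

/-- Separation for six explicit coefficients. -/
lemma u1_sep {b : K} (hH : ∀ (n : ℕ) (Ψ : ℕ → K), (∀ k < n, c.Bdd C (Ψ k)) →
      ∑ k ∈ Finset.range n, Ψ k * b ^ k = 0 → ∀ k < n, Ψ k = 0) {a0 a1 a2 a3 a4 a5 : K}
    (h0 : c.Bdd C a0) (h1 : c.Bdd C a1) (h2 : c.Bdd C a2) (h3 : c.Bdd C a3) (h4 : c.Bdd C a4)
    (h5 : c.Bdd C a5) (h : a0 + a1 * b + a2 * b ^ 2 + a3 * b ^ 3 + a4 * b ^ 4 + a5 * b ^ 5 = 0) :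
    a0 = 0 ∧ a1 = 0 ∧ a2 = 0 ∧ a3 = 0 ∧ a4 = 0 ∧ a5 = 0 := by
  have := hH 6 (fun k => [a0, a1, a2, a3, a4, a5].getD k 0) (fun k hk => by
    interval_cases k <;> simpa) (by simpa [Finset.sum_range_succ] using h)
  exact ⟨this 0 (by omega), this 1 (by omega), this 2 (by omega), this 3 (by omega),
    this 4 (by omega), this 5 (by omega)⟩

omit [CharZero L] in
lemma u1_cyc (D D' D'' : Der K) {d : K} (x y w Y : K) (hd : d ≠ 0) :
    Phi D D' d x y w Y * eta D'' d w Y + Phi D' D'' d x y w Y * eta D d w Y +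
      Phi D'' D d x y w Y * eta D' d w Y = 0 := by
  refine mul_left_cancel₀ hd ?_
  linear_combination eta D'' d w Y * mul_Phi D D' d x y w Y +
    eta D d w Y * mul_Phi D' D'' d x y w Y + eta D' d w Y * mul_Phi D'' D d x y w Y

lemma u1_or {K : Type} [Field K] {p l l' : K} (h : l ≠ 0 ∨ l' ≠ 0) (h1 : p * l = 0)
    (h2 : -(p * l') = 0) : p = 0 := by
  rcases h with h | h
  · exact (mul_eq_zero.1 h1).resolve_right h
  · exact (mul_eq_zero.1 (neg_eq_zero.1 h2)).resolve_right h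

end aux

theorem pU1 (hS : S_Sep) (hE : S_Eta) (hK : S_Kill) : S_U1 := by
  intro K L ι τ _ _ _ _ _ _ _ c
  obtain ⟨⟨C, kD, -, -, -, k1⟩, k2⟩ := hK K L ι τ c
  obtain ⟨H, hH⟩ := hS K L ι τ c (2 * C + C)
  refine ⟨H, fun b x y hb hbig hgen hsol => ?_⟩
  have sep := fun n Ψ => hH b n Ψ hb.1 hbig
  obtain ⟨hY, hd⟩ := hgen
  obtain ⟨hx, hy, hy0, hp⟩ := hsol
  have hΔ := c.fr.ne
  have bP : ∀ D D' : Der K, c.Good C D → c.Good C D' →
      c.Bdd (2 * C) (Phi D D' (c.d b) x y (c.w b) (c.Y b)) := fun D D' h h' =>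
    ⟨Phi_mem h.1 h'.1 (c.d_mem hb.2.1) hx hy (c.w_mem hb.2.1) (c.Y_mem hb.2.1), fun i => by
      simpa using (hE K L ι c.ψ C D D' _ x y _ _ h.2 h'.2 hd hy0 hY hp (c.pell b) i).2⟩
  obtain ⟨l0, m0, g0⟩ := k1 b 0 1 hb
  obtain ⟨l1, m1, g1⟩ := k1 b 2 3 hb
  obtain ⟨l2, m2, g2⟩ := k1 b 4 5 hb
  obtain ⟨-, q0, -, -, e0⟩ := k2 0 1 l0 m0 b g0.kill
  obtain ⟨-, q1, -, -, e1⟩ := k2 2 3 l1 m1 b g1.kill
  obtain ⟨-, q2, -, -, e2⟩ := k2 4 5 l2 m2 b g2.kill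
  rw [q0] at e0
  rw [q1] at e1
  rw [q2] at e2
  replace e0 : eta (c.E 0 1 l0 m0) (c.d b) (c.w b) (c.Y b) = c.Y b * (c.Δ * (l0 - m0 * b)) := by
    simpa using e0
  replace e1 : eta (c.E 2 3 l1 m1) (c.d b) (c.w b) (c.Y b) =
      c.Y b * (c.Δ * (l1 * b ^ 2 - m1 * b ^ 3)) := e1
  replace e2 : eta (c.E 4 5 l2 m2) (c.d b) (c.w b) (c.Y b) =
      c.Y b * (c.Δ * (l2 * b ^ 4 - m2 * b ^ 5)) := e2
  have G0 := g0.good
  have G1 := g1.good
  have G2 := g2.good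
  generalize c.E 0 1 l0 m0 = E0 at e0 G0
  generalize c.E 2 3 l1 m1 = E1 at e1 G1
  generalize c.E 4 5 l2 m2 = E2 at e2 G2
  have hYΔ := mul_ne_zero hY hΔ
  have p01 : Phi E0 E1 (c.d b) x y (c.w b) (c.Y b) = 0 := by
    have h := u1_cyc E0 E1 E2 x y (c.w b) (c.Y b) hd
    rw [e0, e1, e2] at h
    have := u1_sep sep (u1_mul (bP _ _ G1 G2) g0.bl) (u1_neg (u1_mul (bP _ _ G1 G2) g0.bl'))
      (u1_mul (bP _ _ G2 G0) g1.bl) (u1_neg (u1_mul (bP _ _ G2 G0) g1.bl'))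
      (u1_mul (bP _ _ G0 G1) g2.bl) (u1_neg (u1_mul (bP _ _ G0 G1) g2.bl'))
      (mul_left_cancel₀ hYΔ (by linear_combination h))
    exact u1_or g2.ne this.2.2.2.2.1 this.2.2.2.2.2
  have pD : ∀ i, Phi (c.D i) E0 (c.d b) x y (c.w b) (c.Y b) = 0 := fun i => by
    have h := u1_cyc (c.D i) E0 E1 x y (c.w b) (c.Y b) hd
    rw [e0, e1, p01] at h
    have := u1_sep sep (u1_mul (bP _ _ G1 (kD i)) g0.bl)
      (u1_neg (u1_mul (bP _ _ G1 (kD i)) g0.bl'))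
      (u1_mul (bP _ _ (kD i) G0) g1.bl) (u1_neg (u1_mul (bP _ _ (kD i) G0) g1.bl'))
      u1_zero u1_zero (mul_left_cancel₀ hYΔ (by linear_combination h))
    exact u1_or g1.ne this.2.2.1 this.2.2.2.1
  have hF : eta E0 (c.d b) (c.w b) (c.Y b) ≠ 0 := by
    rw [e0]
    refine mul_ne_zero hY (mul_ne_zero hΔ fun h => ?_)
    have := u1_sep sep (u1_mono g0.bl (by omega)) (u1_neg (u1_mono g0.bl' (by omega)))
      u1_zero u1_zero u1_zero u1_zero (by linear_combination h)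
    rcases g0.ne with h | h
    · exact h this.1
    · exact h (neg_eq_zero.1 this.2.1)
  refine ⟨y * eta E0 (c.d b) x y / (eta E0 (c.d b) (c.w b) (c.Y b) * c.Y b), fun D => ?_⟩
  have key : ∀ i, c.D i x = y * eta E0 (c.d b) x y / (eta E0 (c.d b) (c.w b) (c.Y b) * c.Y b) *
      c.D i (c.w b) := fun i => by
    have h := mul_Phi (c.D i) E0 (c.d b) x y (c.w b) (c.Y b)
    rw [pD i, mul_zero] at h
    rw [← mul_eta (c.D i) hp, ← mul_eta (c.D i) (c.pell b)]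
    field_simp
    linear_combination -h
  refine mul_left_cancel₀ hΔ ?_
  rw [c.fr.span D x, mul_left_comm, c.fr.span D (c.w b), Finset.mul_sum]
  exact Finset.sum_congr rfl fun i _ => by rw [key i]; ring

theorem pUC (hS : S_Sep) (hK : S_Kill) : S_UC := by
  intro K L ι τ _ _ _ _ _ _ _ c
  obtain ⟨⟨C, -, kΔ, ke, ku, -⟩, -⟩ := hK K L ι τ c
  obtain ⟨H, hH⟩ := hS K L ι τ c (C + C)
  refine ⟨H, fun b hb hbig hY => ?_⟩
  have sep := fun n Ψ => hH b n Ψ hb.1 hbig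
  have bl := ku (c.em none) b hb
  have bl' := ku (c.em none) _ hY
  have he : c.D (c.em none) c.e = c.Δ := by simpa [c.fr.te] using c.fr.dual (c.em none) (c.em none)
  have eY : c.Y b = 1 + b + c.e * b ^ 2 := eval_pY _ _
  have dY : c.D (c.em none) (c.Y b) =
      c.D (c.em none) b + (c.Δ * b ^ 2 + 2 * c.e * b * c.D (c.em none) b) := by
    rw [eY]
    simp only [map_add, Derivation.leibniz, Derivation.leibniz_pow, smul_eq_mul, nsmul_eq_mul,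
      Derivation.map_one_eq_zero, he]
    push_cast
    ring
  obtain ⟨l, hl⟩ : ∃ l, l = c.D (c.em none) b / b := ⟨_, rfl⟩
  obtain ⟨m, hm⟩ : ∃ m, m = c.D (c.em none) (c.Y b) / c.Y b := ⟨_, rfl⟩
  rw [← hl] at bl
  rw [← hm] at bl'
  rw [eq_div_iff hb.1] at hl
  rw [eq_div_iff hY.1, dY, ← hl, eY] at hm
  have := u1_sep sep (u1_mono bl' (by omega)) (u1_mono (u1_sub bl' bl) (by omega))
    (u1_sub (u1_sub (u1_sub (u1_mul ke bl') (u1_mono kΔ (by omega))) (u1_mul ke bl))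
      (u1_mul ke bl)) u1_zero u1_zero u1_zero (by linear_combination hm)
  obtain ⟨h0, h1, h2, -⟩ := this
  exact c.fr.ne (by linear_combination -h2 - c.e * h0 + 2 * c.e * h1)

end Pool.Agent.P.MP_84b56d_ag.PC
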