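import Pool.Agent.P.MP_84b56d_ag.PC.St

/-! The ratio of the two logarithmic forms is a constant. -/

open Polynomial Ivrii.PX Ivrii.TA

noncomputable section

namespace Pool.Agent.P.MP_84b56d_ag.PC

section aux

variable {K L : Type} [Field K] [CharZero K] [Field L]

lemma u2_div {n m : ℤ} {f g : LaurentSeries L} (h : Ge n f) (hm : g.order ≤ m) :
    Ge (n - m) (f / g) := by
  rw [div_eq_mul_inv]
  refine (h.mul (ge_order g⁻¹)).mono ?_
  rw [order_inv']
  omega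

/-- A derivation that kills `w` kills the ratio. -/
lemma u2_bracket {d x y w Y α : K} (hd : d ≠ 0) (hy : y ≠ 0) (hY : Y ≠ 0)
    (h1 : x ^ 2 - d * y ^ 2 = 1) (h2 : w ^ 2 - d * Y ^ 2 = 1) (h : ∀ D : Der K, D x = α * D w)
    {D₀ : Der K} (h0 : D₀ w ≠ 0) {E : Der K} (hE : E w = 0) : E (α * Y / y) = 0 := by
  have hx : E x = 0 := by rw [h, hE, mul_zero]
  have ha : E α = 0 := by
    have := h ⁅E, D₀⁆
    rw [Derivation.commutator_apply, Derivation.commutator_apply, hx, hE, h D₀, map_zero,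
      Derivation.leibniz, smul_eq_mul, smul_eq_mul] at this
    exact (mul_eq_zero.1 (by linear_combination this : D₀ w * E α = 0)).resolve_left h0
  obtain ⟨V, hV⟩ : ∃ V, V = Y / y := ⟨_, rfl⟩
  have hV0 : V ≠ 0 := hV ▸ div_ne_zero hY hy
  have e1 : V ^ 2 * (x ^ 2 - 1) = w ^ 2 - 1 := by
    have a : x ^ 2 - 1 = d * y ^ 2 := by linear_combination h1
    have b : w ^ 2 - 1 = d * Y ^ 2 := by linear_combination h2
    rw [a, b, hV]
    field_simp
  have e2 := congrArg E e1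
  simp only [map_sub, Derivation.leibniz, Derivation.leibniz_pow, smul_eq_mul, nsmul_eq_mul,
    Derivation.map_one_eq_zero, hx, hE] at e2
  have e3 : (2 * (d * y ^ 2) * V) * E V = 0 := by
    push_cast at e2
    linear_combination e2 - 2 * V * E V * h1
  have e4 : E V = 0 := (mul_eq_zero.1 e3).resolve_left
    (mul_ne_zero (mul_ne_zero two_ne_zero (mul_ne_zero hd (pow_ne_zero _ hy))) hV0)
  rw [mul_div_assoc, ← hV, Derivation.leibniz, ha, e4]
  simp

lemma u2_cross {d x y w Y α : K} (hd : d ≠ 0) (hy : y ≠ 0) (hY : Y ≠ 0)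
    (h1 : x ^ 2 - d * y ^ 2 = 1) (h2 : w ^ 2 - d * Y ^ 2 = 1) (h : ∀ D : Der K, D x = α * D w)
    {D₀ : Der K} (h0 : eta D₀ d w Y ≠ 0) (D : Der K) :
    D (α * Y / y) = D₀ (α * Y / y) / eta D₀ d w Y * eta D d w Y := by
  have := u2_bracket hd hy hY h1 h2 h (D₀ := D₀) (by rw [← mul_eta D₀ h2]; exact mul_ne_zero hY h0)
    (E := eta D₀ d w Y • D - eta D d w Y • D₀) (by
      rw [Derivation.sub_apply, Derivation.smul_apply, Derivation.smul_apply, ← mul_eta D h2,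
        ← mul_eta D₀ h2, smul_eq_mul, smul_eq_mul]
      ring)
  rw [Derivation.sub_apply, Derivation.smul_apply, Derivation.smul_apply, smul_eq_mul,
    smul_eq_mul] at this
  rw [div_mul_eq_mul_div, eq_div_iff h0]
  linear_combination this

lemma u2_eta {d x y w Y α : K} (hy : y ≠ 0) (h1 : x ^ 2 - d * y ^ 2 = 1)
    (h2 : w ^ 2 - d * Y ^ 2 = 1) (h : ∀ D : Der K, D x = α * D w) (D : Der K) :
    eta D d x y = α * Y / y * eta D d w Y := by
  rw [div_mul_eq_mul_div, eq_div_iff hy, mul_comm, mul_eta D h1, h, mul_assoc, mul_eta D h2]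

/-- The order of the quotient at one place. -/
lemma u2_place (ψ : K →+* LaurentSeries L) {C : ℕ} {E : Der K} {η F φ χ : K} {m M : ℤ}
    (hE : ∀ f n, Ge n (ψ f) → Ge (n - C) (ψ (E f))) (hη : Ge (2 * (-m - C)) (ψ (η ^ 2)))
    (hF : F ≠ 0) (hM : (ψ F).order ≤ M) (h1 : η = φ * F) (h2 : E φ = χ * F) :
    Ge (-m - 2 * C - 2 * M) (ψ χ) := by
  rw [map_pow] at hη
  have a := u2_div (ge_of_sq hη) hM
  rw [← map_div₀, h1, mul_div_cancel_right₀ _ hF] at a
  have b := u2_div (hE _ _ a) hM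
  rw [← map_div₀, h2, mul_div_cancel_right₀ _ hF] at b
  exact b.mono (by omega)

omit [CharZero K] in
/-- The order of `l - l' b` at a big pole of `b`. -/
lemma u2_lin (ψ : K →+* LaurentSeries L) {C C' : ℕ} {l l' b : K} (hb : b ≠ 0)
    (hl : Ge (-(C : ℤ)) (ψ l)) (h1 : l ≠ 0 → (ψ l).order ≤ C') (h2 : l' ≠ 0 → (ψ l').order ≤ C')
    (hne : l ≠ 0 ∨ l' ≠ 0) (ho : (ψ b).order < -(C + C' : ℤ)) : (ψ (l - l' * b)).order ≤ C' := by
  by_cases h : l' = 0
  · rw [h, zero_mul, sub_zero]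
    exact h1 (hne.resolve_right (not_not.2 h))
  · have a : (ψ (-l' * b)).order = (ψ l').order + (ψ b).order := by
      rw [map_mul, order_mul' ((map_ne_zero ψ).2 (neg_ne_zero.2 h)) ((map_ne_zero ψ).2 hb), map_neg,
        HahnSeries.order_neg]
    have := h2 h
    have b' := (order_add_of_ge ((map_ne_zero ψ).2 (mul_ne_zero (neg_ne_zero.2 h) hb))
      (hl.mono (by omega))).2
    rw [← map_add] at b'
    rw [show l - l' * b = -l' * b + l by ring, b']
    omega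

end aux

theorem pU2 (hB : S_Bd) (hS : S_Sep) (hD : S_Dom) (hG : S_Deg) (hE : S_Eta) (hK : S_Kill) :
    S_U2 := by
  intro K L ι τ _ _ _ _ _ _ _ c
  obtain ⟨-, hB2, hB3, hB4⟩ := hB K L ι τ c
  obtain ⟨⟨C, -, hΔ, -, -, hkill⟩, hform⟩ := hK K L ι τ c
  obtain ⟨C', hC'⟩ := hB2 C
  obtain ⟨HS, hHS⟩ := hS K L ι τ c C
  obtain ⟨dY, -, -, dd, -⟩ := hG K c.e c.q c.ind
  choose CY hCY using fun i => hD K L (c.ψ i) (pY c.e)
  choose Cd hCd using fun i => hD K L (c.ψ i) (pd c.e c.q)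
  have hY0 : pY c.e ≠ 0 := fun h => by rw [h] at dY; simp at dY
  refine ⟨max HS (∑ i, (50 * (CY i : ℤ) + 50 * C + 50 * C' + Cd i)), ?_⟩
  intro b x y α hb hbig hgen hsol hα
  obtain ⟨i0, hi0⟩ := hbig
  obtain ⟨hx, hy, hy0, h1⟩ := hsol
  have h2 := c.pell b
  have hlin : ∀ {i j l l'}, c.Kill C b i j l l' → l - l' * b ≠ 0 := by
    intro i j l l' k h
    have := hHS b 2 (fun n => if n = 0 then l else -l') hb.1 ⟨i0, (le_max_left _ _).trans_lt hi0⟩
      (fun n _ => by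
        split_ifs
        · exact k.bl
        · exact ⟨neg_mem k.bl'.1, fun i => by rw [map_neg]; exact (k.bl'.2 i).neg⟩)
      (by simp [Finset.sum_range_succ]; linear_combination h)
    rcases k.ne with e | e
    · exact e (by simpa using this 0 (by norm_num))
    · exact e (by simpa using this 1 (by norm_num))
  obtain ⟨l₀, l₀', k₀⟩ := hkill b 0 1 hb
  obtain ⟨l₁, l₁', k₁⟩ := hkill b 16 17 hb
  obtain ⟨-, q₀, -, -, f₀⟩ := hform 0 1 l₀ l₀' b k₀.kill
  obtain ⟨-, q₁, -, -, f₁⟩ := hform 16 17 l₁ l₁' b k₁.kill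
  set E₀ := c.E 0 1 l₀ l₀' with hE₀
  set E₁ := c.E 16 17 l₁ l₁' with hE₁
  have g₀ : eta E₀ (c.d b) (c.w b) (c.Y b) = c.Y b * (c.Δ * (l₀ - l₀' * b)) := by
    rw [f₀, q₀]; simp
  have g₁ : eta E₁ (c.d b) (c.w b) (c.Y b) = c.Y b * (c.Δ * (b ^ 16 * (l₁ - l₁' * b))) := by
    rw [f₁, q₁, show ((16 : Fin 18) : ℕ) = 16 from rfl, show ((17 : Fin 18) : ℕ) = 17 from rfl]
    ring
  set G := eta E₀ (c.d b) (c.w b) (c.Y b) with hGd
  have hG0 : G ≠ 0 := g₀ ▸ mul_ne_zero hgen.1 (mul_ne_zero c.fr.ne (hlin k₀))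
  have hF0 : eta E₁ (c.d b) (c.w b) (c.Y b) ≠ 0 :=
    g₁ ▸ mul_ne_zero hgen.1 (mul_ne_zero c.fr.ne (mul_ne_zero (pow_ne_zero _ hb.1) (hlin k₁)))
  have hcross := u2_cross hgen.2 hy0 hgen.1 h1 h2 hα hG0
  have heta := u2_eta hy0 h1 h2 hα
  set φ := α * c.Y b / y with hφ
  set χ := E₀ φ / G with hχ
  suffices hz : χ = 0 by
    intro D
    rw [hcross D, hz, zero_mul]
  by_contra hχ0
  have hGR : G ∈ c.R := eta_mem k₀.good.1 (c.d_mem hb.2.1) (c.w_mem hb.2.1) (c.Y_mem hb.2.1)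
  have hηR : φ * G ∈ c.R := heta E₀ ▸ eta_mem k₀.good.1 (c.d_mem hb.2.1) hx hy
  have hR : G ^ 3 * χ ∈ c.R := by
    have : G ^ 3 * χ = G * E₀ (φ * G) - φ * G * E₀ G := by
      rw [Derivation.leibniz, smul_eq_mul, smul_eq_mul, hχ]
      field_simp
      ring
    rw [this]
    exact sub_mem (mul_mem hGR (k₀.good.1 _ hηR)) (mul_mem hηR (k₀.good.1 _ hGR))
  have hdeg := c.pl.deg _ (c.int hR) (mul_ne_zero (pow_ne_zero _ hG0) hχ0)
  have hzero := hB4 G hGR hG0
  have key : ∀ i, 2 * max 0 (-(c.ψ i b).order) ≤ (c.ψ i (G ^ 3 * χ)).order +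
      (2 * max 0 (c.o i G) - 2 * max 0 (-(c.ψ i G).order)) +
      (50 * (CY i : ℤ) + 50 * C + 50 * C' + Cd i) := by
    intro i
    have nz : ∀ {f : K}, f ≠ 0 → c.ψ i f ≠ 0 := fun h => (_root_.map_ne_zero _).2 h
    have oY := hCY i b hb.1
    have od := le_order (hCd i b hb.1).1 (nz hgen.2)
    rw [dY] at oY
    rw [dd] at od
    have oG : 3 * min 0 (c.ψ i b).order - CY i - 2 * C ≤ (c.ψ i G).order := by
      refine le_order ?_ (nz hG0)
      rw [g₀, map_mul, map_mul, map_sub, map_mul]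
      have a : Ge (min 0 (c.ψ i b).order - C) (c.ψ i l₀ - c.ψ i l₀' * c.ψ i b) :=
        ((k₀.bl.2 i).mono (by omega)).sub (((k₀.bl'.2 i).mul (ge_order _)).mono (by omega))
      exact (oY.1.mul ((hΔ.2 i).mul a)).mono (by push_cast; omega)
    have e3 : (c.ψ i (G ^ 3 * χ)).order = 3 * (c.ψ i G).order + (c.ψ i χ).order := by
      rw [map_mul, map_pow, order_mul' (pow_ne_zero _ (nz hG0)) (nz hχ0), order_pow']
      rfl
    have ee : ∀ E, c.Good C E → Ge (2 * (-(19 * max 0 (-(c.ψ i b).order) + Cd i) - C))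
        (c.ψ i (eta E (c.d b) x y ^ 2)) := fun E hg =>
      (hE K L ι c.ψ C E E _ _ _ _ _ hg.2 hg.2 hgen.2 hy0 hgen.1 h1 h2 i).1.mono
        (by change _ ≤ (c.ψ i (eval b (pd c.e c.q))).order - _; push_cast at od; omega)
    rw [e3]
    unfold Ctx.o
    by_cases hp : (c.ψ i b).order < -(CY i + C + C' : ℤ)
    · have a1 := (oY.2 hY0 (by omega)).2
      have a2 := hC' _ hΔ c.fr.ne i
      have a3 := u2_lin (c.ψ i) hb.1 (k₁.bl.2 i) (fun h => hC' _ k₁.bl h i)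
        (fun h => hC' _ k₁.bl' h i) k₁.ne (by omega)
      have a4 : (c.ψ i (eta E₁ (c.d b) (c.w b) (c.Y b))).order ≤
          18 * (c.ψ i b).order + CY i + 2 * C' := by
        rw [g₁, map_mul, map_mul, map_mul, map_pow, order_mul' (nz hgen.1) (mul_ne_zero (nz c.fr.ne)
          (mul_ne_zero (pow_ne_zero _ (nz hb.1)) (nz (hlin k₁)))), order_mul' (nz c.fr.ne)
          (mul_ne_zero (pow_ne_zero _ (nz hb.1)) (nz (hlin k₁))),
          order_mul' (pow_ne_zero _ (nz hb.1)) (nz (hlin k₁)), order_pow']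
        unfold Ctx.o at a2
        change (c.ψ i (c.Y b)).order ≤ _ at a1
        push_cast at a1 ⊢
        omega
      have a5 := le_order (u2_place (c.ψ i) (k₁.good.2 i) (ee E₁ k₁.good) hF0 a4 (heta E₁)
        (hcross E₁)) (nz hχ0)
      omega
    · have a5 := le_order (u2_place (c.ψ i) (k₀.good.2 i) (ee E₀ k₀.good) hG0 le_rfl (heta E₀)
        (hcross E₀)) (nz hχ0)
      omega
  have hsum := Finset.sum_le_sum fun i (_ : i ∈ Finset.univ) => key i
  have hb3 := (hB3 b hb).2 i0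
  have hlt := (le_max_right _ _).trans_lt hi0
  have hpos : 0 ≤ ∑ i, (50 * (CY i : ℤ) + 50 * C + 50 * C' + Cd i) :=
    Finset.sum_nonneg fun i _ => by positivity
  rw [Finset.sum_add_distrib, Finset.sum_add_distrib, Finset.sum_sub_distrib, ← Finset.mul_sum,
    ← Finset.mul_sum, ← Finset.mul_sum] at hsum
  unfold hgt at hzero hb3
  omega

end Pool.Agent.P.MP_84b56d_ag.PC
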