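import Pool.Agent.P.MP_84b56d_ag.PC.St

/-! Poles of `w` and the degree of `d` at a unit of large height. -/

open Polynomial Ivrii.PX Ivrii.TA

noncomputable section

namespace Pool.Agent.P.MP_84b56d_ag.PC

lemma u3_dom (hD : S_Dom) {K L ι : Type} [Field K] [Field L] [Fintype ι]
    (ψ : ι → K →+* LaurentSeries L) (p : K[X]) {n : ℕ} (hn : p.natDegree = n + 1) :
    ∃ C : ℕ, ∀ (i : ι) (b : K), b ≠ 0 →
      Ge ((n + 1) * min 0 (ψ i b).order - C) (ψ i (p.eval b)) ∧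
      ((ψ i b).order < -(C : ℤ) → (ψ i (p.eval b)).order ≤ (n + 1) * (ψ i b).order + C) := by
  choose C hC using fun i => hD K L (ψ i) p
  have hp : p ≠ 0 := fun h => by simp [h] at hn
  refine ⟨∑ i, C i, fun i b hb => ?_⟩
  have h : (C i : ℤ) ≤ ((∑ i, C i : ℕ) : ℤ) := by
    exact_mod_cast Finset.single_le_sum (f := C) (fun _ _ => Nat.zero_le _) (Finset.mem_univ i)
  obtain ⟨h1, h2⟩ := hC i b hb
  rw [hn, Nat.cast_add, Nat.cast_one] at h1 h2
  exact ⟨h1.mono (by linarith), fun h3 => (h2 hp (by linarith)).2.trans (by linarith)⟩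

lemma u3_le {L : Type} [Field L] {n : ℤ} {f : LaurentSeries L} (h : Ge n f) (hn : n ≤ 0) :
    n ≤ f.order := by
  rcases ge_iff.1 h with rfl | h
  · simpa using hn
  · exact h

/-- A zero of `d` of high order comes from a zero of `G` or from a pole of `Y`. -/
lemma u3_zero {L : Type} [Field L] [CharZero L] {w d Y G : LaurentSeries L} {C : ℤ}
    (h : w ^ 2 - d * Y ^ 2 = 1) (hd : d ≠ 0) (hY : Y ≠ 0) (hG : G ≠ 0)
    (hE : Ge (d.order - C) (2 * w * G)) : d.order ≤ -2 * Y.order ∨ d.order ≤ C + G.order := by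
  by_cases h0 : d.order ≤ -2 * Y.order
  · exact Or.inl h0
  refine Or.inr ?_
  have h1 : Ge ((1 : LaurentSeries L).order + 1) (d * Y ^ 2) := by
    refine (ge_order _).mono ?_
    rw [order_mul' hd (pow_ne_zero _ hY), order_pow', HahnSeries.order_one]
    push_cast
    omega
  obtain ⟨h2, h3⟩ := order_add_of_ge one_ne_zero h1
  rw [show 1 + d * Y ^ 2 = w ^ 2 by linear_combination -h] at h2 h3
  have hw : w ≠ 0 := fun e => h2 (by simp [e])
  rw [order_pow', HahnSeries.order_one] at h3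
  have h4 : Lead 0 ((2 : ℕ) : L) ((2 : ℕ) : LaurentSeries L) := Lead.natCast 2
  rw [Nat.cast_ofNat, Nat.cast_ofNat] at h4
  have h5 : (2 : LaurentSeries L) ≠ 0 := h4.ne_zero two_ne_zero
  have h6 := le_order hE (mul_ne_zero (mul_ne_zero h5 hw) hG)
  rw [order_mul' (mul_ne_zero h5 hw) hG, order_mul' h5 hw, order_of_lead h4 two_ne_zero] at h6
  push_cast at h3
  omega

lemma u3_sum {ι : Type} [Fintype ι] {f g : ι → ℤ} {K : ℤ} (h : ∀ i, f i ≤ g i + K) :
    ∑ i, f i ≤ ∑ i, g i + Fintype.card ι * K := by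
  simpa [Finset.sum_add_distrib] using Finset.sum_le_sum fun i (_ : i ∈ Finset.univ) => h i

theorem pU3 (hB : S_Bd) (hS : S_Sep) (hD : S_Dom) (hG : S_Deg) (hK : S_Kill) : S_U3 := by
  intro K L ι τ _ _ _ _ _ _ _ c
  obtain ⟨-, -, b3, b4⟩ := hB K L ι τ c
  obtain ⟨⟨C, -, kΔ, -, -, k1⟩, k2⟩ := hK K L ι τ c
  obtain ⟨H, hH⟩ := hS K L ι τ c C
  obtain ⟨gY, -, gw, gd, -⟩ := hG K c.e c.q c.ind
  obtain ⟨CY, dY⟩ := u3_dom hD c.ψ (pY c.e) (n := 1) gY
  obtain ⟨Cw, dw⟩ := u3_dom hD c.ψ (pw c.e c.q) (n := 20) gw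
  obtain ⟨Cd, dd⟩ := u3_dom hD c.ψ (pd c.e c.q) (n := 37) gd
  obtain ⟨T, hT⟩ : ∃ T : ℤ, T = 50 * (C + CY + Cw + Cd) := ⟨_, rfl⟩
  obtain ⟨M, hM⟩ : ∃ M : ℤ, M = Fintype.card ι * T := ⟨_, rfl⟩
  have hM0 : 0 ≤ M := by rw [hM, hT]; positivity
  refine ⟨max H M, fun b hb hbig hgen => ?_⟩
  obtain ⟨i0, hi0⟩ := hbig
  have hh : M < hgt c.ψ b := ((le_max_right _ _).trans_lt hi0).trans_le ((b3 b hb).2 i0)
  obtain ⟨l, l', kl⟩ := k1 b 0 1 hb
  obtain ⟨-, eQ, -, ed, -⟩ := k2 0 1 l l' b kl.kill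
  set G := c.E 0 1 l l' (c.Q b) with hGd
  have eG : G = c.Δ * (l - l' * b) := by simpa using eQ
  have hG0 : G ≠ 0 := by
    rw [eG]
    refine mul_ne_zero c.fr.ne fun e => ?_
    have := hH b 2 (fun k => if k = 0 then l else -l') hb.1
      ⟨i0, (le_max_left _ _).trans_lt hi0⟩ (fun k _ => ?_)
      (by simp only [Finset.sum_range_succ]; simp; linear_combination e)
    · have e0 := this 0 (by norm_num)
      have e1 := this 1 (by norm_num)
      simp only [if_true, one_ne_zero, if_false, neg_eq_zero] at e0 e1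
      exact kl.ne.elim (fun h => h e0) fun h => h e1
    · split_ifs
      · exact kl.bl
      · exact ⟨neg_mem kl.bl'.1, fun i => by rw [map_neg]; exact (kl.bl'.2 i).neg⟩
  have inj : ∀ i {f : K}, f ≠ 0 → c.ψ i f ≠ 0 := fun i f hf => (_root_.map_ne_zero _).2 hf
  have s1 : hgt c.ψ (c.w b) ≤ ∑ i, 21 * max 0 (-(c.ψ i b).order) + Fintype.card ι * T :=
    u3_sum fun i => by
      have := u3_le (dw i b hb.1).1 (by omega)
      unfold Ctx.w
      omega
  have s2 : hgt c.ψ G ≤ ∑ i, max 0 (-(c.ψ i b).order) + Fintype.card ι * T :=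
    u3_sum fun i => by
      have h1 : Ge (-C + (-C + min 0 (c.ψ i b).order)) (c.ψ i G) := by
        rw [eG, map_mul, map_sub, map_mul]
        exact (kΔ.2 i).mul (((kl.bl.2 i).mono (by omega)).sub
          (((kl.bl'.2 i).mul (ge_order _)).mono (by omega)))
      have := u3_le h1 (by omega)
      omega
  have s3 : ∑ i, c.o i (c.d b) ≤
      ∑ i, (max 0 (c.o i G) - 38 * max 0 (-(c.ψ i b).order)) + Fintype.card ι * T :=
    u3_sum fun i => by
      have h1 := (dd i b hb.1).2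
      have h2 := le_order (dY i b hb.1).1 (inj i hgen.1)
      have h3 := kl.good.2 i (c.d b) _ (ge_order _)
      rw [ed, map_mul, map_mul, map_ofNat] at h3
      have h4 := u3_zero (by simpa using congrArg (c.ψ i) (c.pell b)) (inj i hgen.2)
        (inj i hgen.1) (inj i hG0) h3
      unfold Ctx.o
      unfold Ctx.d Ctx.Y at *
      omega
  have s4 := b4 G (kl.good.1 _ (c.Q_mem hb.2.1)) hG0
  rw [Finset.sum_sub_distrib] at s3
  rw [← Finset.mul_sum, ← hM] at s1 s3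
  rw [← hM] at s2
  unfold hgt at hh
  refine ⟨by_contra fun hn => ?_, by omega⟩
  have s5 : ∑ i, max 0 (-(c.ψ i b).order) ≤ ∑ _i : ι, 0 + Fintype.card ι * T :=
    u3_sum fun i => by
      have h1 := (dw i b hb.1).2
      have h2 : ¬ c.o i (c.w b) < 0 := fun h => hn ⟨i, h⟩
      unfold Ctx.o Ctx.w at h2
      omega
  rw [Finset.sum_const_zero, ← hM] at s5
  omega

end Pool.Agent.P.MP_84b56d_ag.PC
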