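import Pool.Agent.P.MP_84b56d_ag.PC.Der
import Pool.Agent.P.MP_84b56d_ag.PC.Dep
import Pool.Agent.P.MP_84b56d_ag.PC.Pre
import Pool.Agent.P.MP_84b56d_ag.PC.Places
import Pool.Agent.P.MP_84b56d_ag.PC.Pole
import Pool.Agent.P.MP_84b56d_ag.PC.LA
import Pool.Agent.P.MP_84b56d_ag.PC.Eta
import Pool.Agent.P.MP_84b56d_ag.PC.Fin
import Pool.Agent.P.MP_84b56d_ag.PC.Res
import Pool.Agent.P.MP_84b56d_ag.PC.Frame
import Pool.Agent.P.MP_84b56d_ag.PC.Kill
import Pool.Agent.P.MP_84b56d_ag.PC.Bd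
import Pool.Agent.P.MP_84b56d_ag.PC.Deg
import Pool.Agent.P.MP_84b56d_ag.PC.U1
import Pool.Agent.P.MP_84b56d_ag.PC.U2
import Pool.Agent.P.MP_84b56d_ag.PC.U3
import Pool.Agent.P.MP_84b56d_ag.PC.BC
import Pool.Agent.P.MP_84b56d_ag.PC.Step
import Pool.Agent.P.MP_84b56d_ag.PC.FD
import Pool.Agent.P.MP_84b56d_ag.PC.B1
import Pool.Agent.P.MP_84b56d_ag.PC.B2
import Pool.Agent.P.MP_84b56d_ag.PC.Ctx
import Pool.Agent.P.MP_84b56d_ag.PC.Red1
import Pool.Agent.P.MP_84b56d_ag.PC.Red2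
import Pool.Agent.P.MP_84b56d_ag.PC.NF
import Pool.Agent.P.MP_84b56d_ag.PC.Smooth
import Pool.Agent.P.MP_84b56d_ag.PC.Aff
import Pool.Agent.P.MP_84b56d_ag.PC.Pts
import Pool.Agent.P.MP_84b56d_ag.PC.NotB

/-! Assembly of the packages. -/

namespace Pool.Agent.P.MP_84b56d_ag.PC

theorem allPlaces : S_Places := pPlaces pExt pUniq pPre

theorem allSep : S_Sep := pSep pBd

theorem allKill : S_Kill := pKill pBd

theorem allTr : S_Tr := pTr pCnt

theorem allCtx : S_Ctx :=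
  pCtx pDeg (pFin pA) (pU1 allSep pEta allKill) (pU2 pBd allSep pDom pDeg pEta allKill)
    (pU3 pBd allSep pDom pDeg allKill) (pUC allSep allKill) (pPig pBd) (pBC pDom pDeg (pPig pBd))
    (pB1 pMap allTr (pStep pUniq pDep pInd3 (pPole pExt pUniq) pLA)
      (pFD pUniq pLift pMap pEta allKill))
    (pB2 allPlaces pA pRes (pFin pA) pDep pDeg allTr allKill)

theorem allCore : S_Core := pCore allPlaces (pFrame pExt pUniq) allCtx

theorem allMain : S_Main :=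
  pMainB pDeg (pDomain pNF) pSmooth (pCodim pNF) pAff (pPts pNF) (pNotB pRed1 pRed2 allCore)
    pTrdegB

end Pool.Agent.P.MP_84b56d_ag.PC
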