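import Pool.Agent.P.MP_84b56d_ag.PC.Defs
import Pool.Agent.P.MP_7a8567_an.TA.Place

/-! The Pell surface, relative algebraic closures and orders at Puiseux places. -/

open Polynomial Ivrii.PX Ivrii.TA

noncomputable section

namespace Pool.Agent.P.MP_84b56d_ag.PC

section poly

variable {R : Type} [CommRing R]

def pY (e : R) : R[X] := 1 + X + C e * X ^ 2

def pq (q : Fin 18 → R) : R[X] := ∑ i, C (q i) * X ^ (i : ℕ)

def pw (e : R) (q : Fin 18 → R) : R[X] := 1 + pY e ^ 2 * pq q

def pd (e : R) (q : Fin 18 → R) : R[X] := pq q * (2 + pY e ^ 2 * pq q)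

lemma pell_poly (e : R) (q : Fin 18 → R) : pw e q ^ 2 - pd e q * pY e ^ 2 = 1 := by
  simp only [pw, pd]; ring

lemma pell_eval (e : R) (q : Fin 18 → R) (b : R) :
    (pw e q).eval b ^ 2 - (pd e q).eval b * (pY e).eval b ^ 2 = 1 := by
  simpa using congrArg (eval b) (pell_poly e q)

lemma eval_pY (e b : R) : (pY e).eval b = 1 + b + e * b ^ 2 := by simp [pY]

lemma eval_pq (q : Fin 18 → R) (b : R) : (pq q).eval b = ∑ i, q i * b ^ (i : ℕ) := by
  simp [pq, eval_finsetSum]

lemma eval_pw (e : R) (q : Fin 18 → R) (b : R) :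
    (pw e q).eval b = 1 + (pY e).eval b ^ 2 * (pq q).eval b := by simp [pw]

lemma eval_pd (e : R) (q : Fin 18 → R) (b : R) :
    (pd e q).eval b = (pq q).eval b * (2 + (pY e).eval b ^ 2 * (pq q).eval b) := by simp [pd]

lemma map_pY {S : Type} [CommRing S] (f : R →+* S) (e : R) : (pY e).map f = pY (f e) := by
  simp [pY]

lemma map_pq {S : Type} [CommRing S] (f : R →+* S) (q : Fin 18 → R) :
    (pq q).map f = pq fun i => f (q i) := by
  simp [pq, Polynomial.map_sum]

lemma map_pw {S : Type} [CommRing S] (f : R →+* S) (e : R) (q : Fin 18 → R) :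
    (pw e q).map f = pw (f e) fun i => f (q i) := by
  simp [pw, map_pY, map_pq]

lemma map_pd {S : Type} [CommRing S] (f : R →+* S) (e : R) (q : Fin 18 → R) :
    (pd e q).map f = pd (f e) fun i => f (q i) := by
  simp [pd, map_pY, map_pq]

/-- The equations of the surface; the variables are `x, y, b, 1 / b`. -/
def Iq (d : R[X]) : Ideal (MvPolynomial (Fin 4) R) :=
  Ideal.span {MvPolynomial.X 0 ^ 2 - aeval (MvPolynomial.X 2 : MvPolynomial (Fin 4) R) d *
    MvPolynomial.X 1 ^ 2 - 1, MvPolynomial.X 2 * MvPolynomial.X 3 - 1}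

/-- The coordinate ring of the surface. -/
abbrev Bq (d : R[X]) : Type := MvPolynomial (Fin 4) R ⧸ Iq d

/-- The coordinates: `co d 0 = x`, `co d 1 = y`, `co d 2 = b`, `co d 3 = 1 / b`. -/
def co (d : R[X]) (i : Fin 4) : Bq d := Ideal.Quotient.mk _ (MvPolynomial.X i)

lemma co_pell (d : R[X]) : co d 0 ^ 2 - aeval (co d 2) d * co d 1 ^ 2 = 1 := by
  have h : Ideal.Quotient.mkₐ R (Iq d) (MvPolynomial.X 0 ^ 2 -
      aeval (MvPolynomial.X 2 : MvPolynomial (Fin 4) R) d * MvPolynomial.X 1 ^ 2 - 1) = 0 :=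
    Ideal.Quotient.eq_zero_iff_mem.2 (Ideal.subset_span (by simp))
  rw [map_sub, map_sub, map_mul, ← aeval_algHom_apply, map_one, sub_eq_zero] at h
  simpa [co] using h

lemma co_inv (d : R[X]) : co d 2 * co d 3 = 1 := by
  have h : Ideal.Quotient.mk (Iq d) (MvPolynomial.X 2 * MvPolynomial.X 3 - 1) = 0 :=
    Ideal.Quotient.eq_zero_iff_mem.2 (Ideal.subset_span (by simp))
  rw [map_sub, map_one, sub_eq_zero] at h
  simpa [co] using h

/-- Points of the surface with values in an `R`-algebra. -/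
lemma exists_pt (d : R[X]) {E : Type} [CommRing E] [Algebra R E] (v : Fin 4 → E)
    (h1 : v 0 ^ 2 - aeval (v 2) d * v 1 ^ 2 = 1) (h2 : v 2 * v 3 = 1) :
    ∃ φ : Bq d →ₐ[R] E, ∀ i, φ (co d i) = v i := by
  refine ⟨Ideal.Quotient.liftₐ (Iq d) (MvPolynomial.aeval v) fun a ha => ?_, fun i => by simp [co]⟩
  refine (Ideal.span_le (I := RingHom.ker (MvPolynomial.aeval (R := R) v))).2 ?_ ha
  rintro _ (rfl | rfl)
  · simp only [SetLike.mem_coe, RingHom.mem_ker, map_sub, map_mul, map_pow, map_one,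
      ← aeval_algHom_apply, MvPolynomial.aeval_X, h1, sub_self]
  · simp [h2]

lemma pt_ext (d : R[X]) {E : Type} [CommRing E] {φ φ' : Bq d →+* E}
    (h0 : ∀ r, φ (algebraMap R _ r) = φ' (algebraMap R _ r)) (h : ∀ i, φ (co d i) = φ' (co d i)) :
    φ = φ' :=
  Ideal.Quotient.ringHom_ext (MvPolynomial.ringHom_ext h0 h)

/-- A polynomial in `b` (inner variable) and `y` (outer variable) as a function. -/
def evB (d : R[X]) : R[X][X] →+* Bq d := eval₂RingHom (aeval (co d 2)).toRingHom (co d 1)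

end poly

section acl

variable {K : Type} [Field K] [CharZero K]

/-- The elements of `K` that are algebraic over `ℚ(s)`. -/
def acl (s : Set K) : Subfield K := (algebraicClosure (IntermediateField.adjoin ℚ s) K).toSubfield

lemma mem_acl {s : Set K} {f : K} : f ∈ acl s ↔ IsAlgebraic (IntermediateField.adjoin ℚ s) f :=
  mem_algebraicClosure_iff

lemma subset_acl (s : Set K) : s ⊆ acl s := fun x hx =>
  mem_acl.2 (isAlgebraic_algebraMap (⟨x, IntermediateField.subset_adjoin ℚ s hx⟩ :
    IntermediateField.adjoin ℚ s))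

lemma mem_acl_of_isAlgebraic {s : Set K} {f : K} (h : IsAlgebraic (acl s) f) : f ∈ acl s := by
  have h' : IsAlgebraic (algebraicClosure (IntermediateField.adjoin ℚ s) K) f := h
  exact mem_acl.2 (h'.restrictScalars (IntermediateField.adjoin ℚ s))

/-- An element algebraic over a subring contained in `acl s` lies in `acl s`. -/
lemma mem_acl_of_subring {s : Set K} {S : Type} [CommRing S] [Algebra S K]
    (hinj : Function.Injective (algebraMap S K)) (hS : ∀ a, algebraMap S K a ∈ acl s) {f : K}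
    (h : IsAlgebraic S f) : f ∈ acl s := by
  obtain ⟨p, hp, hf⟩ := h
  let j : S →+* acl s := (algebraMap S K).codRestrict _ hS
  have hj : Function.Injective j := fun a b hab => hinj (congrArg Subtype.val hab)
  refine mem_acl_of_isAlgebraic ⟨p.map j, (Polynomial.map_ne_zero_iff hj).2 hp, ?_⟩
  rw [aeval_def, eval₂_map]
  exact hf

lemma acl_le {s t : Set K} (h : s ⊆ acl t) : acl s ≤ acl t := fun _ hf => by
  refine mem_acl_of_subring (S := IntermediateField.adjoin ℚ s) Subtype.val_injective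
    (fun a => ?_) (mem_acl.1 hf)
  have : IntermediateField.adjoin ℚ s ≤ (acl t).toIntermediateField fun x => by simp :=
    IntermediateField.adjoin_le_iff.2 h
  exact this a.2

lemma acl_mono {s t : Set K} (h : s ⊆ t) : acl s ≤ acl t := acl_le (h.trans (subset_acl t))

lemma mem_acl_of_rat {s : Set K} {f : K} (h : IsAlgebraic ℚ f) : f ∈ acl s :=
  mem_acl_of_subring (algebraMap ℚ K).injective (fun a => by simp) h

lemma mem_acl_empty {f : K} : f ∈ acl (∅ : Set K) ↔ IsAlgebraic ℚ f := by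
  refine ⟨fun h => ?_, mem_acl_of_rat⟩
  rw [mem_acl, IntermediateField.adjoin_empty] at h
  have : Algebra.IsAlgebraic ℚ (⊥ : IntermediateField ℚ K) := inferInstance
  exact h.restrictScalars ℚ

/-- A root of a nonzero polynomial with coefficients in `acl s` lies in `acl s`. -/
lemma mem_acl_of_root {s : Set K} {p : K[X]} (hp : p ≠ 0) (hc : ∀ i, p.coeff i ∈ acl s) {f : K}
    (h : p.eval f = 0) : f ∈ acl s := by
  obtain ⟨r, rfl⟩ : p ∈ Polynomial.lifts (acl s).subtype :=
    (lifts_iff_coeff_lifts p).2 fun i => ⟨⟨_, hc i⟩, rfl⟩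
  refine mem_acl_of_isAlgebraic ⟨r, fun h0 => hp (by simp [h0]), ?_⟩
  rw [aeval_def, eval₂_eq_eval_map]
  exact h

lemma mem_acl_of_sq {s : Set K} {f : K} (h : f ^ 2 ∈ acl s) : f ∈ acl s :=
  mem_acl_of_isAlgebraic (IsAlgebraic.of_pow two_pos (isAlgebraic_algebraMap (⟨_, h⟩ : acl s)))

/-- The moduli are algebraically independent. -/
def Ind (e : K) (q : Fin 18 → K) : Prop :=
  AlgebraicIndependent ℚ fun o : Option (Fin 18) => o.elim e q

end acl

section ord

variable {L : Type} [Field L] {n : ℤ} {f g : LaurentSeries L}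

lemma ge_iff : Ge n f ↔ f = 0 ∨ n ≤ f.order := by
  refine ⟨fun h => ?_, fun h => ?_⟩
  · by_cases hf : f = 0
    · exact Or.inl hf
    · exact Or.inr (not_lt.1 fun hl => HahnSeries.coeff_order_eq_zero.not.2 hf (h _ hl))
  · rcases h with rfl | h
    · exact Ge.zero n
    · exact fun i hi => HahnSeries.coeff_eq_zero_of_lt_order (hi.trans_le h)

lemma ge_order (f : LaurentSeries L) : Ge f.order f := ge_iff.2 (Or.inr le_rfl)

lemma le_order (h : Ge n f) (hf : f ≠ 0) : n ≤ f.order := (ge_iff.1 h).resolve_left hf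

lemma lead_order (hf : f ≠ 0) : f.coeff f.order ≠ 0 ∧ Lead f.order (f.coeff f.order) f :=
  ⟨HahnSeries.coeff_order_eq_zero.not.2 hf, (ge_order f).lead⟩

lemma order_of_lead {c : L} (h : Lead n c f) (hc : c ≠ 0) : f.order = n :=
  (lead_order (h.ne_zero hc)).2.uniq (lead_order (h.ne_zero hc)).1 h hc

lemma order_mul' (hf : f ≠ 0) (hg : g ≠ 0) : (f * g).order = f.order + g.order :=
  HahnSeries.order_mul hf hg

lemma order_inv' (f : LaurentSeries L) : f⁻¹.order = -f.order := by
  by_cases hf : f = 0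
  · simp [hf]
  · exact order_of_lead ((lead_order hf).2.inv (lead_order hf).1) (inv_ne_zero (lead_order hf).1)

lemma order_div' (hf : f ≠ 0) (hg : g ≠ 0) : (f / g).order = f.order - g.order := by
  rw [div_eq_mul_inv, order_mul' hf (inv_ne_zero hg), order_inv', sub_eq_add_neg]

lemma order_pow' (f : LaurentSeries L) (m : ℕ) : (f ^ m).order = m * f.order := by
  simp

/-- The term of strictly smaller order wins. -/
lemma order_add_of_ge (hf : f ≠ 0) (hg : Ge (f.order + 1) g) :
    f + g ≠ 0 ∧ (f + g).order = f.order := by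
  have h := (lead_order hf).2.add hg.lead0
  rw [add_zero] at h
  exact ⟨h.ne_zero (lead_order hf).1, order_of_lead h (lead_order hf).1⟩

lemma ge_of_mul_left {m : ℤ} (hf : f ≠ 0) (h : Ge (f.order + m) (f * g)) : Ge m g := by
  by_cases hg : g = 0
  · exact hg ▸ Ge.zero m
  · have := le_order h (mul_ne_zero hf hg)
    rw [order_mul' hf hg] at this
    exact ge_iff.2 (Or.inr (by omega))

lemma ge_of_sq (h : Ge (2 * n) (f ^ 2)) : Ge n f := by
  by_cases hf : f = 0
  · exact hf ▸ Ge.zero n
  · have := le_order h (pow_ne_zero 2 hf)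
    rw [order_pow'] at this
    exact ge_iff.2 (Or.inr (by push_cast at this; omega))

end ord

end Pool.Agent.P.MP_84b56d_ag.PC
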