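import Pool.Agent.P.MP_84b56d_ag.PC.St

/-! Bounds for orders at the places: boundedness, separation, domination and the pigeonhole step. -/

open Polynomial Ivrii.PX Ivrii.TA

namespace Pool.Agent.P.MP_84b56d_ag.PC

/-- A term of strictly smallest order determines the order of a finite sum. -/
lemma bd_sum {L α : Type} [Field L] {s : Finset α} {F : α → LaurentSeries L} {k : α} (hk : k ∈ s)
    (h0 : F k ≠ 0) (h : ∀ j ∈ s, j ≠ k → Ge ((F k).order + 1) (F j)) :
    ∑ j ∈ s, F j ≠ 0 ∧ (∑ j ∈ s, F j).order = (F k).order := by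
  classical
  rw [← Finset.add_sum_erase s F hk]
  exact order_add_of_ge h0 (Ge.sum fun j hj =>
    h j (Finset.mem_of_mem_erase hj) (Finset.ne_of_mem_erase hj))

lemma bd_ge_pow {L : Type} [Field L] (f : LaurentSeries L) (k : ℕ) : Ge (k * f.order) (f ^ k) :=
  order_pow' f k ▸ ge_order (f ^ k)

lemma bd_abs_le {α : Type} {s : Finset α} (F : α → ℤ) {k : α} (hk : k ∈ s) :
    |F k| ≤ ((∑ j ∈ s, (F j).natAbs : ℕ) : ℤ) := by
  rw [← Int.natCast_natAbs]
  exact_mod_cast Finset.single_le_sum (f := fun j => (F j).natAbs) (fun _ _ => Nat.zero_le _) hk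

theorem pBd : S_Bd := by
  intro K L ι τ _ _ _ _ _ _ _ c
  have h4 : ∀ f ∈ c.R, f ≠ 0 → ∑ i, max 0 (c.o i f) ≤ hgt c.ψ f := fun f hf h0 => by
    have h := c.pl.deg f (c.int hf) h0
    have e : ∑ i, max 0 (c.o i f) = ∑ i, (c.ψ i f).order + hgt c.ψ f := by
      rw [hgt, ← Finset.sum_add_distrib]
      exact Finset.sum_congr rfl fun i _ => by unfold Ctx.o; omega
    omega
  refine ⟨fun f hf => ⟨∑ i, (c.o i f).natAbs, hf, fun i => (ge_order _).mono ?_⟩,
    fun C => ⟨Fintype.card ι * C, fun f hf h0 i => ?_⟩, fun b hb => ⟨?_, fun i => ?_⟩, h4⟩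
  · exact neg_le_of_abs_le (bd_abs_le (fun i => c.o i f) (Finset.mem_univ i))
  · have h := c.pl.deg f (c.int hf.1) h0
    have h1 : ∀ j, 0 ≤ (c.ψ j f).order + C := fun j => by
      have := le_order (hf.2 j) ((_root_.map_ne_zero _).2 h0)
      omega
    have h2 := Finset.single_le_sum (f := fun j => (c.ψ j f).order + C) (fun j _ => h1 j)
      (Finset.mem_univ i)
    rw [Finset.sum_add_distrib, Finset.sum_const, Finset.card_univ, nsmul_eq_mul] at h2
    unfold Ctx.o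
    push_cast
    omega
  · have h1 := c.pl.deg b (c.int hb.2.1) hb.1
    have h2 := c.pl.deg b⁻¹ (c.int hb.2.2) (inv_ne_zero hb.1)
    simp only [map_inv₀, order_inv', Finset.sum_neg_distrib] at h2
    unfold Ctx.o
    omega
  · have h1 := Finset.single_le_sum (f := fun j => max 0 (c.o j b)) (fun j _ => le_max_left _ _)
      (Finset.mem_univ i)
    have h2 := Finset.single_le_sum (f := fun j => max 0 (-c.o j b)) (fun j _ => le_max_left _ _)
      (Finset.mem_univ i)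
    have h3 := h4 b hb.2.1 hb.1
    exact abs_le.2 ⟨neg_le.1 ((le_max_right _ _).trans h2), (le_max_right _ _).trans (h1.trans h3)⟩

theorem pSep (hB : S_Bd) : S_Sep := by
  intro K L ι τ _ _ _ _ _ _ _ c C
  classical
  obtain ⟨C', hC⟩ := (hB K L ι τ c).2.1 C
  refine ⟨C + C', fun b n Ψ hb ⟨i, hi⟩ hΨ hs k hk => by_contra fun h0 => ?_⟩
  obtain ⟨k₀, h1, h2⟩ := Finset.exists_min_image ((Finset.range n).filter fun k => Ψ k ≠ 0)
    (fun k => (k : ℤ) * c.o i b) ⟨k, by simp [hk, h0]⟩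
  obtain ⟨h3, h4⟩ := Finset.mem_filter.1 h1
  have hb' : c.ψ i b ≠ 0 := (_root_.map_ne_zero _).2 hb
  have h5 : c.ψ i (Ψ k₀) ≠ 0 := (_root_.map_ne_zero _).2 h4
  refine (bd_sum (F := fun k => c.ψ i (Ψ k) * c.ψ i b ^ k) h3
    (mul_ne_zero h5 (pow_ne_zero _ hb')) fun j hj hne => ?_).1 ?_
  · by_cases hj0 : Ψ j = 0
    · simpa [hj0] using Ge.zero _
    refine (((hΨ j (Finset.mem_range.1 hj)).2 i).mul (bd_ge_pow _ j)).mono ?_
    have a1 := hC _ (hΨ k₀ (Finset.mem_range.1 h3)) h4 i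
    have a2 := h2 j (Finset.mem_filter.2 ⟨hj, hj0⟩)
    have a3 : |c.o i b| ≤ ((j : ℤ) - k₀) * c.o i b := by
      rw [← abs_of_nonneg (a := ((j : ℤ) - k₀) * c.o i b) (by linarith), abs_mul]
      exact le_mul_of_one_le_left (abs_nonneg _) (Int.one_le_abs (by omega))
    rw [order_mul' h5 (pow_ne_zero _ hb'), order_pow']
    unfold Ctx.o at *
    linarith
  · simpa only [map_sum, map_mul, map_pow, map_zero] using congrArg (c.ψ i) hs

theorem pDom : S_Dom := by
  intro K L _ _ ψ p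
  set A : ℕ := ∑ k ∈ Finset.range (p.natDegree + 1), (ψ (p.coeff k)).order.natAbs with hA
  have h1 : ∀ k ∈ Finset.range (p.natDegree + 1), |(ψ (p.coeff k)).order| ≤ A := fun k hk =>
    bd_abs_le (fun k => (ψ (p.coeff k)).order) hk
  have h2 : ∀ b : K, ∀ k ∈ Finset.range (p.natDegree + 1),
      Ge (-A + k * (ψ b).order) (ψ (p.coeff k) * ψ b ^ k) := fun b k hk =>
    ((ge_order _).mono (neg_le_of_abs_le (h1 k hk))).mul (bd_ge_pow _ k)
  refine ⟨2 * A, fun b hb => ?_⟩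
  have e : ψ (p.eval b) = ∑ k ∈ Finset.range (p.natDegree + 1), ψ (p.coeff k) * ψ b ^ k := by
    simp only [eval_eq_sum_range, map_sum, map_mul, map_pow]
  refine ⟨e ▸ Ge.sum fun k hk => (h2 b k hk).mono ?_, fun hp hlt => ?_⟩
  · have a1 : (k : ℤ) ≤ p.natDegree := by have := Finset.mem_range.1 hk; omega
    have a2 := min_le_left 0 (ψ b).order
    have a3 := min_le_right 0 (ψ b).order
    have a4 : (0 : ℤ) ≤ k := Nat.cast_nonneg k
    push_cast
    nlinarith
  · have hb' : ψ b ≠ 0 := (_root_.map_ne_zero _).2 hb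
    have h5 : ψ (p.coeff p.natDegree) ≠ 0 := (_root_.map_ne_zero _).2 (leadingCoeff_ne_zero.2 hp)
    have a1 := le_of_abs_le (h1 _ (Finset.self_mem_range_succ _))
    have h6 := bd_sum (F := fun k => ψ (p.coeff k) * ψ b ^ k) (Finset.self_mem_range_succ _)
      (mul_ne_zero h5 (pow_ne_zero _ hb')) fun j hj hne => (h2 b j hj).mono (by
        have a2 : (j : ℤ) + 1 ≤ p.natDegree := by have := Finset.mem_range.1 hj; omega
        rw [order_mul' h5 (pow_ne_zero _ hb'), order_pow']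
        push_cast at hlt
        nlinarith)
    rw [← e, order_mul' h5 (pow_ne_zero _ hb'), order_pow'] at h6
    refine ⟨fun h => h6.1 (by rw [h, map_zero]), ?_⟩
    push_cast
    omega

theorem pPig (hB : S_Bd) : S_Pig := by
  intro K L ι τ _ _ _ _ _ _ _ c C
  obtain ⟨C', hC⟩ := (hB K L ι τ c).2.1 C.toNat
  have hf : ((fun b i => c.o i b) '' {b | c.Unit b ∧ ∀ i, -C ≤ c.o i b}).Finite := by
    refine (Set.Finite.pi' fun _ : ι => Set.finite_Icc (-C) C').subset ?_
    rintro _ ⟨b, hb, rfl⟩ i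
    refine ⟨hb.2 i, hC b ⟨hb.1.2.1, fun j => (ge_order _).mono ?_⟩ hb.1.1 i⟩
    have := hb.2 j
    unfold Ctx.o at this
    omega
  obtain ⟨U, h1, h2, h3⟩ := hf.exists_subset_finite_image_eq subset_rfl
  refine ⟨h2.toFinset, fun u hu => (h1 (h2.mem_toFinset.1 hu)).1, fun b hb hb' => ?_⟩
  obtain ⟨u, hu, e⟩ : (fun i => c.o i b) ∈ (fun b i => c.o i b) '' U := h3 ▸ ⟨b, ⟨hb, hb'⟩, rfl⟩
  have hu' := (h1 hu).1
  refine ⟨u, h2.mem_toFinset.2 hu, b / u, mem_acl_empty.2 (c.pl.const _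
    (c.int (div_eq_mul_inv b u ▸ mul_mem hb.2.1 hu'.2.2)) fun i => ge_iff.2 (Or.inr ?_)),
    (mul_div_cancel₀ b hu'.1).symm⟩
  have : (c.ψ i u).order = (c.ψ i b).order := congrFun e i
  rw [map_div₀, order_div' ((_root_.map_ne_zero _).2 hb.1) ((_root_.map_ne_zero _).2 hu'.1)]
  omega

end Pool.Agent.P.MP_84b56d_ag.PC
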