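import Mathlib

/-! Near-integral points and arithmetically special schemes. -/

open AlgebraicGeometry CategoryTheory

namespace Pool.Agent.P.MP_84b56d_ag.PC

/-- `P` is a point of `𝒳` over `A` with values in the fraction field of `A` that extends to the
local ring of every height one prime of `A`. -/
def NearIntegral {A : Type} [CommRing A] [IsDomain A] {𝒳 : Scheme.{0}} (f : 𝒳 ⟶ Spec (.of A))
    (P : Spec (.of (FractionRing A)) ⟶ 𝒳) : Prop :=
  P ≫ f = Spec.map (CommRingCat.ofHom (algebraMap A (FractionRing A))) ∧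
    ∀ (p : Ideal A) [p.IsPrime], p.height = 1 →
      ∃ (Q : Spec (.of (Localization.AtPrime p)) ⟶ 𝒳)
        (j : Localization.AtPrime p →ₐ[A] FractionRing A),
        Q ≫ f = Spec.map (CommRingCat.ofHom (algebraMap A (Localization.AtPrime p))) ∧
          Spec.map (CommRingCat.ofHom j.toRingHom) ≫ Q = P

/-- `X` over `k` has a separated model of finite type over a finitely generated subring `A` of `k`
whose near-integral points, viewed as `k`-points of `X`, are dense in `X`. -/
def ArithSpecial {k : Type} [Field k] {X : Scheme.{0}} (s : X ⟶ Spec (.of k)) : Prop :=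
  ∃ (A : Subring k) (𝒳 : Scheme.{0}) (f : 𝒳 ⟶ Spec (.of A)) (g : X ⟶ 𝒳),
    Algebra.FiniteType ℤ A ∧ IsSeparated f ∧ LocallyOfFiniteType f ∧ QuasiCompact f ∧
    IsPullback g s f (Spec.map (CommRingCat.ofHom A.subtype)) ∧
    Dense {z : X | ∃ (x : Spec (.of k) ⟶ X) (P : Spec (.of (FractionRing A)) ⟶ 𝒳)
      (i : FractionRing A →ₐ[A] k), NearIntegral f P ∧ x ≫ s = 𝟙 _ ∧
        x ≫ g = Spec.map (CommRingCat.ofHom i.toRingHom) ≫ P ∧ z ∈ Set.range x}

end Pool.Agent.P.MP_84b56d_ag.PC
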