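import Pool.Agent.P.MP_84b56d_ag.PC.St

/-! Existence, uniqueness and lifting of derivations. -/

open Polynomial
open scoped TensorProduct

namespace Pool.Agent.P.MP_84b56d_ag.PC

theorem der_ext_aux {K L : Type} [Field K] [Field L] [CharZero L] [Algebra K L]
    {S : Type} [CommRing S] [Algebra K S] [Algebra S L]
    [IsScalarTower K S L] (hinj : Function.Injective (algebraMap S L))
    (halg : Algebra.IsAlgebraic S L) (d : Derivation K S L) :
    ∃ D : Derivation K L L, ∀ x, D (algebraMap S L x) = d x := by
  have : IsDomain S := hinj.isDomain _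
  have : FaithfulSMul S L := (faithfulSMul_iff_algebraMap_injective S L).2 hinj
  let : Algebra (FractionRing S) L := FractionRing.liftAlgebra S L
  have : IsScalarTower S (FractionRing S) L := FractionRing.isScalarTower_liftAlgebra S L
  have : Algebra.IsAlgebraic (FractionRing S) L :=
    Algebra.IsAlgebraic.extendScalars (R := S) (IsFractionRing.injective S (FractionRing S))
  have : CharZero (FractionRing S) := (algebraMap (FractionRing S) L).charZero
  have : Algebra.FormallyEtale S (FractionRing S) :=
    Algebra.FormallyEtale.of_isLocalization (nonZeroDivisors S)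
  have : Algebra.FormallyEtale (FractionRing S) L :=
    Algebra.FormallyEtale.of_isSeparable (FractionRing S) L
  have : Algebra.FormallyEtale S L := Algebra.FormallyEtale.comp S (FractionRing S) L
  let e := KaehlerDifferential.tensorKaehlerEquivOfFormallyEtale K S L
  let φ : L ⊗[S] Ω[S⁄K] →ₗ[L] L := d.liftKaehlerDifferential.liftBaseChange L
  refine ⟨(φ ∘ₗ e.symm.toLinearMap).compDer (KaehlerDifferential.D K L), fun x => ?_⟩
  change φ (e.symm (KaehlerDifferential.D K L (algebraMap S L x))) = d x
  rw [KaehlerDifferential.tensorKaehlerEquivOfFormallyEtale_symm_D_algebraMap]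
  simp [φ]

/-- A derivation with prescribed values on an algebraically independent family. -/
theorem der_ext {k0 K τ : Type} [Field k0] [Field K] [CharZero K] [Algebra k0 K]
    {t : τ → K} (a : τ → K) (ht : AlgebraicIndependent k0 t) :
    ∃ D : Derivation k0 K K, ∀ i, D (t i) = a i := by
  classical
  obtain ⟨B, hsB, hB⟩ := exists_isTranscendenceBasis_superset (R := k0) (s := Set.range t)
    ht.to_subtype_range
  let v : B → K := fun b => Function.extend t a 0 b.1
  let : Algebra (MvPolynomial B k0) K := (MvPolynomial.aeval (Subtype.val : B → K)).toAlgebra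
  have e0 : ∀ p, algebraMap (MvPolynomial B k0) K p = MvPolynomial.aeval Subtype.val p :=
    fun _ => rfl
  have : IsScalarTower k0 (MvPolynomial B k0) K :=
    IsScalarTower.of_algebraMap_eq fun c => by rw [e0]; simp
  have halg : Algebra.IsAlgebraic (MvPolynomial B k0) K := by
    refine ⟨fun x => ?_⟩
    obtain ⟨p, hp, hx⟩ := hB.isAlgebraic.isAlgebraic x
    let e := hB.1.aevalEquiv
    refine ⟨p.map e.symm.toRingEquiv.toRingHom,
      (Polynomial.map_ne_zero_iff e.symm.injective).2 hp, ?_⟩
    have e1 : (algebraMap (MvPolynomial B k0) K).comp e.symm.toRingEquiv.toRingHom =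
        algebraMap (Algebra.adjoin k0 (Set.range (Subtype.val : B → K))) K := by
      refine RingHom.ext fun y => ?_
      obtain ⟨z, rfl⟩ := e.surjective y
      refine Eq.trans ?_ (hB.1.algebraMap_aevalEquiv z).symm
      exact congrArg (algebraMap (MvPolynomial B k0) K) (e.symm_apply_apply z)
    rw [aeval_def, eval₂_map, e1]
    exact hx
  obtain ⟨D, hD⟩ := der_ext_aux (K := k0) (S := MvPolynomial B k0) (L := K) hB.1 halg
    (MvPolynomial.mkDerivation k0 v)
  refine ⟨D, fun i => ?_⟩
  have := hD (MvPolynomial.X ⟨t i, hsB ⟨i, rfl⟩⟩)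
  rw [e0, MvPolynomial.aeval_X, MvPolynomial.mkDerivation_X] at this
  exact this.trans (ht.injective.extend_apply a 0 i)

theorem pExt : S_Ext := by
  intro k0 K τ _ _ _ _ t a ht
  obtain ⟨D, hD⟩ := der_ext a ht
  exact ⟨Derivation.mk' (D.toLinearMap.toAddMonoidHom.toRatLinearMap) fun x y => D.leibniz x y,
    fun c => D.map_algebraMap c, hD⟩

theorem pLift : S_Lift := by
  intro K Ω _ _ _ _ _ h D
  exact der_ext_aux (K := ℚ) (algebraMap K Ω).injective h ((Algebra.linearMap K Ω).compDer D)

theorem pUniq : S_Uniq := by
  intro K E _ _ _ ψ Θ s hm hs f hf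
  have h1 : Θ 1 = 0 := by
    have := hm 1 1
    rw [mul_one, map_one ψ, one_mul] at this
    linear_combination -this
  let F : Subfield K :=
    { carrier := {x | Θ x = 0}
      mul_mem' := fun {x y} (hx : Θ x = 0) (hy : Θ y = 0) => by
        change Θ (x * y) = 0
        rw [hm, hx, hy, mul_zero, mul_zero, add_zero]
      one_mem' := h1
      add_mem' := fun {x y} (hx : Θ x = 0) (hy : Θ y = 0) => by
        change Θ (x + y) = 0
        rw [map_add, hx, hy, add_zero]
      zero_mem' := map_zero Θ
      neg_mem' := fun {x} (hx : Θ x = 0) => by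
        change Θ (-x) = 0
        rw [map_neg, hx, neg_zero]
      inv_mem' := fun x (hx : Θ x = 0) => by
        change Θ x⁻¹ = 0
        by_cases h0 : x = 0
        · rw [h0, inv_zero, map_zero]
        have := hm x x⁻¹
        rw [mul_inv_cancel₀ h0, h1, hx, mul_zero, add_zero] at this
        exact (mul_eq_zero.1 this.symm).resolve_left ((map_ne_zero ψ).2 h0) }
  have hF : IntermediateField.adjoin ℚ s ≤ F.toIntermediateField fun x => by simp :=
    IntermediateField.adjoin_le_iff.2 hs
  have h2 : ∀ p : (IntermediateField.adjoin ℚ s)[X],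
      Θ (aeval f p) = ψ (aeval f (derivative p)) * Θ f := by
    intro p
    induction p using Polynomial.induction_on with
    | C a =>
      have : Θ a = 0 := hF a.2
      simpa using this
    | add p q hp hq => simp only [map_add, hp, hq, add_mul]
    | monomial n a ih =>
      rw [pow_succ, ← mul_assoc]
      generalize C a * X ^ n = p at ih
      simp only [map_mul, derivative_mul, derivative_X, aeval_X, mul_one, map_add, hm, ih]
      ring
  have hi := (mem_acl.1 hf).isIntegral
  have h3 := (minpoly.irreducible hi).separable.aeval_derivative_ne_zero (minpoly.aeval _ f)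
  have h4 := h2 (minpoly _ f)
  rw [minpoly.aeval, map_zero] at h4
  exact (mul_eq_zero.1 h4.symm).resolve_left ((map_ne_zero ψ).2 h3)

end Pool.Agent.P.MP_84b56d_ag.PC
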