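import Pool.Agent.P.MP_84b56d_ag.PC.St

/-! The punctured surface is not arithmetically special; assembly of the main statement. -/

open Polynomial AlgebraicGeometry CategoryTheory

noncomputable section

namespace Pool.Agent.P.MP_84b56d_ag.PC

theorem trdeg_of_uncountable (k : Type) [Field k] [CharZero k] [Uncountable k] :
    19 ≤ Algebra.trdeg ℚ k := by
  obtain ⟨s, hs⟩ := exists_isTranscendenceBasis ℚ k
  by_contra hlt
  have h1 : Cardinal.mk s ≤ Cardinal.aleph0 := by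
    rw [hs.cardinalMk_eq_trdeg]
    exact (not_le.1 hlt).le.trans (Cardinal.ofNat_lt_aleph0 (n := 19)).le
  have h2 := hs.isAlgebraic
  have h3 := Algebra.IsAlgebraic.cardinalMk_le_max
    (Algebra.adjoin ℚ (Set.range ((↑) : s → k))) k
  have h4 := Algebra.cardinalMk_adjoin_le ℚ (Set.range ((↑) : s → k))
  have h5 : Cardinal.mk (Set.range ((↑) : s → k)) ≤ Cardinal.aleph0 :=
    Cardinal.mk_range_le.trans h1
  have h6 : Cardinal.mk k ≤ Cardinal.aleph0 :=
    h3.trans (max_le (h4.trans (max_le (max_le Cardinal.mk_le_aleph0 h5) le_rfl)) le_rfl)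
  exact absurd h6 (not_le.2 Cardinal.aleph0_lt_mk)

theorem pTrdeg : S_Trdeg := by
  have : Uncountable ℂ := Complex.ofReal_injective.uncountable
  refine ⟨fun k _ _ h => ?_, trdeg_of_uncountable ℂ⟩
  obtain ⟨s, hs⟩ := exists_isTranscendenceBasis ℚ k
  have h1 : Cardinal.mk (Option (Fin 18)) ≤ Cardinal.mk s := by
    rw [hs.cardinalMk_eq_trdeg]
    refine le_trans (le_of_eq ?_) h
    simp
  obtain ⟨f⟩ := (Cardinal.le_def _ _).1 h1
  refine ⟨(f none : k), fun j => (f (some j) : k), ?_⟩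
  have h2 := hs.1.comp f f.injective
  unfold Ind
  convert h2 using 2 with o
  cases o <;> rfl

lemma not_aeval {k B : Type} [Field k] [CommRing B] [Algebra k B] (φ : B →ₐ[k] k) (b : B)
    (p : k[X]) : φ (aeval b p) = p.eval (φ b) := by
  rw [← aeval_algHom_apply, coe_aeval_eq_eval]

theorem pNot (h1 : S_Red1) (h2 : S_Red2) (h3 : S_Core) : S_Not := by
  classical
  intro k _ _ _ e q U hI hU hS
  obtain ⟨A, κ, hA, hφ⟩ := h1 k (Bq (pd e q)) U (Finset.univ.image (co (pd e q))) (co _ 1)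
    (aeval (co (pd e q) 2) (pY e)) (fun z hz => (hU z).1 hz) hS
  obtain ⟨R, hR, hκ, hRO⟩ := h2 k A (κ ∪ insert e (Finset.univ.image q)) hA
  have he : e ∈ R := hκ e (by simp)
  have hq : ∀ j, q j ∈ R := fun j => hκ _ (by simp)
  have hfin := h3 k R e q hR he hq hI
  obtain ⟨b₀, hb₀⟩ := Infinite.exists_notMem_finset (insert 0 hfin.toFinset)
  rw [Finset.mem_insert, not_or] at hb₀
  obtain ⟨x₀, hx₀⟩ := IsAlgClosed.exists_pow_nat_eq (1 + (pd e q).eval b₀) two_pos
  obtain ⟨φ₀, hφ₀⟩ := exists_pt (pd e q) (E := k) ![x₀, 1, b₀, b₀⁻¹]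
    (by simp [hx₀]) (by simp [hb₀.1])
  have hev : ∀ φ : Bq (pd e q) →ₐ[k] k, φ (co _ 1 * ∏ c ∈ hfin.toFinset,
      (co _ 2 - algebraMap k _ c)) ≠ 0 ↔ φ (co _ 1) ≠ 0 ∧ φ (co _ 2) ∉ hfin.toFinset := by
    intro φ
    rw [map_mul, map_prod, mul_ne_zero_iff, Finset.prod_ne_zero_iff]
    refine and_congr_right fun _ => ⟨fun h hm => h _ hm (by simp), fun h c hc h0 => h ?_⟩
    rw [map_sub, AlgHom.commutes, sub_eq_zero] at h0
    rw [h0]
    exact hc
  have y₀ : φ₀ (co _ 1) ≠ 0 := by rw [hφ₀]; simp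
  obtain ⟨φ, hne, hO⟩ := hφ (co _ 1 * ∏ c ∈ hfin.toFinset, (co _ 2 - algebraMap k _ c))
    ⟨⟨RingHom.ker φ₀, RingHom.ker_isPrime φ₀⟩, (hU _).2 (Or.inl y₀),
      (hev φ₀).2 ⟨y₀, by rw [hφ₀]; exact hb₀.2⟩⟩
  obtain ⟨hy, hb⟩ := (hev φ).1 hne
  set F := Subfield.closure ((A : Set k) ∪ (κ ∪ insert e (Finset.univ.image q) : Finset k))
    with hF
  have hAF : ∀ a ∈ A, a ∈ F := fun a ha => Subfield.subset_closure (Or.inl ha)
  have hκF : ∀ a ∈ κ, a ∈ F := fun a ha => Subfield.subset_closure (Or.inr (by simp [ha]))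
  have heF : e ∈ F := Subfield.subset_closure (Or.inr (by simp))
  have hcF : ∀ i, φ (co _ i) ∈ F := fun i =>
    (hO F.toSubring ⟨hAF, Or.inl fun a ha => F.inv_mem (hAF a ha)⟩ hκF).1 _ (by simp)
  have hκO : ∀ O : Subring k, (∀ r ∈ R, r ∈ O) → ∀ a ∈ κ, a ∈ O := fun O h a ha =>
    h a (hκ a (by simp [ha]))
  have hcR : ∀ i, φ (co _ i) ∈ R := fun i => hRO _ (hcF i) fun O hA' hRO' =>
    (hO O hA' (hκO O hRO')).1 _ (by simp)
  have hinv : φ (co _ 2) * φ (co _ 3) = 1 := by rw [← map_mul, co_inv, map_one]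
  have hpell := congrArg φ (co_pell (pd e q))
  rw [map_sub, map_mul, map_pow, map_pow, map_one, not_aeval] at hpell
  apply hb
  rw [Set.Finite.mem_toFinset]
  refine ⟨left_ne_zero_of_mul_eq_one hinv, hcR 2, ?_, _, hcR 0, _, hcR 1, hy, hpell, fun hq' => ?_⟩
  · rw [← eq_inv_of_mul_eq_one_right hinv]
    exact hcR 3
  by_cases hY : (pY e).eval (φ (co _ 2)) = 0
  · rw [hY, inv_zero]
    exact zero_mem _
  refine hRO _ (F.inv_mem ?_) fun O hA' hRO' => ?_
  · rw [eval_pY]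
    exact add_mem (add_mem (one_mem _) (hcF 2)) (mul_mem heF (pow_mem (hcF 2) _))
  obtain ⟨α, hα, β, hβ, h⟩ := (hO O hA' (hκO O hRO')).2
  rw [not_aeval] at h
  have : ((pY e).eval (φ (co _ 2)))⁻¹ = α * (φ (co _ 1) / (pY e).eval (φ (co _ 2))) + β := by
    field_simp
    linear_combination -h
  rw [this]
  exact add_mem (mul_mem hα (hRO' _ hq')) hβ

theorem pMain (hDeg : S_Deg) (hDom : S_Domain) (hSm : S_Smooth) (hCo : S_Codim) (hAff : S_Aff)
    (hPts : S_Pts) (hNot : S_Not) (hTr : S_Trdeg) : S_Main := by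
  classical
  intro k _ _ _ htr
  obtain ⟨e, q, hI⟩ := hTr.1 k htr
  obtain ⟨dY, -, -, dd, -⟩ := hDeg k e q hI
  have hY : pY e ≠ 0 := fun h => by simp [h] at dY
  have hd : pd e q ≠ 0 := fun h => by simp [h] at dd
  have := hDom k _ hd
  let S : Finset k := insert e (insert 2⁻¹ (Finset.univ.image q))
  let A : Subring k := Subring.closure (S : Set k)
  have he : e ∈ A := Subring.subset_closure (by simp [S])
  have hq : ∀ j, q j ∈ A := fun j => Subring.subset_closure (by simp [S])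
  have h2 : (2 : k)⁻¹ ∈ A := Subring.subset_closure (by simp [S])
  have hA : Algebra.FiniteType ℤ A := by
    have h : Algebra.FiniteType ℤ (Algebra.adjoin ℤ (S : Set k)) :=
      (Subalgebra.fg_iff_finiteType _).1 (Subalgebra.fg_adjoin_finset S)
    have h' : (Algebra.adjoin ℤ (S : Set k)).toSubring = A := by
      rw [Algebra.adjoin_int]
      rfl
    exact h.equiv (RingEquiv.subringCongr h').toIntAlgEquiv
  refine ⟨Spec (.of (Bq (pd e q))), Spec.map (CommRingCat.ofHom (algebraMap k _)),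
    PrimeSpectrum.zeroLocus {co (pd e q) 1, aeval (co (pd e q) 2) (pY e)},
    PrimeSpectrum.isClosed_zeroLocus _, inferInstance, inferInstance, (hSm k _).2, inferInstance,
    (hSm k _).1, fun z hz => ?_, ?_, hNot k e q _ hI fun z => ?_⟩
  · have hz' := (PrimeSpectrum.mem_zeroLocus _ _).1 hz
    exact hCo k _ (pY e) inferInstance hY z (hz' (by simp)) (hz' (by simp))
  · exact hAff k A (pd ⟨e, he⟩ fun j => ⟨q j, hq j⟩) _ hA (map_pd _ _ _)
      (hPts k e q A hI he hq h2)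
  · change z ∉ PrimeSpectrum.zeroLocus _ ↔ _
    rw [PrimeSpectrum.mem_zeroLocus, Set.insert_subset_iff, Set.singleton_subset_iff, not_and_or]
    rfl

end Pool.Agent.P.MP_84b56d_ag.PC
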