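import Pool.Agent.P.MP_84b56d_ag.PC.St

/-! Package Red2: reduction of the height one conditions to one finitely generated ring. -/

open Polynomial nonZeroDivisors

noncomputable section

namespace Pool.Agent.P.MP_84b56d_ag.PC

lemma red2_int_iff {D k : Type} [CommRing D] [Field k] [Algebra D k] (x : k) :
    IsIntegral D x ↔ ∀ V : ValuationSubring k, (∀ d, algebraMap D k d ∈ V) → x ∈ V := by
  have h := iInf_valuationSubring_superset (K := k) (s := Set.range (algebraMap D k))
  have e : Subring.closure (Set.range (algebraMap D k)) = (algebraMap D k).range := by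
    rw [← RingHom.coe_range, Subring.closure_eq]
  rw [e] at h
  have h2 : IsIntegral D x ↔ IsIntegral (algebraMap D k).range x := by
    let : Algebra D (algebraMap D k).range := (algebraMap D k).rangeRestrict.toAlgebra
    have : IsScalarTower D (algebraMap D k).range k := .of_algebraMap_eq fun _ => rfl
    have : Algebra.IsIntegral D (algebraMap D k).range :=
      Algebra.isIntegral_of_surjective (algebraMap D k).rangeRestrict_surjective
    exact ⟨fun h => h.tower_top, fun h => isIntegral_trans x h⟩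
  have h3 : IsIntegral (algebraMap D k).range x ↔
      x ∈ (integralClosure (algebraMap D k).range k).toSubring := Iff.rfl
  rw [h2, h3, ← h, Subring.mem_iInf]
  constructor
  · intro H V hV
    exact H ⟨V, by rintro _ ⟨d, rfl⟩; exact hV d⟩
  · intro H V
    exact H V.1 fun d => V.2 ⟨d, rfl⟩

lemma red2_ext (R k : Type) [CommRing R] [IsDomain R] [UniqueFactorizationMonoid R]
    [Algebra.FiniteType ℤ R] [Field k] [Algebra R k] [FaithfulSMul R k] (G : Finset k) :
    ∃ (S : Type) (_ : CommRing S) (_ : IsDomain S) (_ : UniqueFactorizationMonoid S)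
      (_ : Algebra R S) (_ : Algebra S k) (_ : IsScalarTower R S k) (_ : FaithfulSMul S k),
      Algebra.FiniteType ℤ S ∧ (∀ g ∈ G, IsAlgebraic S g) ∧
      (∀ x : S, algebraMap S k x ∈ Algebra.adjoin R (G : Set k)) ∧
      (∀ g : R, Prime g → Prime (algebraMap R S g)) ∧
      ∀ g h : R, algebraMap R S g ∣ algebraMap R S h → g ∣ h := by
  obtain ⟨s, hs⟩ := (AlgebraicIndependent.matroid R k).exists_isBasis (G : Set k) (by simp)
  obtain ⟨hi, hsG, halg⟩ := AlgebraicIndependent.matroid_isBasis_iff.mp hs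
  have hi' : AlgebraicIndependent R ((↑) : s → k) := hi
  have : Finite s := (G.finite_toSet.subset hsG).to_subtype
  let : Algebra (MvPolynomial s R) k :=
    (MvPolynomial.aeval (R := R) ((↑) : s → k)).toRingHom.toAlgebra
  have ham : ∀ x, algebraMap (MvPolynomial s R) k x = MvPolynomial.aeval ((↑) : s → k) x :=
    fun _ => rfl
  have hr : ∀ x, algebraMap (MvPolynomial s R) k x ∈ Algebra.adjoin R s := fun x => by
    rw [ham, Algebra.adjoin_eq_range]
    exact ⟨x, rfl⟩
  have : IsScalarTower R (MvPolynomial s R) k := .of_algebraMap_eq fun x => by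
    rw [ham, AlgHom.commutes]
  have : FaithfulSMul (MvPolynomial s R) k :=
    (faithfulSMul_iff_algebraMap_injective _ _).mpr hi'
  refine ⟨MvPolynomial s R, inferInstance, inferInstance, inferInstance, inferInstance,
    inferInstance, inferInstance, inferInstance, ?_, fun g hg => ?_, fun x => ?_,
    fun g hg => ?_, fun g h hgh => ?_⟩
  · exact Algebra.FiniteType.trans (S := R) inferInstance inferInstance
  · let : Algebra (MvPolynomial s R) (Algebra.adjoin R s) :=
      ((algebraMap (MvPolynomial s R) k).codRestrict (Algebra.adjoin R s) hr).toAlgebra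
    have : IsScalarTower (MvPolynomial s R) (Algebra.adjoin R s) k :=
      .of_algebraMap_eq fun _ => rfl
    have : Algebra.IsIntegral (MvPolynomial s R) (Algebra.adjoin R s) :=
      Algebra.isIntegral_of_surjective (by
        rintro ⟨y, hy⟩
        rw [Algebra.adjoin_eq_range] at hy
        obtain ⟨x, rfl⟩ := hy
        exact ⟨x, rfl⟩)
    exact (halg g hg).restrictScalars_of_isIntegral _
  · exact Algebra.adjoin_mono hsG (hr x)
  · exact (MvPolynomial.prime_C_iff _).mpr hg
  · have := (MvPolynomial.C_dvd_iff_dvd_coeff g (MvPolynomial.C h : MvPolynomial s R)).mp hgh 0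
    simpa using this

lemma red2_height {T A : Type} [CommRing T] [IsDomain T] [UniqueFactorizationMonoid T]
    [CommRing A] [IsDomain A] [Algebra T A] (p : Ideal A) [p.IsPrime] (hp : p ≠ ⊥)
    (hint : ∀ a : A, ∃ n : A, n ∉ p ∧ IsIntegral T (n * a))
    (hq : ∀ g h : T, Prime g → algebraMap T A g ∈ p → algebraMap T A h ∈ p → g ∣ h) :
    p.height = 1 := by
  have key : ∀ I J : Ideal A, I.IsPrime → I < J → J ≤ p →
      I.comap (algebraMap T A) < J.comap (algebraMap T A) := by
    intro I J hI hIJ hJ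
    obtain ⟨a, haJ, haI⟩ := SetLike.exists_of_lt hIJ
    obtain ⟨n, hn, hna⟩ := hint a
    refine Ideal.comap_lt_comap_of_integral_mem_sdiff hIJ.le (x := n * a)
      ⟨J.mul_mem_left n haJ, fun h => ?_⟩ hna
    exact (hI.mem_or_mem h).elim (fun h => hn (hJ (hIJ.le h))) haI
  refine le_antisymm ?_ ?_
  · refine (Ideal.height_le_iff (n := 1)).mpr fun q hq' hqp => ?_
    have : q = ⊥ := by
      by_contra hq0
      have h1 := key ⊥ q Ideal.isPrime_bot (bot_lt_iff_ne_bot.mpr hq0) hqp.le
      have h2 := key q p hq' hqp le_rfl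
      obtain ⟨g, hg, hgp⟩ := (Ideal.IsPrime.comap (algebraMap T A) (K := q)).exists_mem_prime_of_ne_bot
        (ne_bot_of_gt h1)
      obtain ⟨h, hhp, hhq⟩ := SetLike.exists_of_lt h2
      exact hhq (Ideal.mem_of_dvd _ (hq g h hgp (hqp.le hg) hhp) hg)
    rw [this, Ideal.height_bot]
    norm_num
  · exact Order.one_le_iff_ne_zero.mpr fun h => hp (Ideal.height_eq_zero_iff_eq_bot.mp h)

lemma red2_ufd {S F : Type} [CommRing S] [IsDomain S] [UniqueFactorizationMonoid S] [Field F]
    [Algebra S F] [IsFractionRing S F] (M : Submonoid S) (hu : ∀ u, IsUnit u → u ∈ M) (c : F)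
    (h : ∀ π : S, Prime π → π ∉ M →
      ∃ a x : S, ¬ π ∣ x ∧ c = algebraMap S F a * (algebraMap S F x)⁻¹) :
    ∃ (a x : S) (_ : x ∈ M), c = algebraMap S F a * (algebraMap S F x)⁻¹ := by
  have H : ∀ b : S, b ≠ 0 → (∀ π : S, Prime π → π ∣ b → π ∈ M) → b ∈ M := by
    intro b
    induction b using UniqueFactorizationMonoid.induction_on_prime with
    | h₁ => exact fun h => (h rfl).elim
    | h₂ x hx => exact fun _ _ => hu x hx
    | h₃ a p ha hp ih =>
      exact fun _ H => M.mul_mem (H p hp (dvd_mul_right _ _))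
        (ih ha fun π hπ hd => H π hπ (hd.mul_left _))
  have hd0 : ((IsFractionRing.den S c : S⁰) : S) ≠ 0 := nonZeroDivisors.coe_ne_zero _
  have hc := IsFractionRing.mk'_num_den' S c
  refine ⟨IsFractionRing.num S c, IsFractionRing.den S c, H _ hd0 fun π hπ hd => ?_,
    by rw [← div_eq_mul_inv, hc]⟩
  by_contra hM
  obtain ⟨a, x, hx, hax⟩ := h π hπ hM
  have hx0 : x ≠ 0 := fun h0 => hx (h0 ▸ dvd_zero _)
  have inj := IsFractionRing.injective S F
  have e1 : algebraMap S F x ≠ 0 := (map_ne_zero_iff _ inj).mpr hx0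
  have e2 : algebraMap S F (IsFractionRing.den S c : S⁰) ≠ 0 := (map_ne_zero_iff _ inj).mpr hd0
  have e : IsFractionRing.num S c * x = a * (IsFractionRing.den S c : S⁰) := by
    apply inj
    rw [map_mul, map_mul, ← div_eq_div_iff e2 e1, hc, div_eq_mul_inv, hax]
  have : π ∣ IsFractionRing.num S c :=
    (hπ.dvd_or_dvd (e ▸ hd.mul_left a)).resolve_right hx
  exact hπ.not_isUnit (IsFractionRing.num_den_reduced S c this hd)

lemma red2_mult {S k : Type} [CommRing S] [IsDomain S] [Field k] [Algebra S k] (G : Finset k)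
    (h : ∀ g ∈ G, IsAlgebraic S g) :
    ∃ μ : S, μ ≠ 0 ∧ ∀ g ∈ G, IsIntegral S (algebraMap S k μ * g) := by
  classical
  induction G using Finset.induction_on with
  | empty => exact ⟨1, one_ne_zero, by simp⟩
  | insert a s _ ih =>
    obtain ⟨μ, h0, hμ⟩ := ih fun g hg => h g (Finset.mem_insert_of_mem hg)
    obtain ⟨y, hy, hya⟩ := (h a (Finset.mem_insert_self _ _)).exists_integral_multiple
    rw [Algebra.smul_def] at hya
    refine ⟨μ * y, mul_ne_zero h0 hy, fun g hg => ?_⟩
    rcases Finset.mem_insert.mp hg with rfl | hg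
    · rw [map_mul, mul_assoc]
      exact isIntegral_algebraMap.mul hya
    · rw [map_mul, mul_comm (algebraMap S k μ), mul_assoc]
      exact isIntegral_algebraMap.mul (hμ g hg)

lemma red2_pow {T k : Type} [CommRing T] [Field k] [Algebra T k] (G : Finset k) (ν : T)
    (h : ∀ g ∈ G, IsIntegral T (algebraMap T k ν * g)) (a : k)
    (ha : a ∈ Algebra.adjoin ℤ (G : Set k)) : ∃ N : ℕ, IsIntegral T (algebraMap T k ν ^ N * a) := by
  have hν : ∀ N : ℕ, IsIntegral T (algebraMap T k ν ^ N) := fun N => isIntegral_algebraMap.pow N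
  induction ha using Algebra.adjoin_induction with
  | mem x hx => exact ⟨1, by simpa using h x hx⟩
  | algebraMap r =>
    refine ⟨0, ?_⟩
    have : IsIntegral T (algebraMap T k (r : T)) := isIntegral_algebraMap
    simpa using this
  | add x y _ _ hx hy =>
    obtain ⟨m, hm⟩ := hx
    obtain ⟨n, hn⟩ := hy
    refine ⟨m + n, ?_⟩
    have e : algebraMap T k ν ^ (m + n) * (x + y) = algebraMap T k ν ^ n *
      (algebraMap T k ν ^ m * x) + algebraMap T k ν ^ m * (algebraMap T k ν ^ n * y) := by ring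
    exact e ▸ ((hν n).mul hm).add ((hν m).mul hn)
  | mul x y _ _ hx hy =>
    obtain ⟨m, hm⟩ := hx
    obtain ⟨n, hn⟩ := hy
    refine ⟨m + n, ?_⟩
    have e : algebraMap T k ν ^ (m + n) * (x * y) =
      algebraMap T k ν ^ m * x * (algebraMap T k ν ^ n * y) := by ring
    exact e ▸ hm.mul hn

lemma red2_fin {D F k : Type} [CommRing D] [IsDomain D] [IsIntegrallyClosed D]
    [IsNoetherianRing D] [Field F] [Algebra D F] [IsFractionRing D F] [Field k] [CharZero k]
    [Algebra F k] [Algebra D k] [IsScalarTower D F k] (G : Finset k)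
    (hG : ∀ g ∈ G, IsIntegral F g) : ∃ B : Finset k, (∀ b ∈ B, IsIntegral D b) ∧
      ∀ f ∈ IntermediateField.adjoin F (G : Set k), IsIntegral D f →
        f ∈ Submodule.span D (B : Set k) := by
  have : CharZero F := (algebraMap F k).charZero
  let E := IntermediateField.adjoin F (G : Set k)
  have : FiniteDimensional F E := IntermediateField.finiteDimensional_adjoin hG
  have hf : Module.Finite D (integralClosure D E) :=
    IsIntegralClosure.finite D F E (integralClosure D E)
  let φ : integralClosure D E →ₐ[D] k := (E.val.restrictScalars D).comp (integralClosure D E).val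
  obtain ⟨B, hB⟩ := hf.fg_top.map φ.toLinearMap
  refine ⟨B, fun b hb => ?_, fun f hf hi => ?_⟩
  · have : b ∈ Submodule.span D (B : Set k) := Submodule.subset_span hb
    rw [hB] at this
    obtain ⟨y, -, rfl⟩ := this
    exact (integralClosure.isIntegral y).map φ
  · rw [hB]
    have : IsIntegral D (⟨f, hf⟩ : E) :=
      (isIntegral_algHom_iff (E.val.restrictScalars D) Subtype.val_injective).mp hi
    exact ⟨⟨⟨f, hf⟩, this⟩, trivial, rfl⟩

lemma red2_loc {S F k : Type} [CommRing S] [IsDomain S] [UniqueFactorizationMonoid S] [Field F]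
    [Algebra S F] [IsFractionRing S F] [Field k] [Algebra F k] [Algebra S k]
    [IsScalarTower S F k] (π : S) (hπ : Prime π) (f : k)
    (h : ∀ V : ValuationSubring k, (∀ x : S, algebraMap S k x ∈ V) →
      (∀ x : S, ¬ π ∣ x → (algebraMap S k x)⁻¹ ∈ V) → f ∈ V) (i : ℕ) :
    ∃ a x : S, ¬ π ∣ x ∧ (minpoly F f).coeff i = algebraMap S F a * (algebraMap S F x)⁻¹ := by
  have hP : (Ideal.span {π}).IsPrime := (Ideal.span_singleton_prime hπ.ne_zero).mpr hπ
  let D := Localization.subalgebra.ofField F (Ideal.span {π}).primeCompl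
    (Ideal.primeCompl_le_nonZeroDivisors _)
  have : IsIntegrallyClosed D := isIntegrallyClosed_of_isLocalization D
    (Ideal.span {π}).primeCompl (Ideal.primeCompl_le_nonZeroDivisors _)
  have hi : IsIntegral D f := (red2_int_iff f).mpr fun V hV => h V (fun x => by
      have := hV ⟨algebraMap S F x, D.algebraMap_mem x⟩
      rw [IsScalarTower.algebraMap_apply S F k]
      exact this) fun x hx => by
    have := hV ⟨(algebraMap S F x)⁻¹, 1, x, fun h => hx (Ideal.mem_span_singleton.mp h), by simp⟩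
    rw [IsScalarTower.algebraMap_apply S F k, ← map_inv₀]
    exact this
  rw [minpoly.isIntegrallyClosed_eq_field_fractions' F hi, coeff_map]
  obtain ⟨a, x, hx, e⟩ := ((minpoly D f).coeff i).2
  exact ⟨a, x, fun h => hx (Ideal.mem_span_singleton.mpr h), e⟩

lemma red2_lift {D F k : Type} [CommRing D] [Field F] [Algebra D F] [Field k] [Algebra F k]
    [Algebra D k] [IsScalarTower D F k] (f : k) (hf : IsIntegral F f)
    (h : ∀ i, (minpoly F f).coeff i ∈ Set.range (algebraMap D F)) : IsIntegral D f := by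
  have : Nontrivial D := (algebraMap D F).domain_nontrivial
  obtain ⟨q, hq, -, hm⟩ := lifts_and_natDegree_eq_and_monic
    ((lifts_iff_coeff_lifts (f := algebraMap D F) _).mpr h) (minpoly.monic hf)
  refine ⟨q, hm, ?_⟩
  rw [← aeval_def, ← aeval_map_algebraMap F, hq, minpoly.aeval]

lemma red2_unit {k : Type} [Field k] (V : ValuationSubring k) (x : V) :
    x ∉ IsLocalRing.maximalIdeal V ↔ (x : k) ≠ 0 ∧ (x : k)⁻¹ ∈ V := by
  rw [IsLocalRing.mem_maximalIdeal, mem_nonunits_iff, not_not]
  constructor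
  · intro h
    obtain ⟨y, hy⟩ := h.exists_right_inv
    have e : (x : k) * y = 1 := congrArg Subtype.val hy
    exact ⟨left_ne_zero_of_mul_eq_one e, by rw [inv_eq_of_mul_eq_one_right e]; exact y.2⟩
  · rintro ⟨h0, h⟩
    exact IsUnit.of_mul_eq_one ⟨_, h⟩ (Subtype.ext (mul_inv_cancel₀ h0))

lemma red2_adm {T S k : Type} [CommRing T] [IsDomain T] [UniqueFactorizationMonoid T]
    [CommRing S] [IsDomain S] [Field k] [Algebra T S] [Algebra S k] [Algebra T k]
    [IsScalarTower T S k] [FaithfulSMul S k] (A : Subring k) (hT : ∀ x, algebraMap T k x ∈ A)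
    (hpr : ∀ g : T, Prime g → Prime (algebraMap T S g))
    (hdv : ∀ g h : T, algebraMap T S g ∣ algebraMap T S h → g ∣ h) (π : S) (hπ : Prime π) (ν : T)
    (hν : ¬ π ∣ algebraMap T S ν) (hA : ∀ a ∈ A, ∃ N : ℕ, IsIntegral T (algebraMap T k ν ^ N * a))
    (V : ValuationSubring k) (hAV : A ≤ V.toSubring)
    (hV : ∀ x : S, ¬ π ∣ x → (algebraMap S k x)⁻¹ ∈ V) : Adm A V.toSubring := by
  let ψ : A →+* V := Subring.inclusion hAV
  let p : Ideal A := (IsLocalRing.maximalIdeal V).comap ψ
  have hp : ∀ a : A, a ∉ p ↔ (a : k) ≠ 0 ∧ (a : k)⁻¹ ∈ V := fun a => red2_unit V (ψ a)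
  refine ⟨hAV, ?_⟩
  by_cases h0 : p = ⊥
  · refine Or.inl fun a ha => ?_
    by_cases ha0 : a = 0
    · rw [ha0, inv_zero]
      exact zero_mem _
    · exact ((hp ⟨a, ha⟩).mp (by rw [h0, Ideal.mem_bot]; exact fun h => ha0 (congrArg Subtype.val h))).2
  let : Algebra T A := ((algebraMap T k).codRestrict A hT).toAlgebra
  have : IsScalarTower T A k := .of_algebraMap_eq fun _ => rfl
  have hd : ∀ g : T, algebraMap T A g ∈ p → π ∣ algebraMap T S g := fun g hg => by
    by_contra hn
    refine (hp _).mpr ?_ hg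
    have e : ((algebraMap T A g : A) : k) = algebraMap S k (algebraMap T S g) :=
      IsScalarTower.algebraMap_apply T S k g
    rw [e]
    exact ⟨(map_ne_zero_iff _ (FaithfulSMul.algebraMap_injective S k)).mpr
      fun h => hn (h ▸ dvd_zero _), hV _ hn⟩
  have hpp : p.IsPrime := Ideal.IsPrime.comap ψ
  refine Or.inr ⟨p, hpp, red2_height (T := T) p h0 (fun a => ?_) fun g h hg h1 h2 => ?_,
    fun a ha => ((hp a).mp ha).2⟩
  · obtain ⟨N, hN⟩ := hA a a.2
    refine ⟨algebraMap T A ν ^ N, fun h => hν (hd _ (hpp.mem_of_pow_mem _ h)), ?_⟩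
    refine (isIntegral_algebraMap_iff (B := k) Subtype.val_injective).mp ?_
    rw [map_mul, map_pow, ← IsScalarTower.algebraMap_apply]
    exact hN
  · exact hdv g h (((hπ.associated_of_dvd (hpr g hg) (hd g h1)).symm.dvd).trans (hd h h2))

lemma red2_gen {k : Type} [Field k] (A : Subring k) (hA : Algebra.FiniteType ℤ A) :
    ∃ G : Finset k, ∀ a, a ∈ A ↔ a ∈ Algebra.adjoin ℤ (G : Set k) := by
  classical
  obtain ⟨s, hs⟩ := hA.out
  refine ⟨s.image (↑), fun a => ?_⟩
  have e := AlgHom.map_adjoin A.subtype.toIntAlgHom (s : Set A)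
  rw [hs] at e
  have e' : (A.subtype.toIntAlgHom '' (s : Set A) : Set k) = (s.image (↑) : Finset k) := by
    rw [Finset.coe_image]; rfl
  rw [← e', ← e]
  exact ⟨fun h => ⟨⟨a, h⟩, trivial, rfl⟩, by rintro ⟨y, -, rfl⟩; exact y.2⟩

/-- The elements that become units after inverting `μ` and the integers. -/
def red2M {S : Type} [CommRing S] (μ : S) : Submonoid S where
  carrier := {x | ∃ (n : ℤ) (N : ℕ), n ≠ 0 ∧ x ∣ n * μ ^ N}
  one_mem' := ⟨1, 0, one_ne_zero, one_dvd _⟩
  mul_mem' := by
    rintro x y ⟨n, N, hn, hx⟩ ⟨m, M, hm, hy⟩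
    refine ⟨n * m, N + M, mul_ne_zero hn hm, ?_⟩
    have e : ((n * m : ℤ) : S) * μ ^ (N + M) = n * μ ^ N * (m * μ ^ M) := by push_cast; ring
    exact e ▸ mul_dvd_mul hx hy

lemma red2M_dvd {S : Type} [CommRing S] {μ x y : S} (h : x ∣ y) (hy : y ∈ red2M μ) :
    x ∈ red2M μ := by
  obtain ⟨n, N, hn, hy⟩ := hy
  exact ⟨n, N, hn, h.trans hy⟩

theorem pRed2 : S_Red2 := by
  classical
  intro k _ _ A κ hA
  obtain ⟨G, hG⟩ := red2_gen A hA
  obtain ⟨T, _, _, _, _, _, _, _, hTf, hTa, hTm, -, -⟩ := red2_ext ℤ k G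
  obtain ⟨S, _, _, _, _, _, _, _, hSf, hSa, -, hpr, hdv⟩ := red2_ext T k κ
  obtain ⟨ν, hν0, hν⟩ := red2_mult G hTa
  obtain ⟨μ', hμ0, hμ⟩ := red2_mult κ hSa
  have injS := FaithfulSMul.algebraMap_injective S k
  have injT := FaithfulSMul.algebraMap_injective T k
  have : CharZero S := (algebraMap S k).charZero
  have : IsNoetherianRing S := Algebra.FiniteType.isNoetherianRing ℤ S
  have hTS : ∀ x, algebraMap S k (algebraMap T S x) = algebraMap T k x :=
    fun x => (IsScalarTower.algebraMap_apply T S k x).symm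
  have hνS : algebraMap T S ν ≠ 0 := fun h =>
    (map_ne_zero_iff _ injT).mpr hν0 (by rw [← hTS, h, map_zero])
  set μ : S := algebraMap T S ν * μ' with hμd
  have hμ1 : μ ≠ 0 := mul_ne_zero hνS hμ0
  have hμM : μ ∈ red2M μ := ⟨1, 1, one_ne_zero, by simp⟩
  have hνM : algebraMap T S ν ∈ red2M μ := red2M_dvd (dvd_mul_right _ _) hμM
  have hμM' : μ' ∈ red2M μ := red2M_dvd (dvd_mul_left _ _) hμM
  have hM : red2M μ ≤ S⁰ := by
    rintro x ⟨n, N, hn, hx⟩
    exact mem_nonZeroDivisors_of_ne_zero (ne_zero_of_dvd_ne_zero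
      (mul_ne_zero (Int.cast_ne_zero.mpr hn) (pow_ne_zero _ hμ1)) hx)
  have hM0 : ∀ x ∈ red2M μ, algebraMap S k x ≠ 0 := fun x hx =>
    (map_ne_zero_iff _ injS).mpr (nonZeroDivisors.ne_zero (hM hx))
  let F := FractionRing S
  let : Algebra F k := FractionRing.liftAlgebra S k
  have : IsScalarTower S F k := FractionRing.isScalarTower_liftAlgebra S k
  let D := Localization.subalgebra.ofField F (red2M μ) hM
  have : IsIntegrallyClosed D := isIntegrallyClosed_of_isLocalization D (red2M μ) hM
  have : IsNoetherianRing D := IsLocalization.isNoetherianRing (red2M μ) D inferInstance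
  have hD : ∀ d : D, ∃ a x : S, x ∈ red2M μ ∧
      algebraMap D k d = algebraMap S k a * (algebraMap S k x)⁻¹ := by
    rintro ⟨d, a, x, hx, rfl⟩
    refine ⟨a, x, hx, ?_⟩
    change algebraMap F k (algebraMap S F a * (algebraMap S F x)⁻¹) = _
    rw [map_mul, map_inv₀, ← IsScalarTower.algebraMap_apply, ← IsScalarTower.algebraMap_apply]
  have hDi : ∀ x ∈ red2M μ, IsIntegral D (algebraMap S k x)⁻¹ := fun x hx => by
    have : IsIntegral D (algebraMap D k ⟨(algebraMap S F x)⁻¹, 1, x, hx, by simp⟩) :=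
      isIntegral_algebraMap
    rw [IsScalarTower.algebraMap_apply S F k, ← map_inv₀]
    exact this
  have hDm : ∀ x ∈ red2M μ, ∀ g, IsIntegral S (algebraMap S k x * g) → IsIntegral D g :=
    fun x hx g hg => by
      have := (hDi x hx).mul (hg.tower_top (A := D))
      rwa [inv_mul_cancel_left₀ (hM0 x hx)] at this
  have hAp := fun a ha => red2_pow G ν hν a ((hG a).mp ha)
  have hAD : ∀ a ∈ A, IsIntegral D a := fun a ha => by
    obtain ⟨N, hN⟩ := hAp a ha
    exact hDm _ (pow_mem hνM N) a (by rw [map_pow, hTS]; exact hN.tower_top)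
  have hκD : ∀ a ∈ κ, IsIntegral D a := fun a ha => hDm _ hμM' a (hμ a ha)
  have hGA : ∀ g ∈ G, g ∈ A := fun g hg => (hG g).mpr (Algebra.subset_adjoin hg)
  have hGF : ∀ g ∈ G ∪ κ, IsIntegral F g := fun g hg =>
    (Finset.mem_union.mp hg).elim (fun h => (hAD g (hGA g h)).tower_top) fun h => (hκD g h).tower_top
  obtain ⟨B, hB, hsp⟩ := red2_fin (D := D) (F := F) (G ∪ κ) hGF
  obtain ⟨s, hs⟩ := hSf.out
  let E := IntermediateField.adjoin F ((G ∪ κ : Finset k) : Set k)
  have hE : Subfield.closure ((A : Set k) ∪ κ) ≤ E.toSubfield := by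
    rw [Subfield.closure_le]
    rintro a (ha | ha)
    · have : Algebra.adjoin ℤ (G : Set k) ≤ subalgebraOfSubring E.toSubfield.toSubring :=
        Algebra.adjoin_le fun g hg => IntermediateField.subset_adjoin F _
          (Finset.mem_coe.mpr (Finset.mem_union_left _ hg))
      exact this ((hG a).mp ha)
    · exact IntermediateField.subset_adjoin F _ (Finset.mem_coe.mpr (Finset.mem_union_right _ ha))
  let R := Algebra.adjoin ℚ
    ((insert (algebraMap S k μ)⁻¹ (s.image (algebraMap S k) ∪ B) : Finset k) : Set k)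
  have hSR : ∀ x : S, algebraMap S k x ∈ R := fun x => by
    have : Algebra.adjoin ℤ (s : Set S) ≤ subalgebraOfSubring (R.toSubring.comap (algebraMap S k)) :=
      Algebra.adjoin_le fun y hy => Algebra.subset_adjoin (Finset.mem_coe.mpr
        (Finset.mem_insert_of_mem (Finset.mem_union_left _ (Finset.mem_image_of_mem _ hy))))
    exact this (hs ▸ Algebra.mem_top)
  have hDR : ∀ d : D, algebraMap D k d ∈ R := fun d => by
    obtain ⟨a, x, hx, e⟩ := hD d
    have hx0 := hM0 x hx
    obtain ⟨n, N, hn, y, hy⟩ := hx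
    have hn' : (n : k) ≠ 0 := Int.cast_ne_zero.mpr hn
    have hm := hM0 μ hμM
    have hy' : (n : k) * algebraMap S k μ ^ N = algebraMap S k x * algebraMap S k y := by
      simpa using congrArg (algebraMap S k) hy
    have e2 : (algebraMap S k x)⁻¹ =
        algebraMap S k y * (algebraMap ℚ k (n : ℚ)⁻¹ * (algebraMap S k μ)⁻¹ ^ N) := by
      rw [map_inv₀, map_intCast, inv_pow, ← mul_inv, hy']
      have : algebraMap S k y ≠ 0 := right_ne_zero_of_mul (hy' ▸ mul_ne_zero hn' (pow_ne_zero _ hm))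
      field_simp
    rw [e, e2]
    exact mul_mem (hSR a) (mul_mem (hSR y) (mul_mem (R.algebraMap_mem _) (pow_mem
      (Algebra.subset_adjoin (Finset.mem_coe.mpr (Finset.mem_insert_self _ _))) _)))
  have hIR : ∀ f ∈ E, IsIntegral D f → f ∈ R := fun f hf hi => by
    refine Submodule.span_induction (p := fun x _ => x ∈ R) (fun x hx => ?_) (zero_mem _)
      (fun _ _ _ _ => add_mem) (fun d x _ hx => ?_) (hsp f hf hi)
    · exact Algebra.subset_adjoin (Finset.mem_coe.mpr
        (Finset.mem_insert_of_mem (Finset.mem_union_right _ hx)))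
    · rw [Algebra.smul_def]
      exact mul_mem (hDR d) hx
  have hRI : ∀ r ∈ R, IsIntegral D r := fun r hr => by
    induction hr using Algebra.adjoin_induction with
    | mem x hx =>
      rcases Finset.mem_insert.mp (Finset.mem_coe.mp hx) with rfl | hx
      · exact hDi μ hμM
      rcases Finset.mem_union.mp hx with hx | hx
      · obtain ⟨y, -, rfl⟩ := Finset.mem_image.mp hx
        exact (isIntegral_algebraMap (R := S) (A := k) (x := y)).tower_top
      · exact hB x hx
    | algebraMap q =>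
      refine hDm ((q.den : ℤ) : S) ⟨q.den, 0, by simp, by simp⟩ _ ?_
      have e : algebraMap S k ((q.den : ℤ) : S) * algebraMap ℚ k q = algebraMap S k (q.num : S) := by
        rw [map_intCast, map_intCast, ← map_intCast (algebraMap ℚ k), ← map_intCast (algebraMap ℚ k),
          ← map_mul, Int.cast_natCast, Rat.den_mul_eq_num]
      exact e ▸ isIntegral_algebraMap
    | add x y _ _ hx hy => exact hx.add hy
    | mul x y _ _ hx hy => exact hx.mul hy
  refine ⟨R, ⟨_, rfl⟩, fun a ha => hIR a (hE (Subfield.subset_closure (Or.inr ha))) (hκD a ha),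
    fun f hf h => hIR f (hE hf) ?_⟩
  have hfF : IsIntegral F f := by
    have : FiniteDimensional F E := IntermediateField.finiteDimensional_adjoin hGF
    exact (Algebra.IsIntegral.isIntegral (R := F) (⟨f, hE hf⟩ : E)).map E.val
  refine red2_lift f hfF fun i => ?_
  refine ⟨⟨_, red2_ufd (red2M μ) (fun u hu => ⟨1, 0, one_ne_zero, hu.dvd⟩) ((minpoly F f).coeff i)
    fun π hπ hπM => red2_loc π hπ f (fun V h1 h2 => ?_) i⟩, rfl⟩
  have hV : ∀ x, IsIntegral D x → x ∈ V := fun x hx => (red2_int_iff x).mp hx V fun d => by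
    obtain ⟨a, x, hx, e⟩ := hD d
    exact e ▸ mul_mem (h1 a) (h2 x fun hd => hπM (red2M_dvd hd hx))
  exact h V.toSubring (red2_adm A (fun x => (hG _).mpr (hTm x)) hpr hdv π hπ ν
    (fun hd => hπM (red2M_dvd hd hνM)) hAp V (fun a ha => hV a (hAD a ha)) h2)
    fun r hr => hV r (hRI r hr)

end Pool.Agent.P.MP_84b56d_ag.PC
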