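import Pool.Agent.P.MP_84b56d_ag.PC.Basic

/-! Statements of the packages. -/

open Polynomial Ivrii.PX Ivrii.TA AlgebraicGeometry CategoryTheory

noncomputable section

namespace Pool.Agent.P.MP_84b56d_ag.PC

/-! ### Derivations and transcendence -/

abbrev Der (K : Type) [Field K] [CharZero K] : Type := Derivation ℚ K K

def S_Ext : Prop := ∀ (k0 K τ : Type) [Field k0] [Field K] [CharZero K] [Algebra k0 K]
  (t a : τ → K), AlgebraicIndependent k0 t →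
    ∃ D : Der K, (∀ c : k0, D (algebraMap k0 K c) = 0) ∧ ∀ i, D (t i) = a i

def S_Uniq : Prop := ∀ (K E : Type) [Field K] [CharZero K] [Field E] (ψ : K →+* E) (Θ : K →+ E)
  (s : Set K), (∀ f g, Θ (f * g) = ψ f * Θ g + ψ g * Θ f) → (∀ f ∈ s, Θ f = 0) →
    ∀ f ∈ acl s, Θ f = 0

def S_Lift : Prop := ∀ (K Ω : Type) [Field K] [CharZero K] [Field Ω] [CharZero Ω] [Algebra K Ω]
  [Algebra.IsAlgebraic K Ω] (D : Der K),
    ∃ D' : Der Ω, ∀ f, D' (algebraMap K Ω f) = algebraMap K Ω (D f)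

def S_Dep : Prop := ∀ (K τ : Type) [Field K] [CharZero K] [Fintype τ] (a : τ → K) (W : K),
  W ∈ acl (Set.range a) → ∃ α : τ → K, (∀ i, α i ∈ acl (Set.range a)) ∧
    ∀ D : Der K, D W = ∑ i, α i * D (a i)

def S_Cnt : Prop := ∀ (K τ : Type) [Field K] [CharZero K] [Fintype τ] (v : τ → K) (s : Finset K),
  AlgebraicIndependent ℚ v → (∀ i, v i ∈ acl (s : Set K)) → Fintype.card τ ≤ s.card

def S_Map : Prop := ∀ (K Ω : Type) [Field K] [CharZero K] [Field Ω] [CharZero Ω] (φ : K →+* Ω)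
  (s : Set K) (f : K), φ f ∈ acl (φ '' s) ↔ f ∈ acl s

/-- Three elements, each transcendental over the earlier ones, are independent. -/
def S_Ind3 : Prop := ∀ (K : Type) [Field K] [CharZero K] (a b h : K), a ∉ acl (∅ : Set K) →
  b ∉ acl {a} → h ∉ acl {a, b} → AlgebraicIndependent ℚ ![a, b, h]

def S_Pole : Prop := ∀ (Ω : Type) [Field Ω] [CharZero Ω] [IsAlgClosed Ω] (a b h : Ω)
  (T : Finset Ω), AlgebraicIndependent ℚ ![a, b, h] →
    ∃ (δ D₁ D₂ : Der Ω) (O : Subring Ω), δ a = 0 ∧ δ b = 0 ∧ D₁ a = 1 ∧ D₁ b = 0 ∧ D₂ a = 0 ∧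
      D₂ b = 1 ∧ (∀ r ∈ acl {a, b}, r ∈ O) ∧ δ h ∉ O ∧
      ∀ g ∈ T, δ g / g ∈ O ∧ D₁ g / g ∈ O ∧ D₂ g / g ∈ O

def S_LA : Prop := ∀ (F V Y : Type) [Field F] [AddCommGroup V] [Module F V] [AddCommGroup Y]
  [Module F Y] [FiniteDimensional F V] (M : ℕ → V →ₗ[F] Y) (n : ℕ), ∃ Z : Finset F,
    ∀ c ∉ Z, ∀ v : V, ∑ k ∈ Finset.range n, c ^ k • M k v = 0 →
      ∃ v' : V, ∑ k ∈ Finset.range n, c ^ k • M k v' +
        ∑ k ∈ Finset.range n, ((k : F) * c ^ (k - 1)) • M k v = 0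

/-! ### Places at infinity -/

section places

variable {K L ι : Type} [Field K] [CharZero K] [Field L] [CharZero L] [Fintype ι]

/-- `D` lowers orders by at most `c`. -/
def Loss (ψ : ι → K →+* LaurentSeries L) (c : ℕ) (D : Der K) : Prop :=
  ∀ i f n, Ge n (ψ i f) → Ge (n - c) (ψ i (D f))

structure IsPlaces (k0 : Type) [Field k0] [Algebra k0 K] (s : Finset K)
    (ψ : ι → K →+* LaurentSeries L) (δ : Der K) : Prop where
  alg : ∀ i f, IsAlgebraic k0 f → Ge 0 (ψ i f)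
  deg : ∀ f, IsIntegral (Algebra.adjoin k0 (s : Set K)) f → f ≠ 0 → ∑ i, (ψ i f).order ≤ 0
  fd : ∀ n : ℤ, ∃ W : Submodule k0 K, FiniteDimensional k0 W ∧
    ∀ f, IsIntegral (Algebra.adjoin k0 (s : Set K)) f → (∀ i, Ge n (ψ i f)) → f ∈ W
  const : ∀ f, IsIntegral (Algebra.adjoin k0 (s : Set K)) f → (∀ i, Ge 0 (ψ i f)) →
    IsAlgebraic k0 f
  eul : ∀ i f, euler L L (ψ i f) = ψ i (δ f)
  dk : ∀ f, IsAlgebraic k0 f → δ f = 0
  der : ∀ D : Der K, (∀ a : k0, D (algebraMap k0 K a) = 0) → ∃ c : ℕ, Loss ψ c D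

/-- The first half of the construction of the places. -/
structure IsPre (k0 : Type) [Field k0] [Algebra k0 K] [Algebra k0 L] (s : Finset K)
    (ψ : ι → K →+* LaurentSeries L) {N : ℕ} (t : Fin N → K) (z : Fin N → L) (n : ℕ+) : Prop where
  indt : AlgebraicIndependent k0 t
  indz : AlgebraicIndependent k0 z
  algt : ∀ f : K, IsAlgebraic (Algebra.adjoin k0 (Set.range t)) f
  cst : ∀ i (a : k0), ψ i (algebraMap k0 K a) = HahnSeries.C (algebraMap k0 L a)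
  var : ∀ i j, ψ i (t j) = HahnSeries.single (-((n : ℕ) : ℤ)) (z j)
  deg : ∀ f, IsIntegral (Algebra.adjoin k0 (s : Set K)) f → f ≠ 0 → ∑ i, (ψ i f).order ≤ 0
  fd : ∀ n : ℤ, ∃ W : Submodule k0 K, FiniteDimensional k0 W ∧
    ∀ f, IsIntegral (Algebra.adjoin k0 (s : Set K)) f → (∀ i, Ge n (ψ i f)) → f ∈ W

/-- The residue of `f` exists and is transcendental. -/
def Triv (ψ : K →+* LaurentSeries L) (f : K) : Prop :=
  Ge 0 (ψ f) ∧ Transcendental ℚ ((ψ f).coeff 0)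

/-- The number of poles. -/
def hgt (ψ : ι → K →+* LaurentSeries L) (f : K) : ℤ := ∑ i, max 0 (-(ψ i f).order)

end places

/-- `K` is the fraction field of `k0[s]`. -/
def Frac (k0 : Type) {K : Type} [Field k0] [Field K] [Algebra k0 K] (s : Finset K) : Prop :=
  ∀ f : K, ∃ a ∈ Algebra.adjoin k0 (s : Set K), ∃ b ∈ Algebra.adjoin k0 (s : Set K),
    b ≠ 0 ∧ f = a / b

def S_Pre : Prop := ∀ (k0 K : Type) [Field k0] [Field K] [CharZero K] [Algebra k0 K]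
  (s : Finset K), Frac k0 s → ∃ (L ι : Type) (_ : Field L) (_ : CharZero L) (_ : Algebra k0 L)
    (_ : Fintype ι) (ψ : ι → K →+* LaurentSeries L) (N : ℕ) (t : Fin N → K) (z : Fin N → L)
    (n : ℕ+), IsPre k0 s ψ t z n

def S_Places : Prop := ∀ (k0 K : Type) [Field k0] [Field K] [CharZero K] [Algebra k0 K]
  (s : Finset K), Frac k0 s → ∃ (L ι : Type) (_ : Field L) (_ : CharZero L) (_ : Fintype ι)
    (ψ : ι → K →+* LaurentSeries L) (δ : Der K), IsPlaces k0 s ψ δ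

def S_A : Prop := ∀ (L : Type) [Field L] [CharZero L] (x : LaurentSeries L), x ^ 2 ≠ 1 →
  Lead 0 (((min x.order 0 : ℤ) : L) ^ 2) (euler L L x ^ 2 / (x ^ 2 - 1))

def S_Res : Prop := ∀ (K L : Type) [Field K] [CharZero K] [Field L] [CharZero L]
  (ψ : K →+* LaurentSeries L),
    (∀ f : K, f ∉ acl (∅ : Set K) → (∀ g ∈ acl {f}, Ge 0 (ψ g)) → Triv ψ f) ∧
    (∀ f : K, Triv ψ f → ∀ g ∈ acl {f}, Ge 0 (ψ g)) ∧
    (∀ f : K, Triv ψ f → f ^ 2 - 1 ≠ 0 ∧ (ψ (f ^ 2 - 1)).order = 0) ∧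
    ∀ W : K[X], Triv ψ (W.coeff 0) →
      {c | c ∈ acl (∅ : Set K) ∧ Ge 0 (ψ (W.eval c)) ∧ ¬ Triv ψ (W.eval c)}.Finite

/-! ### The forms `eta` and `Phi` -/

section eta

variable {K : Type} [Field K] [CharZero K]

def eta (D : Der K) (d x y : K) : K := d * (x * D y - y * D x) + x * y * D d / 2

def Phi (D D' : Der K) (d x y w Y : K) : K :=
  d * ((x * D y - y * D x) * (w * D' Y - Y * D' w) - (x * D' y - y * D' x) * (w * D Y - Y * D w)) +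
    (w * Y * ((x * D y - y * D x) * D' d - (x * D' y - y * D' x) * D d) +
      x * y * (D d * (w * D' Y - Y * D' w) - D' d * (w * D Y - Y * D w))) / 2

lemma mul_Phi (D D' : Der K) (d x y w Y : K) :
    d * Phi D D' d x y w Y = eta D d x y * eta D' d w Y - eta D' d x y * eta D d w Y := by
  simp only [Phi, eta]; ring

lemma der_pell (D : Der K) {d x y : K} (h : x ^ 2 - d * y ^ 2 = 1) :
    2 * x * D x = 2 * d * y * D y + y ^ 2 * D d := by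
  have := congrArg D h
  simp only [map_sub, Derivation.leibniz, Derivation.leibniz_pow, smul_eq_mul, nsmul_eq_mul,
    Derivation.map_one_eq_zero] at this
  push_cast at this
  linear_combination this

lemma mul_eta (D : Der K) {d x y : K} (h : x ^ 2 - d * y ^ 2 = 1) : y * eta D d x y = D x := by
  simp only [eta]
  linear_combination (-x / 2) * der_pell D h + D x * h

lemma mul_eta' (D : Der K) {d x y : K} (h : x ^ 2 - d * y ^ 2 = 1) :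
    2 * x * eta D d x y = 2 * d * D y + y * D d := by
  simp only [eta]
  linear_combination (-d * y) * der_pell D h + (2 * d * D y + y * D d) * h

lemma eta_mem {R : Subalgebra ℚ K} {D : Der K} (hD : ∀ f ∈ R, D f ∈ R) {d x y : K} (hd : d ∈ R)
    (hx : x ∈ R) (hy : y ∈ R) : eta D d x y ∈ R := by
  have h2 : (2 : K)⁻¹ ∈ R := by simpa using R.algebraMap_mem (2⁻¹ : ℚ)
  rw [eta, div_eq_mul_inv]
  exact add_mem (mul_mem hd (sub_mem (mul_mem hx (hD _ hy)) (mul_mem hy (hD _ hx))))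
    (mul_mem (mul_mem (mul_mem hx hy) (hD _ hd)) h2)

lemma Phi_mem {R : Subalgebra ℚ K} {D D' : Der K} (hD : ∀ f ∈ R, D f ∈ R)
    (hD' : ∀ f ∈ R, D' f ∈ R) {d x y w Y : K} (hd : d ∈ R) (hx : x ∈ R) (hy : y ∈ R) (hw : w ∈ R)
    (hY : Y ∈ R) : Phi D D' d x y w Y ∈ R := by
  have h2 : (2 : K)⁻¹ ∈ R := by simpa using R.algebraMap_mem (2⁻¹ : ℚ)
  have a1 := sub_mem (mul_mem hx (hD _ hy)) (mul_mem hy (hD _ hx))
  have a2 := sub_mem (mul_mem hx (hD' _ hy)) (mul_mem hy (hD' _ hx))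
  have a3 := sub_mem (mul_mem hw (hD _ hY)) (mul_mem hY (hD _ hw))
  have a4 := sub_mem (mul_mem hw (hD' _ hY)) (mul_mem hY (hD' _ hw))
  rw [Phi, div_eq_mul_inv]
  exact add_mem (mul_mem hd (sub_mem (mul_mem a1 a4) (mul_mem a2 a3))) (mul_mem (add_mem
    (mul_mem (mul_mem hw hY) (sub_mem (mul_mem a1 (hD' _ hd)) (mul_mem a2 (hD _ hd))))
    (mul_mem (mul_mem hx hy) (sub_mem (mul_mem (hD _ hd) a4) (mul_mem (hD' _ hd) a3)))) h2)

end eta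

def S_Eta : Prop := ∀ (K L ι : Type) [Field K] [CharZero K] [Field L] [CharZero L] [Fintype ι]
  (ψ : ι → K →+* LaurentSeries L) (c : ℕ) (D D' : Der K) (d x y w Y : K), Loss ψ c D →
    Loss ψ c D' → d ≠ 0 → y ≠ 0 → Y ≠ 0 → x ^ 2 - d * y ^ 2 = 1 → w ^ 2 - d * Y ^ 2 = 1 → ∀ i,
      Ge ((ψ i d).order - 2 * c) (ψ i (eta D d x y ^ 2)) ∧
        Ge (-(2 * c)) (ψ i (Phi D D' d x y w Y))

def S_Fin : Prop := ∀ (k0 K L ι : Type) [Field k0] [Field K] [CharZero K] [Algebra k0 K] [Field L]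
  [CharZero L] [Fintype ι] (s : Finset K) (ψ : ι → K →+* LaurentSeries L) (δ : Der K)
  (R : Subalgebra ℚ K) (d x y w Y φ : K), IsPlaces k0 s ψ δ →
    (∀ f ∈ R, f ∈ Algebra.adjoin k0 (s : Set K)) → d ∈ R → x ∈ R → y ∈ R → w ∈ R → Y ∈ R →
    d ≠ 0 → y ≠ 0 → Y ≠ 0 → x ^ 2 - d * y ^ 2 = 1 → w ^ 2 - d * Y ^ 2 = 1 →
    eta δ d x y = φ * eta δ d w Y → δ φ = 0 → (∃ i, (ψ i w).order < 0) →
    hgt ψ w < -∑ i, (ψ i d).order → y / Y ∈ R

/-! ### The main context -/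

/-- A basis of the derivations that preserves `R`. -/
structure IsFrame {K τ : Type} [Field K] [CharZero K] [Fintype τ] [DecidableEq τ]
    (R : Subalgebra ℚ K) (e : K) (q : Fin 18 → K) (D : τ → Der K) (Δ : K) (t : τ → K) (em : Option (Fin 18) → τ) : Prop where
  mem : ∀ i, ∀ f ∈ R, D i f ∈ R
  hΔ : Δ ∈ R
  ne : Δ ≠ 0
  dual : ∀ i j, D i (t j) = if i = j then Δ else 0
  alg : ∀ f : K, f ∈ acl (Set.range t)
  inj : Function.Injective em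
  te : t (em none) = e
  tq : ∀ j, t (em (some j)) = q j
  span : ∀ (E : Der K) (f : K), Δ * E f = ∑ i, E (t i) * D i f

def S_Frame : Prop := ∀ (K : Type) [Field K] [CharZero K] (s : Finset K) (e : K) (q : Fin 18 → K),
  Frac ℚ s → Ind e q → ∃ (τ : Type) (_ : Fintype τ) (_ : DecidableEq τ) (D : τ → Der K) (Δ : K)
    (t : τ → K) (em : Option (Fin 18) → τ),
    IsFrame (Algebra.adjoin ℚ (s : Set K)) e q D Δ t em

structure Ctx (K L ι τ : Type) [Field K] [CharZero K] [Field L] [CharZero L] [Fintype ι]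
    [Fintype τ] [DecidableEq τ] where
  s : Finset K
  e : K
  q : Fin 18 → K
  ψ : ι → K →+* LaurentSeries L
  δ : Der K
  D : τ → Der K
  Δ : K
  t : τ → K
  em : Option (Fin 18) → τ
  frac : Frac ℚ s
  he : e ∈ Algebra.adjoin ℚ (s : Set K)
  hq : ∀ j, q j ∈ Algebra.adjoin ℚ (s : Set K)
  ind : Ind e q
  pl : IsPlaces ℚ s ψ δ
  fr : IsFrame (Algebra.adjoin ℚ (s : Set K)) e q D Δ t em

namespace Ctx

variable {K L ι τ : Type} [Field K] [CharZero K] [Field L] [CharZero L] [Fintype ι] [Fintype τ]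
  [DecidableEq τ] (c : Ctx K L ι τ)

def R : Subalgebra ℚ K := Algebra.adjoin ℚ (c.s : Set K)

def Y (b : K) : K := (pY c.e).eval b

def Q (b : K) : K := (pq c.q).eval b

def w (b : K) : K := (pw c.e c.q).eval b

def d (b : K) : K := (pd c.e c.q).eval b

/-- The order at the place `i`. -/
def o (i : ι) (f : K) : ℤ := (c.ψ i f).order

def Unit (b : K) : Prop := b ≠ 0 ∧ b ∈ c.R ∧ b⁻¹ ∈ c.R

def Gen (b : K) : Prop := c.Y b ≠ 0 ∧ c.d b ≠ 0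

def Sol (b x y : K) : Prop := x ∈ c.R ∧ y ∈ c.R ∧ y ≠ 0 ∧ x ^ 2 - c.d b * y ^ 2 = 1

def Big (H : ℤ) (b : K) : Prop := ∃ i, H < |c.o i b|

/-- In `R` with poles of order at most `C`. -/
def Bdd (C : ℕ) (f : K) : Prop := f ∈ c.R ∧ ∀ i, Ge (-(C : ℤ)) (c.ψ i f)

def Good (C : ℕ) (E : Der K) : Prop := (∀ f ∈ c.R, E f ∈ c.R) ∧ Loss c.ψ C E

/-- A combination of the derivations dual to `q i` and `q j`. -/
def E (i j : Fin 18) (l l' : K) : Der K := l • c.D (c.em (some i)) - l' • c.D (c.em (some j))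

/-- The combination kills `u`. -/
structure Kill (C : ℕ) (u : K) (i j : Fin 18) (l l' : K) : Prop where
  bl : c.Bdd C l
  bl' : c.Bdd C l'
  ne : l ≠ 0 ∨ l' ≠ 0
  good : c.Good C (c.E i j l l')
  kill : c.E i j l l' u = 0

lemma pell (b : K) : c.w b ^ 2 - c.d b * c.Y b ^ 2 = 1 := pell_eval _ _ _

lemma int {f : K} (h : f ∈ c.R) : IsIntegral (Algebra.adjoin ℚ (c.s : Set K)) f :=
  isIntegral_algebraMap (x := (⟨f, h⟩ : Algebra.adjoin ℚ (c.s : Set K)))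

lemma Y_mem {b : K} (h : b ∈ c.R) : c.Y b ∈ c.R := by
  rw [Y, eval_pY]
  exact add_mem (add_mem (one_mem _) h) (mul_mem c.he (pow_mem h _))

lemma Q_mem {b : K} (h : b ∈ c.R) : c.Q b ∈ c.R := by
  rw [Q, eval_pq]
  exact sum_mem fun i _ => mul_mem (c.hq i) (pow_mem h _)

lemma w_eq (b : K) : c.w b = 1 + c.Y b ^ 2 * c.Q b := eval_pw _ _ _

lemma d_eq (b : K) : c.d b = c.Q b * (2 + c.Y b ^ 2 * c.Q b) := eval_pd _ _ _

lemma w_mem {b : K} (h : b ∈ c.R) : c.w b ∈ c.R := by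
  rw [w_eq]
  exact add_mem (one_mem _) (mul_mem (pow_mem (c.Y_mem h) _) (c.Q_mem h))

lemma d_mem {b : K} (h : b ∈ c.R) : c.d b ∈ c.R := by
  rw [d_eq]
  exact mul_mem (c.Q_mem h) (add_mem (ofNat_mem _ 2) (mul_mem (pow_mem (c.Y_mem h) _) (c.Q_mem h)))

end Ctx

/-- A property of all contexts. -/
def All (P : ∀ (K L ι τ : Type) [Field K] [CharZero K] [Field L] [CharZero L] [Fintype ι]
    [Fintype τ] [DecidableEq τ], Ctx K L ι τ → Prop) : Prop :=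
  ∀ (K L ι τ : Type) [Field K] [CharZero K] [Field L] [CharZero L] [Fintype ι] [Fintype τ]
    [DecidableEq τ] (c : Ctx K L ι τ), P K L ι τ c

/-- Every element of `R` has bounded poles; bounded nonzero elements have bounded zeros; units have
degree zero. -/
def S_Bd : Prop := All fun K _ _ _ _ _ _ _ _ _ _ c =>
  (∀ f ∈ c.R, ∃ C, c.Bdd C f) ∧
  (∀ C : ℕ, ∃ C' : ℕ, ∀ f : K, c.Bdd C f → f ≠ 0 → ∀ i, c.o i f ≤ C') ∧
  (∀ b, c.Unit b → ∑ i, c.o i b = 0 ∧ ∀ i, |c.o i b| ≤ hgt c.ψ b) ∧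
  ∀ f ∈ c.R, f ≠ 0 → ∑ i, max 0 (c.o i f) ≤ hgt c.ψ f

def S_Sep : Prop := All fun K _ _ _ _ _ _ _ _ _ _ c => ∀ C : ℕ, ∃ H : ℤ, ∀ (b : K) (n : ℕ)
  (Ψ : ℕ → K), b ≠ 0 → c.Big H b → (∀ k < n, c.Bdd C (Ψ k)) →
    ∑ k ∈ Finset.range n, Ψ k * b ^ k = 0 → ∀ k < n, Ψ k = 0

/-- Orders of the values of a fixed polynomial. -/
def S_Dom : Prop := ∀ (K L : Type) [Field K] [Field L] (ψ : K →+* LaurentSeries L) (p : K[X]),
  ∃ C : ℕ, ∀ b : K, b ≠ 0 →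
    Ge (p.natDegree * min 0 (ψ b).order - C) (ψ (p.eval b)) ∧
    (p ≠ 0 → (ψ b).order < -(C : ℤ) → p.eval b ≠ 0 ∧
      (ψ (p.eval b)).order ≤ p.natDegree * (ψ b).order + C)

/-- Degrees. -/
def S_Deg : Prop := ∀ (K : Type) [Field K] [CharZero K] (e : K) (q : Fin 18 → K), Ind e q →
  (pY e).natDegree = 2 ∧ (pq q).natDegree = 17 ∧ (pw e q).natDegree = 21 ∧
    (pd e q).natDegree = 38 ∧ (pw e q).coeff 0 = 1 + q 0 ∧ 1 + q 0 ∉ acl (∅ : Set K) ∧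
    e ∉ acl (∅ : Set K)

def S_Kill : Prop := All fun K _ _ _ _ _ _ _ _ _ _ c =>
  (∃ C : ℕ, (∀ i, c.Good C (c.D i)) ∧ c.Bdd C c.Δ ∧ c.Bdd C c.e ∧
    (∀ i u, c.Unit u → c.Bdd C (c.D i u / u)) ∧
    ∀ u i j, c.Unit u → ∃ l l', c.Kill C u i j l l') ∧
  ∀ (i j : Fin 18) (l l' b : K), c.E i j l l' b = 0 →
    c.E i j l l' (c.Y b) = 0 ∧
    c.E i j l l' (c.Q b) = c.Δ * (l * b ^ (i : ℕ) - l' * b ^ (j : ℕ)) ∧
    c.E i j l l' (c.w b) = c.Y b ^ 2 * c.E i j l l' (c.Q b) ∧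
    c.E i j l l' (c.d b) = 2 * c.w b * c.E i j l l' (c.Q b) ∧
    eta (c.E i j l l') (c.d b) (c.w b) (c.Y b) = c.Y b * c.E i j l l' (c.Q b)

def S_U1 : Prop := All fun K _ _ _ _ _ _ _ _ _ _ c => ∃ H : ℤ, ∀ b x y : K, c.Unit b →
  c.Big H b → c.Gen b → c.Sol b x y → ∃ α : K, ∀ D : Der K, D x = α * D (c.w b)

def S_U2 : Prop := All fun K _ _ _ _ _ _ _ _ _ _ c => ∃ H : ℤ, ∀ b x y α : K, c.Unit b →
  c.Big H b → c.Gen b → c.Sol b x y → (∀ D : Der K, D x = α * D (c.w b)) →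
    ∀ D : Der K, D (α * c.Y b / y) = 0

def S_U3 : Prop := All fun K _ _ _ _ _ _ _ _ _ _ c => ∃ H : ℤ, ∀ b : K, c.Unit b → c.Big H b →
  c.Gen b → (∃ i, c.o i (c.w b) < 0) ∧ hgt c.ψ (c.w b) < -∑ i, c.o i (c.d b)

def S_UC : Prop := All fun K _ _ _ _ _ _ _ _ _ _ c => ∃ H : ℤ, ∀ b : K, c.Unit b → c.Big H b →
  ¬ c.Unit (c.Y b)

def S_Pig : Prop := All fun K _ _ _ _ _ _ _ _ _ _ c => ∀ C : ℤ, ∃ U : Finset K,
  (∀ u ∈ U, c.Unit u) ∧ ∀ b, c.Unit b → (∀ i, -C ≤ c.o i b) →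
    ∃ u ∈ U, ∃ a ∈ acl (∅ : Set K), b = u * a

def S_BC : Prop := All fun K _ _ _ _ _ _ _ _ _ _ c => ∀ u : K, c.Unit u →
  {a | a ∈ acl (∅ : Set K) ∧ c.Unit (c.Y (u * a))}.Finite

/-- The polynomial `w (u τ)`. -/
def wu {K : Type} [Field K] (e : K) (q : Fin 18 → K) (u : K) : K[X] := (pw e q).comp (C u * X)

def S_Tr : Prop := ∀ (K : Type) [Field K] [CharZero K] (e : K) (q : Fin 18 → K) (u : K)
  (s : Finset K), Ind e q → u ≠ 0 → u ∈ acl (s : Set K) → e ∈ acl (s : Set K) → s.card ≤ 18 →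
    {a | a ∈ acl (∅ : Set K) ∧ (pw e q).eval (u * a) ∈ acl (s : Set K)}.Finite ∧
    ∀ a ∈ acl (∅ : Set K), ∃ j, (derivative^[j] (wu e q u)).eval a ∉ acl (s : Set K)

/-- The logarithmic two-form of `f` and `g`. -/
def dl {Ω : Type} [Field Ω] [CharZero Ω] (f g : Ω) (D D' : Der Ω) : Ω :=
  D f / f * (D' g / g) - D' f / f * (D g / g)

/-- The wedge of a two-form and an exact one-form. -/
def wd {Ω : Type} [Field Ω] [CharZero Ω] (Φ : Der Ω → Der Ω → Ω) (h : Ω) (D D' D'' : Der Ω) : Ω :=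
  Φ D D' * D'' h + Φ D' D'' * D h + Φ D'' D * D' h

/-- One step of the induction of part B1. `T` is a set of pairs whose logarithmic forms span a
finite dimensional space over the algebraic numbers. -/
def S_Step : Prop := ∀ (Ω : Type) [Field Ω] [CharZero Ω] [IsAlgClosed Ω] (T : Set (Ω × Ω))
  (W : Polynomial Ω), FiniteDimensional (acl (∅ : Set Ω))
    (Submodule.span (acl (∅ : Set Ω)) ((fun p : Ω × Ω => dl p.1 p.2) '' T)) →
  ∃ Z : Finset Ω, ∀ a ∈ acl (∅ : Set Ω), a ∉ Z → ∀ ε P : Ω, (ε, P) ∈ T → P ∉ acl (∅ : Set Ω) →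
    ε ∉ acl {P} → W.eval a ∈ acl {P, ε} → (derivative W).eval a ∈ acl {P, ε}

/-- The logarithmic forms of all solutions span a finite dimensional space. -/
def S_FD : Prop := All fun K _ _ _ _ _ _ _ _ _ _ c => ∀ (Ω : Type) [Field Ω] [CharZero Ω]
  [Algebra K Ω] [Algebra.IsAlgebraic K Ω], FiniteDimensional (acl (∅ : Set Ω))
    (Submodule.span (acl (∅ : Set Ω)) ((fun p : Ω × Ω => dl p.1 p.2) ''
      {p | ∃ (b x y : K) (r : Ω), b ∈ c.R ∧ c.Gen b ∧ c.Sol b x y ∧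
        r ^ 2 = algebraMap K Ω (c.d b) ∧ p.1 = algebraMap K Ω x + algebraMap K Ω y * r ∧
        p.2 = algebraMap K Ω (c.w b) + algebraMap K Ω (c.Y b) * r}))

def S_B1 : Prop := All fun K _ _ _ _ _ _ _ _ _ _ c => ∀ u : K, c.Unit u →
  {a | a ∈ acl (∅ : Set K) ∧ u * a ∈ c.R ∧ c.Gen (u * a) ∧
    ∃ x y, c.Sol (u * a) x y ∧ x ∉ acl {c.w (u * a)}}.Finite

def S_B2 : Prop := All fun K _ _ _ _ _ _ _ _ _ _ c => ∀ u : K, c.Unit u →
  {a | a ∈ acl (∅ : Set K) ∧ u * a ∈ c.R ∧ c.Gen (u * a) ∧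
    ∃ x y, c.Sol (u * a) x y ∧ x ∈ acl {c.w (u * a)} ∧ y / c.Y (u * a) ∉ c.R}.Finite

/-- The values of `b` at near-integral points of the punctured surface. -/
def Bad {K : Type} [Field K] [CharZero K] (R : Subalgebra ℚ K) (e : K) (q : Fin 18 → K) (b : K) :
    Prop :=
  b ≠ 0 ∧ b ∈ R ∧ b⁻¹ ∈ R ∧ ∃ x ∈ R, ∃ y ∈ R, y ≠ 0 ∧ x ^ 2 - (pd e q).eval b * y ^ 2 = 1 ∧
    (y / (pY e).eval b ∈ R → ((pY e).eval b)⁻¹ ∈ R)

def S_Ctx : Prop := All fun _ _ _ _ _ _ _ _ _ _ _ c => {b | Bad c.R c.e c.q b}.Finite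

def S_Core : Prop := ∀ (k : Type) [Field k] [CharZero k] (R : Subalgebra ℚ k) (e : k)
  (q : Fin 18 → k), R.FG → e ∈ R → (∀ j, q j ∈ R) → Ind e q → {b | Bad R e q b}.Finite

/-! ### Models -/

/-- `O` contains the local ring of `A` at a prime of height at most one. -/
def Adm {k : Type} [Field k] (A O : Subring k) : Prop :=
  A ≤ O ∧ ((∀ a ∈ A, a⁻¹ ∈ O) ∨
    ∃ p : Ideal A, p.IsPrime ∧ p.height = 1 ∧ ∀ a : A, a ∉ p → (a : k)⁻¹ ∈ O)

def S_Red1 : Prop := ∀ (k B : Type) [Field k] [CommRing B] [Algebra k B]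
  (U : (Spec (.of B)).Opens) (T : Finset B) (a₁ a₂ : B),
    (∀ z : PrimeSpectrum B, z ∈ U → a₁ ∉ z.asIdeal ∨ a₂ ∉ z.asIdeal) →
    ArithSpecial (U.ι ≫ Spec.map (CommRingCat.ofHom (algebraMap k B))) →
    ∃ (A : Subring k) (κ : Finset k), Algebra.FiniteType ℤ A ∧
      ∀ h : B, (∃ z : PrimeSpectrum B, z ∈ U ∧ h ∉ z.asIdeal) → ∃ φ : B →ₐ[k] k, φ h ≠ 0 ∧
        ∀ O : Subring k, Adm A O → (∀ a ∈ κ, a ∈ O) →
          (∀ f ∈ T, φ f ∈ O) ∧ ∃ α ∈ O, ∃ β ∈ O, α * φ a₁ + β * φ a₂ = 1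

def S_Red2 : Prop := ∀ (k : Type) [Field k] [CharZero k] (A : Subring k) (κ : Finset k),
  Algebra.FiniteType ℤ A → ∃ R : Subalgebra ℚ k, R.FG ∧ (∀ a ∈ κ, a ∈ R) ∧
    ∀ f ∈ Subfield.closure ((A : Set k) ∪ κ),
      (∀ O : Subring k, Adm A O → (∀ r ∈ R, r ∈ O) → f ∈ O) → f ∈ R

/-! ### The surface -/

def S_NF : Prop := ∀ (R : Type) [CommRing R] (d : R[X]) (f : Bq d),
  ∃ (r : ℕ) (f₀ f₁ : R[X][X]), co d 2 ^ r * f = evB d f₀ + evB d f₁ * co d 0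

def S_Domain : Prop := ∀ (k : Type) [Field k] [CharZero k] (d : k[X]), d ≠ 0 → IsDomain (Bq d)

def S_Smooth : Prop := ∀ (k : Type) [Field k] [CharZero k] (d : k[X]),
  Smooth (Spec.map (CommRingCat.ofHom (algebraMap k (Bq d)))) ∧
    LocallyOfFiniteType (Spec.map (CommRingCat.ofHom (algebraMap k (Bq d))))

def S_Codim : Prop := ∀ (k : Type) [Field k] [CharZero k] [IsAlgClosed k] (d Y : k[X]),
  IsDomain (Bq d) → Y ≠ 0 → ∀ z : PrimeSpectrum (Bq d), co d 1 ∈ z.asIdeal →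
    aeval (co d 2) Y ∈ z.asIdeal → 2 ≤ ringKrullDim ((Spec (.of (Bq d))).presheaf.stalk z)

/-- A criterion for an affine scheme. -/
def S_Aff : Prop := ∀ (k : Type) [Field k] (A : Subring k) (d₀ : A[X]) (d : k[X]),
  Algebra.FiniteType ℤ A → d₀.map A.subtype = d →
  (∀ f : Bq d, f ≠ 0 → ∃ φ : Bq d →ₐ[k] k, φ f ≠ 0 ∧ ∀ i, φ (co d i) ∈ A) →
    ArithSpecial (Spec.map (CommRingCat.ofHom (algebraMap k (Bq d))))

def S_Pts : Prop := ∀ (k : Type) [Field k] [CharZero k] (e : k) (q : Fin 18 → k) (A : Subring k),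
  Ind e q → e ∈ A → (∀ j, q j ∈ A) → (2 : k)⁻¹ ∈ A →
    ∀ f : Bq (pd e q), f ≠ 0 → ∃ φ : Bq (pd e q) →ₐ[k] k, φ f ≠ 0 ∧ ∀ i, φ (co _ i) ∈ A

def S_Not : Prop := ∀ (k : Type) [Field k] [CharZero k] [IsAlgClosed k] (e : k) (q : Fin 18 → k)
  (U : (Spec (.of (Bq (pd e q)))).Opens), Ind e q →
    (∀ z : PrimeSpectrum (Bq (pd e q)), z ∈ U ↔
      co _ 1 ∉ z.asIdeal ∨ aeval (co (pd e q) 2) (pY e) ∉ z.asIdeal) →
    ¬ ArithSpecial (U.ι ≫ Spec.map (CommRingCat.ofHom (algebraMap k (Bq (pd e q)))))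

def S_Trdeg : Prop := (∀ (k : Type) [Field k] [CharZero k], 19 ≤ Algebra.trdeg ℚ k →
  ∃ (e : k) (q : Fin 18 → k), Ind e q) ∧ 19 ≤ Algebra.trdeg ℚ ℂ

def S_Main : Prop := ∀ (k : Type) [Field k] [IsAlgClosed k] [CharZero k],
  19 ≤ Algebra.trdeg ℚ k → ∃ (X : Scheme.{0}) (s : X ⟶ Spec (.of k)) (Z : Set X)
    (hZ : IsClosed Z), IsIntegral X ∧ IsSeparated s ∧ LocallyOfFiniteType s ∧ QuasiCompact s ∧
      Smooth s ∧ (∀ z ∈ Z, 2 ≤ ringKrullDim (X.presheaf.stalk z)) ∧ ArithSpecial s ∧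
      ¬ ArithSpecial (Scheme.Opens.ι ⟨Zᶜ, hZ.isOpen_compl⟩ ≫ s)

end Pool.Agent.P.MP_84b56d_ag.PC
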